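import Pool.Agent.N879.SQ.Stm2
import Pool.Agent.TH612.CF.Loc

set_option autoImplicit false

/-! Project SQ: the local series as an integral over the circle. -/

namespace Pool.Agent.N879.SQ.Akaux

open Complex MeasureTheory

noncomputable section

/-- complete homogeneous symmetric polynomials -/
def hs : (k : ℕ) → (Fin k → ℂ) → ℕ → ℂ
  | 0, _, m => if m = 0 then 1 else 0
  | k + 1, x, m => ∑ ij ∈ Finset.HasAntidiagonal.antidiagonal m, x 0 ^ ij.1 * hs k (fun j => x j.succ) ij.2

lemma hs_smul (c : ℂ) : ∀ (k : ℕ) (x : Fin k → ℂ) (m : ℕ),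
    hs k (fun j => c * x j) m = c ^ m * hs k x m
  | 0, x, m => by
      simp only [hs]
      split_ifs with h
      · subst h; simp
      · simp
  | k + 1, x, m => by
      simp only [hs]
      rw [Finset.mul_sum]
      refine Finset.sum_congr rfl fun ij hij => ?_
      rw [hs_smul c k (fun j => x j.succ) ij.2, mul_pow, ← Finset.HasAntidiagonal.mem_antidiagonal.1 hij, pow_add]
      ring

lemma hs_sum : ∀ (k : ℕ) (x : Fin k → ℂ), (∀ j, ‖x j‖ < 1) →
    Summable (fun m => ‖hs k x m‖) ∧ ∑' m, hs k x m = ∏ j, (1 - x j)⁻¹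
  | 0, x, _ => by
      constructor
      · refine summable_of_ne_finset_zero (s := {0}) fun m hm => ?_
        have h : m ≠ 0 := by simpa using hm
        simp only [hs, if_neg h, norm_zero]
      · simp only [hs, tsum_ite_eq]
        simp
  | k + 1, x, hx => by
      obtain ⟨h1, h2⟩ := hs_sum k (fun j => x j.succ) fun j => hx j.succ
      have h3 : Summable (fun m => ‖x 0 ^ m‖) := by
        simp only [norm_pow]
        exact summable_geometric_of_lt_one (norm_nonneg _) (hx 0)
      constructor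
      · simp only [hs]
        exact summable_norm_sum_mul_antidiagonal_of_summable_norm h3 h1
      · have h4 := tsum_mul_tsum_eq_tsum_sum_antidiagonal_of_summable_norm h3 h1
        rw [tsum_geometric_of_norm_lt_one (hx 0), h2] at h4
        rw [Fin.prod_univ_succ]
        simp only [hs]
        exact h4.symm

lemma int_pow (m n : ℕ) : ∫ θ in (0:ℝ)..1, exp (2 * Real.pi * I * θ) ^ m *
    exp (-(2 * Real.pi * I * θ)) ^ n = if m = n then 1 else 0 := by
  have e : ∀ θ : ℝ, exp (2 * Real.pi * I * θ) ^ m * exp (-(2 * Real.pi * I * θ)) ^ n =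
      exp ((2 * Real.pi * I * ((m:ℂ) - n)) * θ) := by
    intro θ
    rw [← Complex.exp_nat_mul, ← Complex.exp_nat_mul, ← Complex.exp_add]
    congr 1; ring
  simp only [e]
  split_ifs with h
  · subst h; simp
  · have hmn : (m : ℂ) - n ≠ 0 := sub_ne_zero.2 (by exact_mod_cast h)
    have hc : (2 * Real.pi * I * ((m:ℂ) - n)) ≠ 0 :=
      mul_ne_zero Complex.two_pi_I_ne_zero hmn
    rw [integral_exp_mul_complex hc]
    have h1 : exp (2 * Real.pi * I * ((m:ℂ) - n) * ((1:ℝ):ℂ)) = 1 := by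
      rw [Complex.exp_eq_one_iff]
      exact ⟨(m:ℤ) - n, by push_cast; ring⟩
    have h0 : exp (2 * Real.pi * I * ((m:ℂ) - n) * ((0:ℝ):ℂ)) = 1 := by simp
    rw [h1, h0, sub_self, zero_div]

lemma norm_w (θ : ℝ) : ‖exp (2 * Real.pi * I * θ)‖ = 1 := by
  have : 2 * (Real.pi : ℂ) * I * θ = ((2 * Real.pi * θ : ℝ) : ℂ) * I := by push_cast; ring
  rw [this, Complex.norm_exp_ofReal_mul_I]

lemma norm_w' (θ : ℝ) : ‖exp (-(2 * Real.pi * I * θ))‖ = 1 := by
  rw [Complex.exp_neg, norm_inv, norm_w, inv_one]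

lemma pars (A B : ℕ → ℂ) (hA : Summable fun m => ‖A m‖) (hB : Summable fun m => ‖B m‖) :
    ∫ θ in (0:ℝ)..1, (∑' m, exp (2 * Real.pi * I * θ) ^ m * A m) *
      (∑' n, exp (-(2 * Real.pi * I * θ)) ^ n * B n) = ∑' m, A m * B m := by
  have hAB : Summable (fun x : ℕ × ℕ => ‖A x.1‖ * ‖B x.2‖) :=
    hA.mul_of_nonneg hB (fun _ => norm_nonneg _) (fun _ => norm_nonneg _)
  have key : HasSum (fun x : ℕ × ℕ => ∫ θ in (0:ℝ)..1,
      (exp (2 * Real.pi * I * θ) ^ x.1 * A x.1) * (exp (-(2 * Real.pi * I * θ)) ^ x.2 * B x.2))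
      (∫ θ in (0:ℝ)..1, (∑' m, exp (2 * Real.pi * I * θ) ^ m * A m) *
      (∑' n, exp (-(2 * Real.pi * I * θ)) ^ n * B n)) := by
    refine intervalIntegral.hasSum_integral_of_dominated_convergence
      (fun x _ => ‖A x.1‖ * ‖B x.2‖) ?_ ?_ ?_ ?_ ?_
    · intro x
      refine Continuous.aestronglyMeasurable ?_
      fun_prop
    · intro x
      refine Filter.Eventually.of_forall fun θ _ => ?_
      rw [norm_mul, norm_mul, norm_mul, norm_pow, norm_pow, norm_w, norm_w']
      simp
    · exact Filter.Eventually.of_forall fun θ _ => hAB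
    · exact intervalIntegrable_const
    · refine Filter.Eventually.of_forall fun θ _ => ?_
      have s1 : Summable (fun m => ‖exp (2 * Real.pi * I * θ) ^ m * A m‖) := by
        simpa [norm_mul, norm_pow, norm_w] using hA
      have s2 : Summable (fun m => ‖exp (-(2 * Real.pi * I * θ)) ^ m * B m‖) := by
        simpa only [norm_mul, norm_pow, norm_w', one_pow, one_mul] using hB
      rw [tsum_mul_tsum_of_summable_norm s1 s2]
      exact (summable_mul_of_summable_norm s1 s2).hasSum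
  have e1 : (fun x : ℕ × ℕ => ∫ θ in (0:ℝ)..1,
      (exp (2 * Real.pi * I * θ) ^ x.1 * A x.1) * (exp (-(2 * Real.pi * I * θ)) ^ x.2 * B x.2)) =
      fun x : ℕ × ℕ => if x.1 = x.2 then A x.1 * B x.2 else 0 := by
    funext x
    have e2 : ∀ θ : ℝ, (exp (2 * Real.pi * I * θ) ^ x.1 * A x.1) *
        (exp (-(2 * Real.pi * I * θ)) ^ x.2 * B x.2) =
        (A x.1 * B x.2) * (exp (2 * Real.pi * I * θ) ^ x.1 *
          exp (-(2 * Real.pi * I * θ)) ^ x.2) := fun θ => by ring
    simp only [e2]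
    rw [intervalIntegral.integral_const_mul, int_pow]
    split_ifs <;> simp
  rw [e1] at key
  have inj : Function.Injective (fun m : ℕ => (m, m)) := fun a b h => (Prod.ext_iff.1 h).1
  rw [← inj.hasSum_iff] at key
  · rw [← key.tsum_eq]
    refine tsum_congr fun m => ?_
    simp
  · rintro ⟨a, b⟩ hx
    refine if_neg fun h => hx ⟨a, ?_⟩
    simp only at h
    rw [h]

open Pool.Agent.TH612.CF Pool.Agent.W182.KO in
lemma tau_hs : ∀ {k : ℕ} (l : Fin k → ℂ) {p : ℕ} (_ : p.Prime) (m : ℕ),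
    tau l (p ^ m) = hs k (fun j => (p : ℂ) ^ (l j)) m
  | 0, l, p, hp, m => by
      rw [tau_nil]
      simp only [hs]
      have h : p ^ m = 1 ↔ m = 0 := by
        constructor
        · intro h
          by_contra h0
          exact absurd h (Nat.one_lt_pow h0 hp.one_lt).ne'
        · rintro rfl; exact pow_zero p
      simp only [h]
  | k + 1, l, p, hp, m => by
      rw [tau_succ, Nat.sum_divisorsAntidiagonal
        (fun a b => (a : ℂ) ^ (l 0) * tau (fun j => l j.succ) b), Nat.sum_divisors_prime_pow hp]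
      simp only [hs]
      rw [Finset.Nat.sum_antidiagonal_eq_sum_range_succ
        (fun i j => ((p : ℂ) ^ (l 0)) ^ i * hs k (fun j => (p : ℂ) ^ (l j.succ)) j) m]
      refine Finset.sum_congr rfl fun i hi => ?_
      have hi' : i ≤ m := Nat.lt_succ_iff.1 (Finset.mem_range.1 hi)
      rw [Nat.pow_div hi' hp.pos, tau_hs _ hp]
      congr 1
      rw [Nat.cast_pow, ← Complex.cpow_nat_mul, Complex.natCast_cpow_natCast_mul]

end

end Pool.Agent.N879.SQ.Akaux

namespace Pool.Agent.N879.SQ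

open Complex MeasureTheory Akaux Pool.Agent.TH612.CF Pool.Agent.W182.KO in
theorem t_AK : S_AK := by
  intro k a b p hp
  have hp0 : (p : ℂ) ≠ 0 := by exact_mod_cast hp.ne_zero
  set x : Fin k → ℂ := fun j => (p : ℂ) ^ (-(1 / 2 + I * (a j : ℂ))) with hx
  set y : Fin k → ℂ := fun j => (p : ℂ) ^ (-(1 / 2 - I * (b j : ℂ))) with hy
  have hp1 : (1:ℝ) < p := by exact_mod_cast hp.one_lt
  have hx1 : ∀ j, ‖x j‖ < 1 := by
    intro j
    simp only [hx]
    rw [Complex.norm_natCast_cpow_of_pos hp.pos]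
    refine Real.rpow_lt_one_of_one_lt_of_neg hp1 ?_
    have e : (-(1 / 2 + I * (a j : ℂ))).re = -(1 / 2) := by simp
    rw [e]; norm_num
  have hy1 : ∀ j, ‖y j‖ < 1 := by
    intro j
    simp only [hy]
    rw [Complex.norm_natCast_cpow_of_pos hp.pos]
    refine Real.rpow_lt_one_of_one_lt_of_neg hp1 ?_
    have e : (-(1 / 2 - I * (b j : ℂ))).re = -(1 / 2) := by simp
    rw [e]; norm_num
  have e1 : ∀ m : ℕ, lt (fun j => (a j : ℂ)) (fun j => (b j : ℂ)) p m =
      hs k x m * hs k y m := by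
    intro m
    have ex : hs k x m = ((p : ℂ) ^ (-(1 / 2) : ℂ)) ^ m *
        hs k (fun j => (p : ℂ) ^ (-(I * (a j : ℂ)))) m := by
      rw [← hs_smul]
      congr 1
      funext j
      simp only [hx]
      rw [← Complex.cpow_add _ _ hp0]
      congr 1; ring
    have ey : hs k y m = ((p : ℂ) ^ (-(1 / 2) : ℂ)) ^ m *
        hs k (fun j => (p : ℂ) ^ (I * (b j : ℂ))) m := by
      rw [← hs_smul]
      congr 1
      funext j
      simp only [hy]
      rw [← Complex.cpow_add _ _ hp0]
      congr 1; ring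
    have ep : ((p : ℂ) ^ m)⁻¹ = ((p : ℂ) ^ (-(1 / 2) : ℂ)) ^ m * ((p : ℂ) ^ (-(1 / 2) : ℂ)) ^ m := by
      rw [← mul_pow, ← Complex.cpow_add _ _ hp0, ← inv_pow, ← Complex.cpow_neg_one]
      congr 2; norm_num
    unfold lt
    rw [tau_hs _ hp, tau_hs _ hp, ex, ey, ep]
    ring
  rw [tsum_congr e1, ← pars _ _ (hs_sum k x hx1).1 (hs_sum k y hy1).1]
  refine intervalIntegral.integral_congr fun θ _ => ?_
  have hw := norm_w θ
  have hw' := norm_w' θ
  have g1 : ∑' m, exp (2 * Real.pi * I * θ) ^ m * hs k x m =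
      ∏ j, (1 - exp (2 * Real.pi * I * θ) / (p : ℂ) ^ (1 / 2 + I * (a j : ℂ)))⁻¹ := by
    have h1 := (hs_sum k (fun j => exp (2 * Real.pi * I * θ) * x j) fun j => by
      rw [norm_mul, hw, one_mul]; exact hx1 j).2
    simp only [hs_smul] at h1
    rw [h1]
    refine Finset.prod_congr rfl fun j _ => ?_
    simp only [hx]
    rw [Complex.cpow_neg, ← div_eq_mul_inv]
  have g2 : ∑' m, exp (-(2 * Real.pi * I * θ)) ^ m * hs k y m =
      ∏ j, (1 - exp (-(2 * Real.pi * I * θ)) / (p : ℂ) ^ (1 / 2 - I * (b j : ℂ)))⁻¹ := by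
    have h1 := (hs_sum k (fun j => exp (-(2 * Real.pi * I * θ)) * y j) fun j => by
      rw [norm_mul, hw', one_mul]; exact hy1 j).2
    simp only [hs_smul] at h1
    rw [h1]
    refine Finset.prod_congr rfl fun j _ => ?_
    simp only [hy]
    rw [Complex.cpow_neg, ← div_eq_mul_inv]
  rw [g1, g2, ← Finset.prod_mul_distrib]

end Pool.Agent.N879.SQ
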