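import Pool.Agent.N879.SQ.Stm

set_option autoImplicit false

/-! Project SQ: the exceptional set. -/

namespace Pool.Agent.N879.SQ

open Complex Filter Topology MeasureTheory Set
open Pool.Agent.TH612.CF Pool.Agent.TH612.GS Pool.Agent.TH757.GS
open scoped ContDiff

noncomputable section

namespace As

lemma ff_cont {k : ℕ} (γ : Fin k ⊕ Fin k → ℝ) : Continuous (ff γ) :=
  (Zg_cont γ).sub (continuous_const.mul (Qs_cont γ))

end As

theorem t_FIN (hRM : S_RM) (hMSI : S_MSI) (hNS : S_NS2) : S_FIN := by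
  intro k ε hε
  obtain ⟨CR, hCR, hR⟩ := hRM
  obtain ⟨C, T₀, hC, hT₀, hM⟩ := hMSI k ε hε
  have ev1 := log_ev (16 * CR * C) 2 (half_pos hε)
  have ev2 := log_ev (32 * (k:ℝ) ^ 2) 0 (θ := 1 / 4) (by norm_num)
  obtain ⟨Te, hTe⟩ := eventually_atTop.1 (ev1.and ev2)
  set δ : ℝ := min (ε / 2) (1 / 4) with hδ
  have hδ0 : 0 < δ := lt_min (half_pos hε) (by norm_num)
  have hδ1 : δ ≤ ε / 2 := min_le_left _ _
  have hδ2 : δ ≤ 1 / 4 := min_le_right _ _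
  refine ⟨δ, max 4 (max Te T₀), hδ0, fun T hT => ?_⟩
  have hT4 : 4 ≤ T := (le_max_left _ _).trans hT
  have hT' := (le_max_right _ _).trans hT
  obtain ⟨l1, l2⟩ := hTe T ((le_max_left _ _).trans hT')
  obtain ⟨a1, a2⟩ := hM T ((le_max_right _ _).trans hT')
  have hTp : 0 < T := by linarith
  have hT1 : 1 ≤ T := by linarith
  have hlog : 0 ≤ Real.log T := Real.log_nonneg hT1
  have hlam : 0 < T ^ (1 / 2 + ε) := by positivity
  have key := hR (Fin k ⊕ Fin k → ℝ) (mP (Fin k ⊕ Fin k) T) (Sep2 k T) ff T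
    (C * T ^ (2 * k) * T ^ ε) (C * T ^ (2 * k) * T ^ ε) hT1 (by positivity) (by positivity)
    As.ff_cont a1 a2 (T ^ (1 / 2 + ε)) hlam
  have hns := hNS k T hT1
  have hsub : Bad k T (T ^ (1 / 2 + ε)) ⊆ (Sep2 k T)ᶜ ∪ (Sep2 k T ∩
      {x | ∃ S : ℝ, 0 ≤ S ∧ S ≤ T ∧ T ^ (1 / 2 + ε) < ‖∫ t in (0:ℝ)..S, ff x t‖}) := by
    intro γ hγ
    by_cases h : γ ∈ Sep2 k T
    · right
      exact ⟨h, hγ.2⟩
    · left
      exact h
  refine (measure_mono hsub).trans ((measure_union_le _ _).trans ((add_le_add hns key).trans ?_))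
  have e2 : T ^ (2 * k - δ : ℝ) = T ^ (2 * k) * T ^ (-δ) := by
    rw [sub_eq_add_neg, Real.rpow_add hTp]
    congr 1
    rw [← Real.rpow_natCast]; push_cast; rfl
  have e3 : T ^ (2 * k - 1 / 2 : ℝ) = T ^ (2 * k) * T ^ (-(1 / 2) : ℝ) := by
    rw [sub_eq_add_neg, Real.rpow_add hTp]
    congr 1
    rw [← Real.rpow_natCast]; push_cast; rfl
  have b1 : 16 * (k:ℝ) ^ 2 * T ^ (2 * k - 1 / 2 : ℝ) ≤ T ^ (2 * k - δ : ℝ) / 2 := by
    rw [e2, e3]
    have c1 : T ^ (-(1 / 2) : ℝ) = T ^ (-(1 / 4) : ℝ) * T ^ (-(1 / 4) : ℝ) := by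
      rw [← Real.rpow_add hTp]; norm_num
    have c2 : T ^ (-(1 / 4) : ℝ) * T ^ (1 / 4 : ℝ) = 1 := by
      rw [← Real.rpow_add hTp]; norm_num
    have c3 : T ^ (-(1 / 4) : ℝ) ≤ T ^ (-δ) := Real.rpow_le_rpow_of_exponent_le hT1 (by linarith)
    rw [pow_zero, mul_one] at l2
    have hq : 0 < T ^ (-(1 / 4) : ℝ) := by positivity
    calc 16 * (k:ℝ) ^ 2 * (T ^ (2 * k) * T ^ (-(1 / 2) : ℝ)) =
        (32 * (k:ℝ) ^ 2) * (T ^ (2 * k) * (T ^ (-(1 / 4) : ℝ) * T ^ (-(1 / 4) : ℝ))) / 2 := by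
          rw [c1]; ring
      _ ≤ T ^ (1 / 4 : ℝ) * (T ^ (2 * k) * (T ^ (-(1 / 4) : ℝ) * T ^ (-(1 / 4) : ℝ))) / 2 := by
          gcongr
      _ = T ^ (2 * k) * T ^ (-(1 / 4) : ℝ) * (T ^ (-(1 / 4) : ℝ) * T ^ (1 / 4 : ℝ)) / 2 := by ring
      _ = T ^ (2 * k) * T ^ (-(1 / 4) : ℝ) / 2 := by rw [c2, mul_one]
      _ ≤ T ^ (2 * k) * T ^ (-δ) / 2 := by gcongr
  have b2 : CR * Real.log (T + 2) ^ 2 * (C * T ^ (2 * k) * T ^ ε + C * T ^ (2 * k) * T ^ ε) * T /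
      (T ^ (1 / 2 + ε)) ^ 2 ≤ T ^ (2 * k - δ : ℝ) / 2 := by
    have c0 : Real.log (T + 2) ≤ 2 * Real.log T := by
      have : 2 * Real.log T = Real.log (T ^ 2) := by rw [Real.log_pow]; push_cast; ring
      rw [this]
      exact Real.log_le_log (by linarith) (by nlinarith)
    have c00 : 0 ≤ Real.log (T + 2) := Real.log_nonneg (by linarith)
    have c1 : (T ^ (1 / 2 + ε)) ^ 2 = T * (T ^ ε * T ^ ε) := by
      rw [← Real.rpow_natCast, ← Real.rpow_mul hTp.le, ← Real.rpow_add hTp]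
      nth_rewrite 2 [← Real.rpow_one T]
      rw [← Real.rpow_add hTp]
      congr 1
      push_cast; ring
    have c2 : T ^ ε = T ^ (ε / 2) * T ^ (ε / 2) := by
      rw [← Real.rpow_add hTp]; congr 1; ring
    have c3 : T ^ (-δ) ≥ T ^ (-(ε / 2)) := Real.rpow_le_rpow_of_exponent_le hT1 (by linarith)
    have c4 : T ^ (-(ε / 2)) = (T ^ (ε / 2))⁻¹ := Real.rpow_neg hTp.le _
    have hp : 0 < T ^ (ε / 2) := by positivity
    have hpe : 0 < T ^ ε := by positivity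
    rw [c1, e2]
    calc CR * Real.log (T + 2) ^ 2 * (C * T ^ (2 * k) * T ^ ε + C * T ^ (2 * k) * T ^ ε) * T /
          (T * (T ^ ε * T ^ ε)) ≤
        CR * (2 * Real.log T) ^ 2 * (C * T ^ (2 * k) * T ^ ε + C * T ^ (2 * k) * T ^ ε) * T /
          (T * (T ^ ε * T ^ ε)) := by gcongr
      _ = (16 * CR * C * Real.log T ^ 2) * (T ^ (2 * k) / T ^ ε) / 2 := by
          field_simp
          ring
      _ ≤ T ^ (ε / 2) * (T ^ (2 * k) / T ^ ε) / 2 := by gcongr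
      _ = T ^ (2 * k) * (T ^ (ε / 2))⁻¹ / 2 := by
          rw [c2]
          field_simp
      _ ≤ T ^ (2 * k) * T ^ (-δ) / 2 := by
          rw [← c4]
          gcongr
  calc _ ≤ ENNReal.ofReal (T ^ (2 * k - δ : ℝ) / 2) + ENNReal.ofReal (T ^ (2 * k - δ : ℝ) / 2) := by
        gcongr
    _ = _ := by
        rw [← ENNReal.ofReal_add (by positivity) (by positivity)]
        congr 1
        ring

end

end Pool.Agent.N879.SQ
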