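import Pool.Agent.N879.SQ.Stm
import Pool.Agent.TH612.GS.Inv

set_option autoImplicit false

/-! Project SQ: the mean square of the difference. -/

namespace Pool.Agent.N879.SQ

open Complex Filter Topology MeasureTheory Set
open Pool.Agent.TH612.CF Pool.Agent.TH612.GS Pool.Agent.TH757.GS
open scoped ContDiff

noncomputable section

variable {k : ℕ}

namespace As

lemma OD_cont (X : ℕ) (S : ℝ) : Continuous fun γ : Fin k ⊕ Fin k → ℝ => OD X S γ :=
  (intprod_cont (PN_cont X) S).sub (continuous_const.mul (SN_cont X))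

lemma DD_le2 (hINV : S_INV) (ψ : ℝ → ℝ) {X M : ℕ} {S T C : ℝ} (hS : 0 ≤ S)
    (hT : 3 ≤ T) (hC : 0 < C)
    (h1 : ∀ v : ℝ, 1 ≤ |v| → |v| ≤ T → ‖riemannZeta (1 + I * v)‖ ≤ C * Real.log T)
    {γ : Fin k ⊕ Fin k → ℝ} (hγ : γ ∈ Sep k T) :
    ‖DD S γ‖ ≤ ‖A1 X S γ‖ + ‖OD X S γ‖ + S * ‖SN X γ - SP ψ M γ‖ +
      S * ‖SP ψ M γ - zr γ‖ + ZB k C T * ∑ π ∈ (Pk k)ᶜ, ‖IG S γ π‖ := by
  rw [DD_eq hINV]
  set I2 : ℂ := ∫ t in (0:ℝ)..S, ∏ j : Fin k, PN X (t + γ (Sum.inl j)) *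
      (starRingEnd ℂ) (PN X (t + γ (Sum.inr j))) with hI2
  have e1 : (∫ t in (0:ℝ)..S, Zg γ t) = A1 X S γ + I2 := by
    unfold A1
    simp only [Zg_fz]
    ring
  have e0 : OD X S γ = I2 - S * SN X γ := rfl
  have e2 : (∫ t in (0:ℝ)..S, Zg γ t) - S * zr γ -
      ((Nat.factorial k : ℂ) ^ 2)⁻¹ * ∑ π ∈ (Pk k)ᶜ, IG S γ π * zp γ π =
      A1 X S γ + OD X S γ + S * (SN X γ - SP ψ M γ) + S * (SP ψ M γ - zr γ) -
        ((Nat.factorial k : ℂ) ^ 2)⁻¹ * ∑ π ∈ (Pk k)ᶜ, IG S γ π * zp γ π := by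
    rw [e1, e0]; ring
  rw [e2]
  have n1 : ∀ w : ℂ, ‖(S:ℂ) * w‖ = S * ‖w‖ := by
    intro w
    rw [norm_mul, Complex.norm_real, Real.norm_of_nonneg hS]
  have n2 : ‖((Nat.factorial k : ℂ) ^ 2)⁻¹ * ∑ π ∈ (Pk k)ᶜ, IG S γ π * zp γ π‖ ≤
      ZB k C T * ∑ π ∈ (Pk k)ᶜ, ‖IG S γ π‖ := by
    rw [norm_mul]
    calc _ ≤ 1 * ‖∑ π ∈ (Pk k)ᶜ, IG S γ π * zp γ π‖ := by
          gcongr
          exact inv_le_one
      _ ≤ 1 * ∑ π ∈ (Pk k)ᶜ, ‖IG S γ π * zp γ π‖ := by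
          gcongr
          exact norm_sum_le _ _
      _ ≤ 1 * ∑ π ∈ (Pk k)ᶜ, ‖IG S γ π‖ * ZB k C T := by
          gcongr with π hπ
          rw [norm_mul]
          gcongr
          exact zp_bd hT hC h1 hγ π
      _ = _ := by rw [one_mul, ← Finset.sum_mul, mul_comm]
  have n5 := n1 (SN X γ - SP ψ M γ)
  have n6 := n1 (SP ψ M γ - zr γ)
  refine (norm_sub_le _ _).trans (add_le_add ?_ n2)
  refine (norm_add_le _ _).trans (add_le_add ?_ n6.le)
  refine (norm_add_le _ _).trans (add_le_add ?_ n5.le)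
  exact norm_add_le _ _

lemma mP_univ (ι : Type) [Fintype ι] {T : ℝ} (hT : 0 ≤ T) :
    mP ι T univ = ENNReal.ofReal (T ^ Fintype.card ι) := by
  unfold mP
  rw [Measure.pi_univ]
  simp only [Measure.restrict_apply_univ, Real.volume_Icc, sub_zero, Finset.prod_const,
    Finset.card_univ]
  rw [ENNReal.ofReal_pow hT]

lemma sq5 (a b c d e : ℝ) : (a + b + c + d + e) ^ 2 ≤
    5 * a ^ 2 + 5 * b ^ 2 + 5 * c ^ 2 + 5 * d ^ 2 + 5 * e ^ 2 := by
  nlinarith [sq_nonneg (a - b), sq_nonneg (a - c), sq_nonneg (a - d), sq_nonneg (a - e),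
    sq_nonneg (b - c), sq_nonneg (b - d), sq_nonneg (b - e), sq_nonneg (c - d), sq_nonneg (c - e),
    sq_nonneg (d - e)]

end As

open As

set_option maxHeartbeats 8000000 in
theorem t_MSQ (hINV : S_INV) (hONE : S_ONE) (hZ1 : S_Z1Q) (hO : S_OFF) (hC : S_CUT) (hCZ : S_CZ)
    (hSW : S_SW2) : S_MSQ := by
  intro k ε hε
  obtain ⟨ψ, hψ⟩ := exists_cut
  obtain ⟨C1, T1, hC1, hT1, h1⟩ := hZ1 k
  obtain ⟨C2, hC2, h2⟩ := hO k ε hε
  obtain ⟨A, hA5, C4, T4, hC4, hT4, h4⟩ := hCZ k ψ hψ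
  obtain ⟨C3, hC3, h3⟩ := hC k A ψ ε hψ hε
  obtain ⟨C5, T5, hC5, hT5, h5⟩ := hSW k
  obtain ⟨C7, T7, hC7, hT7, h7⟩ := hONE
  set P0 : ℝ := (Fintype.card (Equiv.Perm (Fin k ⊕ Fin k)) : ℝ) with hP0
  have hP0' : 0 ≤ P0 := Nat.cast_nonneg _
  have ev1 := log_ev (5 * C1) (2 * k + 1) hε
  have ev2 := log_ev (5 * (BF k (1 / 8)) ^ 2 * C7 ^ (2 * k ^ 2) * P0 ^ 2 * C5) (2 * k ^ 2 + 2) hε
  obtain ⟨Te, hTe⟩ := eventually_atTop.1 (ev1.and ev2)
  refine ⟨1 + 5 * C2 + 5 * C3 + 5 * C4 ^ 2 + 1, max 256 (max Te (max T1 (max T4 (max T5 T7)))),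
    by positivity, (by norm_num : (4:ℝ) ≤ 256).trans (le_max_left _ _), fun T S hT hS0 hST => ?_⟩
  have hT256 : 256 ≤ T := (le_max_left _ _).trans hT
  have hT' := (le_max_right _ _).trans hT
  have hTTe : Te ≤ T := (le_max_left _ _).trans hT'
  have hT'' := (le_max_right _ _).trans hT'
  have hTT1 : T1 ≤ T := (le_max_left _ _).trans hT''
  have hT3 := (le_max_right _ _).trans hT''
  have hTT4 : T4 ≤ T := (le_max_left _ _).trans hT3
  have hT4' := (le_max_right _ _).trans hT3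
  have hTT5 : T5 ≤ T := (le_max_left _ _).trans hT4'
  have hTT7 : T7 ≤ T := (le_max_right _ _).trans hT4'
  have hTp : 0 < T := by linarith
  have hTge1 : 1 ≤ T := by linarith
  obtain ⟨l1, l2⟩ := hTe T hTTe
  have hlog : 0 ≤ Real.log T := Real.log_nonneg hTge1
  -- the parameters
  obtain ⟨X, hX⟩ : ∃ X : ℕ, X = ⌈2 * T⌉₊ := ⟨_, rfl⟩
  have hX1 : 2 * T ≤ X := by rw [hX]; exact Nat.le_ceil _
  have hX2 : (X : ℝ) ≤ 4 * T := by
    have := Nat.ceil_lt_add_one (a := 2 * T) (by linarith)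
    rw [hX]; linarith
  have hXn : 1 ≤ X := by
    have : (1:ℝ) ≤ X := by linarith
    exact_mod_cast this
  obtain ⟨M, hM⟩ : ∃ M : ℕ, M = ⌈T ^ A⌉₊ := ⟨_, rfl⟩
  have hTA1 : 1 ≤ T ^ A := one_le_pow₀ hTge1
  have hM1 : T ^ A ≤ M := by rw [hM]; exact Nat.le_ceil _
  have hM2 : (M : ℝ) ≤ 2 * T ^ A := by
    have := Nat.ceil_lt_add_one (a := T ^ A) (by linarith)
    rw [hM]; linarith
  have hXM : X ^ 4 ≤ M := by
    have c1 : ((X ^ 4 : ℕ) : ℝ) ≤ M := by
      push_cast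
      calc (X : ℝ) ^ 4 ≤ (4 * T) ^ 4 := by gcongr
        _ = 256 * T ^ 4 := by ring
        _ ≤ T * T ^ 4 := by gcongr
        _ = T ^ 5 := by ring
        _ ≤ T ^ A := pow_le_pow_right₀ hTge1 hA5
        _ ≤ M := hM1
    exact_mod_cast c1
  have hone := (h7 T 1 hTT7 le_rfl (by
    rw [Nat.cast_one]
    exact Real.one_le_rpow hTge1 (by norm_num))).1
  set Z := ZB k C7 T with hZ
  have hZ0 : 0 ≤ Z := by
    rw [hZ]
    unfold ZB
    exact mul_nonneg (BF_nonneg _ _) (by positivity)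
  -- the function
  set g1 : (Fin k ⊕ Fin k → ℝ) → ENNReal := fun γ => ENNReal.ofReal (‖A1 X S γ‖ ^ 2) with hg1
  set g2 : (Fin k ⊕ Fin k → ℝ) → ENNReal := fun γ => ENNReal.ofReal (‖OD X S γ‖ ^ 2) with hg2
  set g3 : (Fin k ⊕ Fin k → ℝ) → ENNReal := fun γ => ENNReal.ofReal (‖SN X γ - SP ψ M γ‖ ^ 2) with hg3
  set g5 : Equiv.Perm (Fin k ⊕ Fin k) → (Fin k ⊕ Fin k → ℝ) → ENNReal :=
    fun π γ => ENNReal.ofReal (‖IG S γ π‖ ^ 2) with hg5
  have m1 : Measurable g1 := ((A1_cont X S).norm.pow 2).measurable.ennreal_ofReal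
  have m2 : Measurable g2 := ((OD_cont X S).norm.pow 2).measurable.ennreal_ofReal
  have m3 : Measurable g3 := (((SN_cont X).sub (SP_cont ψ M)).norm.pow 2).measurable.ennreal_ofReal
  have m5 : ∀ π, Measurable (g5 π) := fun π => ((IG_cont S π).norm.pow 2).measurable.ennreal_ofReal
  set E4 : ℝ := 5 * (S * (C4 * T ^ (-(1 / 2) : ℝ))) ^ 2 with hE4
  set c5 : ℝ := 5 * (Z ^ 2 * P0) with hc5
  have hc5' : 0 ≤ c5 := by positivity
  refine ⟨fun γ => ENNReal.ofReal 5 * g1 γ + (ENNReal.ofReal 5 * g2 γ +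
    (ENNReal.ofReal (5 * S ^ 2) * g3 γ + (ENNReal.ofReal c5 * ∑ π ∈ (Pk k)ᶜ, g5 π γ +
      ENNReal.ofReal E4))), ?_, ?_, ?_⟩
  · refine (m1.const_mul _).add ((m2.const_mul _).add ((m3.const_mul _).add
      (((Finset.measurable_fun_sum _ fun π _ => m5 π).const_mul _).add measurable_const)))
  · intro γ hγ
    have hd := DD_le2 hINV ψ (X := X) (M := M) hS0 (by linarith) hC7 hone hγ
    have hcz := h4 T M γ hTT4 hM1 hM2 hγ
    have hs0 : 0 ≤ ∑ π ∈ (Pk k)ᶜ, ‖IG S γ π‖ := Finset.sum_nonneg fun _ _ => norm_nonneg _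
    have hsq : (∑ π ∈ (Pk k)ᶜ, ‖IG S γ π‖) ^ 2 ≤ P0 * ∑ π ∈ (Pk k)ᶜ, ‖IG S γ π‖ ^ 2 := by
      refine (sq_sum_le_card_mul_sum_sq).trans ?_
      refine mul_le_mul_of_nonneg_right ?_ (Finset.sum_nonneg fun _ _ => by positivity)
      rw [hP0]
      exact_mod_cast Finset.card_le_univ _
    have hb : ‖DD S γ‖ ^ 2 ≤ 5 * ‖A1 X S γ‖ ^ 2 + (5 * ‖OD X S γ‖ ^ 2 +
        (5 * S ^ 2 * ‖SN X γ - SP ψ M γ‖ ^ 2 + (c5 * ∑ π ∈ (Pk k)ᶜ, ‖IG S γ π‖ ^ 2 + E4))) := by
      have q1 : ‖DD S γ‖ ^ 2 ≤ (‖A1 X S γ‖ + ‖OD X S γ‖ + S * ‖SN X γ - SP ψ M γ‖ +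
          S * (C4 * T ^ (-(1 / 2) : ℝ)) + Z * ∑ π ∈ (Pk k)ᶜ, ‖IG S γ π‖) ^ 2 := by
        refine pow_le_pow_left₀ (norm_nonneg _) (hd.trans ?_) 2
        gcongr
      refine q1.trans ((sq5 _ _ _ _ _).trans ?_)
      have q2 : 5 * (Z * ∑ π ∈ (Pk k)ᶜ, ‖IG S γ π‖) ^ 2 ≤ c5 * ∑ π ∈ (Pk k)ᶜ, ‖IG S γ π‖ ^ 2 := by
        rw [hc5, mul_pow]
        calc 5 * (Z ^ 2 * (∑ π ∈ (Pk k)ᶜ, ‖IG S γ π‖) ^ 2) ≤
            5 * (Z ^ 2 * (P0 * ∑ π ∈ (Pk k)ᶜ, ‖IG S γ π‖ ^ 2)) := by gcongr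
          _ = _ := by ring
      have q3 : 5 * (S * ‖SN X γ - SP ψ M γ‖) ^ 2 = 5 * S ^ 2 * ‖SN X γ - SP ψ M γ‖ ^ 2 := by ring
      rw [hE4]
      linarith
    refine (ENNReal.ofReal_le_ofReal hb).trans (le_of_eq ?_)
    have hsn : 0 ≤ ∑ π ∈ (Pk k)ᶜ, ‖IG S γ π‖ ^ 2 := Finset.sum_nonneg fun _ _ => by positivity
    have hE40 : 0 ≤ E4 := by positivity
    rw [ENNReal.ofReal_add (by positivity) (by positivity),
      ENNReal.ofReal_add (by positivity) (by positivity),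
      ENNReal.ofReal_add (by positivity) (by positivity),
      ENNReal.ofReal_add (by positivity) (by positivity),
      ENNReal.ofReal_mul (by norm_num), ENNReal.ofReal_mul (by norm_num),
      ENNReal.ofReal_mul (by positivity), ENNReal.ofReal_mul hc5',
      ENNReal.ofReal_sum_of_nonneg (fun _ _ => by positivity)]
  · rw [lintegral_add_left (m1.const_mul _), lintegral_add_left (m2.const_mul _),
      lintegral_add_left (m3.const_mul _),
      lintegral_add_left ((Finset.measurable_fun_sum _ fun π _ => m5 π).const_mul _),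
      lintegral_const_mul _ m1, lintegral_const_mul _ m2, lintegral_const_mul _ m3,
      lintegral_const_mul _ (Finset.measurable_fun_sum _ fun π _ => m5 π),
      lintegral_finsetSum _ (fun π _ => m5 π), lintegral_const, mP_univ _ hTp.le]
    have hcard : Fintype.card (Fin k ⊕ Fin k) = 2 * k := by
      rw [Fintype.card_sum, Fintype.card_fin]; ring
    rw [hcard]
    have hTk : 0 < T ^ (2 * k) := by positivity
    have hTe0 : 1 ≤ T ^ ε := Real.one_le_rpow hTge1 hε.le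
    set W : ℝ := S * T ^ (2 * k) * T ^ ε with hW
    have hW0 : 0 ≤ W := by positivity
    -- the five bounds
    have b1 : ENNReal.ofReal 5 * ∫⁻ γ, g1 γ ∂(mP (Fin k ⊕ Fin k) T) ≤ ENNReal.ofReal (1 * W) := by
      calc _ ≤ ENNReal.ofReal 5 * ENNReal.ofReal (C1 * Real.log T ^ (2 * k + 1) * T ^ (2 * k) * S) := by
            gcongr
            exact h1 T S X hTT1 hS0 hST hX1 hX2
        _ = ENNReal.ofReal (5 * (C1 * Real.log T ^ (2 * k + 1) * T ^ (2 * k) * S)) := by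
            rw [← ENNReal.ofReal_mul (by norm_num)]
        _ ≤ _ := by
            refine ENNReal.ofReal_le_ofReal ?_
            calc 5 * (C1 * Real.log T ^ (2 * k + 1) * T ^ (2 * k) * S) =
                (5 * C1 * Real.log T ^ (2 * k + 1)) * (T ^ (2 * k) * S) := by ring
              _ ≤ T ^ ε * (T ^ (2 * k) * S) := by gcongr
              _ = _ := by rw [hW]; ring
    have b2 : ENNReal.ofReal 5 * ∫⁻ γ, g2 γ ∂(mP (Fin k ⊕ Fin k) T) ≤ ENNReal.ofReal (5 * C2 * W) := by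
      calc _ ≤ ENNReal.ofReal 5 * ENNReal.ofReal (C2 * S * T ^ (2 * k) * T ^ ε) := by
            gcongr
            exact h2 T S X (by linarith) hS0 hST hXn hX2
        _ = _ := by
            rw [← ENNReal.ofReal_mul (by norm_num)]
            congr 1
            rw [hW]; ring
    have b3 : ENNReal.ofReal (5 * S ^ 2) * ∫⁻ γ, g3 γ ∂(mP (Fin k ⊕ Fin k) T) ≤
        ENNReal.ofReal (5 * C3 * W) := by
      calc _ ≤ ENNReal.ofReal (5 * S ^ 2) * ENNReal.ofReal (C3 * T ^ (2 * k) * T ^ (ε - 1)) := by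
            gcongr
            exact h3 T X M (by linarith) hX1 hX2 hXM hM2
        _ = ENNReal.ofReal (5 * S ^ 2 * (C3 * T ^ (2 * k) * T ^ (ε - 1))) := by
            rw [← ENNReal.ofReal_mul (by positivity)]
        _ ≤ _ := by
            refine ENNReal.ofReal_le_ofReal ?_
            have e : T ^ ε = T * T ^ (ε - 1) := by
              rw [Real.rpow_sub_one hTp.ne']
              field_simp
            rw [hW, e]
            have hp : 0 ≤ T ^ (ε - 1) := by positivity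
            calc 5 * S ^ 2 * (C3 * T ^ (2 * k) * T ^ (ε - 1)) =
                5 * C3 * (S * T ^ (2 * k) * (S * T ^ (ε - 1))) := by ring
              _ ≤ 5 * C3 * (S * T ^ (2 * k) * (T * T ^ (ε - 1))) := by gcongr
    have b4 : ENNReal.ofReal E4 * ENNReal.ofReal (T ^ (2 * k)) ≤ ENNReal.ofReal (5 * C4 ^ 2 * W) := by
      rw [← ENNReal.ofReal_mul (by positivity)]
      refine ENNReal.ofReal_le_ofReal ?_
      have e : (T ^ (-(1 / 2) : ℝ)) ^ 2 = T⁻¹ := by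
        rw [← Real.rpow_natCast, ← Real.rpow_mul hTp.le, ← Real.rpow_neg_one]
        norm_num
      rw [hE4, mul_pow, mul_pow, e]
      have hST1 : S * T⁻¹ ≤ 1 := by
        rw [← div_eq_mul_inv, div_le_one hTp]
        exact hST
      calc 5 * (S ^ 2 * (C4 ^ 2 * T⁻¹)) * T ^ (2 * k) =
          5 * C4 ^ 2 * (S * T ^ (2 * k) * (S * T⁻¹)) := by ring
        _ ≤ 5 * C4 ^ 2 * (S * T ^ (2 * k) * 1) := by gcongr
        _ ≤ 5 * C4 ^ 2 * (S * T ^ (2 * k) * T ^ ε) := by gcongr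
        _ = _ := by rw [hW]
    have b5 : ENNReal.ofReal c5 * ∑ π ∈ (Pk k)ᶜ, ∫⁻ γ, g5 π γ ∂(mP (Fin k ⊕ Fin k) T) ≤
        ENNReal.ofReal (1 * W) := by
      calc _ ≤ ENNReal.ofReal c5 * ∑ _π ∈ (Pk k)ᶜ,
            ENNReal.ofReal (C5 * S * T ^ (2 * k) * Real.log T ^ 2) := by
            gcongr with π hπ
            have hπ' : ∃ j, (π (Sum.inr j)).isLeft = true := by
              rw [Finset.mem_compl, Pk, Finset.mem_filter, not_and] at hπ
              have := hπ (Finset.mem_univ _)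
              push Not at this
              obtain ⟨j, hj⟩ := this
              exact ⟨j, by simpa using hj⟩
            exact h5 T S π hTT5 hS0 hST hπ'
        _ = ENNReal.ofReal (c5 * (((Pk k)ᶜ.card : ℝ) * (C5 * S * T ^ (2 * k) * Real.log T ^ 2))) := by
            rw [Finset.sum_const, nsmul_eq_mul, ← ENNReal.ofReal_natCast,
              ← ENNReal.ofReal_mul (by positivity), ← ENNReal.ofReal_mul hc5']
        _ ≤ _ := by
            refine ENNReal.ofReal_le_ofReal ?_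
            have hcp : ((Pk k)ᶜ.card : ℝ) ≤ P0 := by
              rw [hP0]
              exact_mod_cast Finset.card_le_univ _
            have hZ2 : Z ^ 2 = (BF k (1 / 8)) ^ 2 * C7 ^ (2 * k ^ 2) * Real.log T ^ (2 * k ^ 2) := by
              rw [hZ]
              unfold ZB
              rw [mul_pow, ← pow_mul, mul_pow, mul_comm (k ^ 2) 2]
              ring
            calc c5 * (((Pk k)ᶜ.card : ℝ) * (C5 * S * T ^ (2 * k) * Real.log T ^ 2)) ≤
                c5 * (P0 * (C5 * S * T ^ (2 * k) * Real.log T ^ 2)) := by gcongr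
              _ = (5 * (BF k (1 / 8)) ^ 2 * C7 ^ (2 * k ^ 2) * P0 ^ 2 * C5 *
                  Real.log T ^ (2 * k ^ 2 + 2)) * (S * T ^ (2 * k)) := by
                  rw [hc5, hZ2]
                  ring
              _ ≤ T ^ ε * (S * T ^ (2 * k)) := by gcongr
              _ = _ := by rw [hW]; ring
    calc _ ≤ ENNReal.ofReal (1 * W) + (ENNReal.ofReal (5 * C2 * W) + (ENNReal.ofReal (5 * C3 * W) +
          (ENNReal.ofReal (1 * W) + ENNReal.ofReal (5 * C4 ^ 2 * W)))) := by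
          gcongr
      _ = ENNReal.ofReal (1 * W + (5 * C2 * W + (5 * C3 * W + (1 * W + 5 * C4 ^ 2 * W)))) := by
          rw [ENNReal.ofReal_add (by positivity) (by positivity),
            ENNReal.ofReal_add (by positivity) (by positivity),
            ENNReal.ofReal_add (by positivity) (by positivity),
            ENNReal.ofReal_add (by positivity) (by positivity)]
      _ = _ := by
          congr 1
          rw [hW]
          ring

end

end Pool.Agent.N879.SQ
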