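import Pool.Agent.N879.SQ.Stm1
import Pool.Agent.N879.SQ.Asm1
import Pool.Agent.N879.SQ.Asm2

set_option autoImplicit false

/-! Project SQ: the version with the diagonal term only, mean square and exceptional set. -/

namespace Pool.Agent.N879.SQ

open Complex Filter Topology MeasureTheory Set
open Pool.Agent.TH612.CF Pool.Agent.TH612.GS Pool.Agent.TH757.GS
open scoped ContDiff

noncomputable section

variable {k : ℕ}

namespace As

lemma fd_cont (γ : Fin k ⊕ Fin k → ℝ) : Continuous (fd γ) :=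
  (Zg_cont γ).sub continuous_const

lemma sq4 (a b c d : ℝ) : (a + b + c + d) ^ 2 ≤
    4 * a ^ 2 + 4 * b ^ 2 + 4 * c ^ 2 + 4 * d ^ 2 := by
  nlinarith [sq_nonneg (a - b), sq_nonneg (a - c), sq_nonneg (a - d),
    sq_nonneg (b - c), sq_nonneg (b - d), sq_nonneg (c - d)]

lemma fd_le (ψ : ℝ → ℝ) {X M : ℕ} {S : ℝ} (hS : 0 ≤ S) (γ : Fin k ⊕ Fin k → ℝ) :
    ‖∫ t in (0:ℝ)..S, fd γ t‖ ≤ ‖A1 X S γ‖ + ‖OD X S γ‖ + S * ‖SN X γ - SP ψ M γ‖ +
      S * ‖SP ψ M γ - zr γ‖ := by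
  set I2 : ℂ := ∫ t in (0:ℝ)..S, ∏ j : Fin k, PN X (t + γ (Sum.inl j)) *
      (starRingEnd ℂ) (PN X (t + γ (Sum.inr j))) with hI2
  have e1 : (∫ t in (0:ℝ)..S, Zg γ t) = A1 X S γ + I2 := by
    unfold A1
    simp only [Zg_fz]
    ring
  have e0 : OD X S γ = I2 - S * SN X γ := rfl
  have e3 : (∫ t in (0:ℝ)..S, fd γ t) = (∫ t in (0:ℝ)..S, Zg γ t) - S * zr γ := by
    unfold fd
    rw [intervalIntegral.integral_sub ((Zg_cont γ).intervalIntegrable _ _)
      (continuous_const.intervalIntegrable _ _), intervalIntegral.integral_const]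
    simp
  have e2 : (∫ t in (0:ℝ)..S, fd γ t) =
      A1 X S γ + OD X S γ + S * (SN X γ - SP ψ M γ) + S * (SP ψ M γ - zr γ) := by
    rw [e3, e1, e0]; ring
  rw [e2]
  have n1 : ∀ w : ℂ, ‖(S:ℂ) * w‖ = S * ‖w‖ := by
    intro w
    rw [norm_mul, Complex.norm_real, Real.norm_of_nonneg hS]
  have n5 := n1 (SN X γ - SP ψ M γ)
  have n6 := n1 (SP ψ M γ - zr γ)
  refine (norm_add_le _ _).trans (add_le_add ?_ n6.le)
  refine (norm_add_le _ _).trans (add_le_add ?_ n5.le)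
  exact norm_add_le _ _

end As

open As

set_option maxHeartbeats 8000000 in
theorem t_MSD (hZ1 : S_Z1Q) (hO : S_OFF) (hC : S_CUT) (hCZ : S_CZ) : S_MSD := by
  intro k ε hε
  obtain ⟨ψ, hψ⟩ := exists_cut
  obtain ⟨C1, T1, hC1, hT1, h1⟩ := hZ1 k
  obtain ⟨C2, hC2, h2⟩ := hO k ε hε
  obtain ⟨A, hA5, C4, T4, hC4, hT4, h4⟩ := hCZ k ψ hψ
  obtain ⟨C3, hC3, h3⟩ := hC k A ψ ε hψ hε
  obtain ⟨Te, hTe⟩ := eventually_atTop.1 (log_ev (5 * C1) (2 * k + 1) hε)
  refine ⟨1 + 5 * C2 + 5 * C3 + 5 * C4 ^ 2 + 1, max 256 (max Te (max T1 T4)),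
    by positivity, (by norm_num : (4:ℝ) ≤ 256).trans (le_max_left _ _), fun T S hT hS0 hST => ?_⟩
  have hT256 : 256 ≤ T := (le_max_left _ _).trans hT
  have hT' := (le_max_right _ _).trans hT
  have hTTe : Te ≤ T := (le_max_left _ _).trans hT'
  have hT'' := (le_max_right _ _).trans hT'
  have hTT1 : T1 ≤ T := (le_max_left _ _).trans hT''
  have hTT4 : T4 ≤ T := (le_max_right _ _).trans hT''
  have hTp : 0 < T := by linarith
  have hTge1 : 1 ≤ T := by linarith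
  have l1 := hTe T hTTe
  have hlog : 0 ≤ Real.log T := Real.log_nonneg hTge1
  -- the parameters
  obtain ⟨X, hX⟩ : ∃ X : ℕ, X = ⌈2 * T⌉₊ := ⟨_, rfl⟩
  have hX1 : 2 * T ≤ X := by rw [hX]; exact Nat.le_ceil _
  have hX2 : (X : ℝ) ≤ 4 * T := by
    have := Nat.ceil_lt_add_one (a := 2 * T) (by linarith)
    rw [hX]; linarith
  have hXn : 1 ≤ X := by
    have : (1:ℝ) ≤ X := by linarith
    exact_mod_cast this
  obtain ⟨M, hM⟩ : ∃ M : ℕ, M = ⌈T ^ A⌉₊ := ⟨_, rfl⟩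
  have hTA1 : 1 ≤ T ^ A := one_le_pow₀ hTge1
  have hM1 : T ^ A ≤ M := by rw [hM]; exact Nat.le_ceil _
  have hM2 : (M : ℝ) ≤ 2 * T ^ A := by
    have := Nat.ceil_lt_add_one (a := T ^ A) (by linarith)
    rw [hM]; linarith
  have hXM : X ^ 4 ≤ M := by
    have c1 : ((X ^ 4 : ℕ) : ℝ) ≤ M := by
      push_cast
      calc (X : ℝ) ^ 4 ≤ (4 * T) ^ 4 := by gcongr
        _ = 256 * T ^ 4 := by ring
        _ ≤ T * T ^ 4 := by gcongr
        _ = T ^ 5 := by ring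
        _ ≤ T ^ A := pow_le_pow_right₀ hTge1 hA5
        _ ≤ M := hM1
    exact_mod_cast c1
  -- the function
  set g1 : (Fin k ⊕ Fin k → ℝ) → ENNReal := fun γ => ENNReal.ofReal (‖A1 X S γ‖ ^ 2) with hg1
  set g2 : (Fin k ⊕ Fin k → ℝ) → ENNReal := fun γ => ENNReal.ofReal (‖OD X S γ‖ ^ 2) with hg2
  set g3 : (Fin k ⊕ Fin k → ℝ) → ENNReal := fun γ => ENNReal.ofReal (‖SN X γ - SP ψ M γ‖ ^ 2) with hg3
  have m1 : Measurable g1 := ((A1_cont X S).norm.pow 2).measurable.ennreal_ofReal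
  have m2 : Measurable g2 := ((OD_cont X S).norm.pow 2).measurable.ennreal_ofReal
  have m3 : Measurable g3 := (((SN_cont X).sub (SP_cont ψ M)).norm.pow 2).measurable.ennreal_ofReal
  set E4 : ℝ := 5 * (S * (C4 * T ^ (-(1 / 2) : ℝ))) ^ 2 with hE4
  refine ⟨fun γ => ENNReal.ofReal 5 * g1 γ + (ENNReal.ofReal 5 * g2 γ +
    (ENNReal.ofReal (5 * S ^ 2) * g3 γ + ENNReal.ofReal E4)), ?_, ?_, ?_⟩
  · exact (m1.const_mul _).add ((m2.const_mul _).add ((m3.const_mul _).add measurable_const))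
  · intro γ hγ
    have hd := fd_le ψ (X := X) (M := M) hS0 γ
    have hcz := h4 T M γ hTT4 hM1 hM2 hγ
    have hb : ‖∫ t in (0:ℝ)..S, fd γ t‖ ^ 2 ≤ 5 * ‖A1 X S γ‖ ^ 2 + (5 * ‖OD X S γ‖ ^ 2 +
        (5 * S ^ 2 * ‖SN X γ - SP ψ M γ‖ ^ 2 + E4)) := by
      have q1 : ‖∫ t in (0:ℝ)..S, fd γ t‖ ^ 2 ≤ (‖A1 X S γ‖ + ‖OD X S γ‖ +
          S * ‖SN X γ - SP ψ M γ‖ + S * (C4 * T ^ (-(1 / 2) : ℝ))) ^ 2 := by
        refine pow_le_pow_left₀ (norm_nonneg _) (hd.trans ?_) 2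
        gcongr
      refine q1.trans ((sq4 _ _ _ _).trans ?_)
      have q3 : 5 * (S * ‖SN X γ - SP ψ M γ‖) ^ 2 = 5 * S ^ 2 * ‖SN X γ - SP ψ M γ‖ ^ 2 := by ring
      have r1 : 0 ≤ ‖A1 X S γ‖ ^ 2 := by positivity
      have r2 : 0 ≤ ‖OD X S γ‖ ^ 2 := by positivity
      have r3 : 0 ≤ (S * ‖SN X γ - SP ψ M γ‖) ^ 2 := by positivity
      have r4 : 0 ≤ (S * (C4 * T ^ (-(1 / 2) : ℝ))) ^ 2 := by positivity
      rw [hE4]
      linarith
    refine (ENNReal.ofReal_le_ofReal hb).trans (le_of_eq ?_)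
    have hE40 : 0 ≤ E4 := by positivity
    rw [ENNReal.ofReal_add (by positivity) (by positivity),
      ENNReal.ofReal_add (by positivity) (by positivity),
      ENNReal.ofReal_add (by positivity) (by positivity),
      ENNReal.ofReal_mul (by norm_num), ENNReal.ofReal_mul (by norm_num),
      ENNReal.ofReal_mul (by positivity)]
  · rw [lintegral_add_left (m1.const_mul _), lintegral_add_left (m2.const_mul _),
      lintegral_add_left (m3.const_mul _),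
      lintegral_const_mul _ m1, lintegral_const_mul _ m2, lintegral_const_mul _ m3,
      lintegral_const, mP_univ _ hTp.le]
    have hcard : Fintype.card (Fin k ⊕ Fin k) = 2 * k := by
      rw [Fintype.card_sum, Fintype.card_fin]; ring
    rw [hcard]
    have hTk : 0 < T ^ (2 * k) := by positivity
    have hTe0 : 1 ≤ T ^ ε := Real.one_le_rpow hTge1 hε.le
    set W : ℝ := S * T ^ (2 * k) * T ^ ε with hW
    have hW0 : 0 ≤ W := by positivity
    -- the five bounds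
    have b1 : ENNReal.ofReal 5 * ∫⁻ γ, g1 γ ∂(mP (Fin k ⊕ Fin k) T) ≤ ENNReal.ofReal (1 * W) := by
      calc _ ≤ ENNReal.ofReal 5 * ENNReal.ofReal (C1 * Real.log T ^ (2 * k + 1) * T ^ (2 * k) * S) := by
            gcongr
            exact h1 T S X hTT1 hS0 hST hX1 hX2
        _ = ENNReal.ofReal (5 * (C1 * Real.log T ^ (2 * k + 1) * T ^ (2 * k) * S)) := by
            rw [← ENNReal.ofReal_mul (by norm_num)]
        _ ≤ _ := by
            refine ENNReal.ofReal_le_ofReal ?_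
            calc 5 * (C1 * Real.log T ^ (2 * k + 1) * T ^ (2 * k) * S) =
                (5 * C1 * Real.log T ^ (2 * k + 1)) * (T ^ (2 * k) * S) := by ring
              _ ≤ T ^ ε * (T ^ (2 * k) * S) := by gcongr
              _ = _ := by rw [hW]; ring
    have b2 : ENNReal.ofReal 5 * ∫⁻ γ, g2 γ ∂(mP (Fin k ⊕ Fin k) T) ≤ ENNReal.ofReal (5 * C2 * W) := by
      calc _ ≤ ENNReal.ofReal 5 * ENNReal.ofReal (C2 * S * T ^ (2 * k) * T ^ ε) := by
            gcongr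
            exact h2 T S X (by linarith) hS0 hST hXn hX2
        _ = _ := by
            rw [← ENNReal.ofReal_mul (by norm_num)]
            congr 1
            rw [hW]; ring
    have b3 : ENNReal.ofReal (5 * S ^ 2) * ∫⁻ γ, g3 γ ∂(mP (Fin k ⊕ Fin k) T) ≤
        ENNReal.ofReal (5 * C3 * W) := by
      calc _ ≤ ENNReal.ofReal (5 * S ^ 2) * ENNReal.ofReal (C3 * T ^ (2 * k) * T ^ (ε - 1)) := by
            gcongr
            exact h3 T X M (by linarith) hX1 hX2 hXM hM2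
        _ = ENNReal.ofReal (5 * S ^ 2 * (C3 * T ^ (2 * k) * T ^ (ε - 1))) := by
            rw [← ENNReal.ofReal_mul (by positivity)]
        _ ≤ _ := by
            refine ENNReal.ofReal_le_ofReal ?_
            have e : T ^ ε = T * T ^ (ε - 1) := by
              rw [Real.rpow_sub_one hTp.ne']
              field_simp
            rw [hW, e]
            have hp : 0 ≤ T ^ (ε - 1) := by positivity
            calc 5 * S ^ 2 * (C3 * T ^ (2 * k) * T ^ (ε - 1)) =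
                5 * C3 * (S * T ^ (2 * k) * (S * T ^ (ε - 1))) := by ring
              _ ≤ 5 * C3 * (S * T ^ (2 * k) * (T * T ^ (ε - 1))) := by gcongr
    have b4 : ENNReal.ofReal E4 * ENNReal.ofReal (T ^ (2 * k)) ≤ ENNReal.ofReal (5 * C4 ^ 2 * W) := by
      rw [← ENNReal.ofReal_mul (by positivity)]
      refine ENNReal.ofReal_le_ofReal ?_
      have e : (T ^ (-(1 / 2) : ℝ)) ^ 2 = T⁻¹ := by
        rw [← Real.rpow_natCast, ← Real.rpow_mul hTp.le, ← Real.rpow_neg_one]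
        norm_num
      rw [hE4, mul_pow, mul_pow, e]
      have hST1 : S * T⁻¹ ≤ 1 := by
        rw [← div_eq_mul_inv, div_le_one hTp]
        exact hST
      calc 5 * (S ^ 2 * (C4 ^ 2 * T⁻¹)) * T ^ (2 * k) =
          5 * C4 ^ 2 * (S * T ^ (2 * k) * (S * T⁻¹)) := by ring
        _ ≤ 5 * C4 ^ 2 * (S * T ^ (2 * k) * 1) := by gcongr
        _ ≤ 5 * C4 ^ 2 * (S * T ^ (2 * k) * T ^ ε) := by gcongr
        _ = _ := by rw [hW]
    calc _ ≤ ENNReal.ofReal (1 * W) + (ENNReal.ofReal (5 * C2 * W) + (ENNReal.ofReal (5 * C3 * W) +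
          ENNReal.ofReal (5 * C4 ^ 2 * W))) := by
          gcongr
      _ = ENNReal.ofReal (1 * W + (5 * C2 * W + (5 * C3 * W + 5 * C4 ^ 2 * W))) := by
          rw [ENNReal.ofReal_add (by positivity) (by positivity),
            ENNReal.ofReal_add (by positivity) (by positivity),
            ENNReal.ofReal_add (by positivity) (by positivity)]
      _ ≤ _ := by
          refine ENNReal.ofReal_le_ofReal ?_
          have e9 : (1 + 5 * C2 + 5 * C3 + 5 * C4 ^ 2 + 1) * S * T ^ (2 * k) * T ^ ε =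
              (1 * W + (5 * C2 * W + (5 * C3 * W + 5 * C4 ^ 2 * W))) + W := by
            rw [hW]
            ring
          rw [e9]
          linarith

theorem t_FID (hRM : S_RM) (hMSI : S_MID) (hNS : S_NS2) : S_FID := by
  intro k ε hε
  obtain ⟨CR, hCR, hR⟩ := hRM
  obtain ⟨C, T₀, hC, hT₀, hM⟩ := hMSI k ε hε
  have ev1 := log_ev (16 * CR * C) 2 (half_pos hε)
  have ev2 := log_ev (32 * (k:ℝ) ^ 2) 0 (θ := 1 / 4) (by norm_num)
  obtain ⟨Te, hTe⟩ := eventually_atTop.1 (ev1.and ev2)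
  set δ : ℝ := min (ε / 2) (1 / 4) with hδ
  have hδ0 : 0 < δ := lt_min (half_pos hε) (by norm_num)
  have hδ1 : δ ≤ ε / 2 := min_le_left _ _
  have hδ2 : δ ≤ 1 / 4 := min_le_right _ _
  refine ⟨δ, max 4 (max Te T₀), hδ0, fun T hT => ?_⟩
  have hT4 : 4 ≤ T := (le_max_left _ _).trans hT
  have hT' := (le_max_right _ _).trans hT
  obtain ⟨l1, l2⟩ := hTe T ((le_max_left _ _).trans hT')
  obtain ⟨a1, a2⟩ := hM T ((le_max_right _ _).trans hT')
  have hTp : 0 < T := by linarith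
  have hT1 : 1 ≤ T := by linarith
  have hlog : 0 ≤ Real.log T := Real.log_nonneg hT1
  have hlam : 0 < T ^ (1 / 2 + ε) := by positivity
  have key := hR (Fin k ⊕ Fin k → ℝ) (mP (Fin k ⊕ Fin k) T) (Sep2 k T) fd T
    (C * T ^ (2 * k) * T ^ ε) (C * T ^ (2 * k) * T ^ ε) hT1 (by positivity) (by positivity)
    fd_cont a1 a2 (T ^ (1 / 2 + ε)) hlam
  have hns := hNS k T hT1
  have hsub : BadD k T (T ^ (1 / 2 + ε)) ⊆ (Sep2 k T)ᶜ ∪ (Sep2 k T ∩
      {x | ∃ S : ℝ, 0 ≤ S ∧ S ≤ T ∧ T ^ (1 / 2 + ε) < ‖∫ t in (0:ℝ)..S, fd x t‖}) := by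
    intro γ hγ
    by_cases h : γ ∈ Sep2 k T
    · right
      exact ⟨h, hγ.2⟩
    · left
      exact h
  refine (measure_mono hsub).trans ((measure_union_le _ _).trans ((add_le_add hns key).trans ?_))
  have e2 : T ^ (2 * k - δ : ℝ) = T ^ (2 * k) * T ^ (-δ) := by
    rw [sub_eq_add_neg, Real.rpow_add hTp]
    congr 1
    rw [← Real.rpow_natCast]; push_cast; rfl
  have e3 : T ^ (2 * k - 1 / 2 : ℝ) = T ^ (2 * k) * T ^ (-(1 / 2) : ℝ) := by
    rw [sub_eq_add_neg, Real.rpow_add hTp]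
    congr 1
    rw [← Real.rpow_natCast]; push_cast; rfl
  have b1 : 16 * (k:ℝ) ^ 2 * T ^ (2 * k - 1 / 2 : ℝ) ≤ T ^ (2 * k - δ : ℝ) / 2 := by
    rw [e2, e3]
    have c1 : T ^ (-(1 / 2) : ℝ) = T ^ (-(1 / 4) : ℝ) * T ^ (-(1 / 4) : ℝ) := by
      rw [← Real.rpow_add hTp]; norm_num
    have c2 : T ^ (-(1 / 4) : ℝ) * T ^ (1 / 4 : ℝ) = 1 := by
      rw [← Real.rpow_add hTp]; norm_num
    have c3 : T ^ (-(1 / 4) : ℝ) ≤ T ^ (-δ) := Real.rpow_le_rpow_of_exponent_le hT1 (by linarith)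
    rw [pow_zero, mul_one] at l2
    have hq : 0 < T ^ (-(1 / 4) : ℝ) := by positivity
    calc 16 * (k:ℝ) ^ 2 * (T ^ (2 * k) * T ^ (-(1 / 2) : ℝ)) =
        (32 * (k:ℝ) ^ 2) * (T ^ (2 * k) * (T ^ (-(1 / 4) : ℝ) * T ^ (-(1 / 4) : ℝ))) / 2 := by
          rw [c1]; ring
      _ ≤ T ^ (1 / 4 : ℝ) * (T ^ (2 * k) * (T ^ (-(1 / 4) : ℝ) * T ^ (-(1 / 4) : ℝ))) / 2 := by
          gcongr
      _ = T ^ (2 * k) * T ^ (-(1 / 4) : ℝ) * (T ^ (-(1 / 4) : ℝ) * T ^ (1 / 4 : ℝ)) / 2 := by ring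
      _ = T ^ (2 * k) * T ^ (-(1 / 4) : ℝ) / 2 := by rw [c2, mul_one]
      _ ≤ T ^ (2 * k) * T ^ (-δ) / 2 := by gcongr
  have b2 : CR * Real.log (T + 2) ^ 2 * (C * T ^ (2 * k) * T ^ ε + C * T ^ (2 * k) * T ^ ε) * T /
      (T ^ (1 / 2 + ε)) ^ 2 ≤ T ^ (2 * k - δ : ℝ) / 2 := by
    have c0 : Real.log (T + 2) ≤ 2 * Real.log T := by
      have : 2 * Real.log T = Real.log (T ^ 2) := by rw [Real.log_pow]; push_cast; ring
      rw [this]
      exact Real.log_le_log (by linarith) (by nlinarith)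
    have c00 : 0 ≤ Real.log (T + 2) := Real.log_nonneg (by linarith)
    have c1 : (T ^ (1 / 2 + ε)) ^ 2 = T * (T ^ ε * T ^ ε) := by
      rw [← Real.rpow_natCast, ← Real.rpow_mul hTp.le, ← Real.rpow_add hTp]
      nth_rewrite 2 [← Real.rpow_one T]
      rw [← Real.rpow_add hTp]
      congr 1
      push_cast; ring
    have c2 : T ^ ε = T ^ (ε / 2) * T ^ (ε / 2) := by
      rw [← Real.rpow_add hTp]; congr 1; ring
    have c3 : T ^ (-δ) ≥ T ^ (-(ε / 2)) := Real.rpow_le_rpow_of_exponent_le hT1 (by linarith)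
    have c4 : T ^ (-(ε / 2)) = (T ^ (ε / 2))⁻¹ := Real.rpow_neg hTp.le _
    have hp : 0 < T ^ (ε / 2) := by positivity
    have hpe : 0 < T ^ ε := by positivity
    rw [c1, e2]
    calc CR * Real.log (T + 2) ^ 2 * (C * T ^ (2 * k) * T ^ ε + C * T ^ (2 * k) * T ^ ε) * T /
          (T * (T ^ ε * T ^ ε)) ≤
        CR * (2 * Real.log T) ^ 2 * (C * T ^ (2 * k) * T ^ ε + C * T ^ (2 * k) * T ^ ε) * T /
          (T * (T ^ ε * T ^ ε)) := by gcongr
      _ = (16 * CR * C * Real.log T ^ 2) * (T ^ (2 * k) / T ^ ε) / 2 := by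
          field_simp
          ring
      _ ≤ T ^ (ε / 2) * (T ^ (2 * k) / T ^ ε) / 2 := by gcongr
      _ = T ^ (2 * k) * (T ^ (ε / 2))⁻¹ / 2 := by
          rw [c2]
          field_simp
      _ ≤ T ^ (2 * k) * T ^ (-δ) / 2 := by
          rw [← c4]
          gcongr
  calc _ ≤ ENNReal.ofReal (T ^ (2 * k - δ : ℝ) / 2) + ENNReal.ofReal (T ^ (2 * k - δ : ℝ) / 2) := by
        gcongr
    _ = _ := by
        rw [← ENNReal.ofReal_add (by positivity) (by positivity)]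
        congr 1
        ring

end

end Pool.Agent.N879.SQ
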