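import Pool.Agent.N879.SQ.Stm
import Pool.Agent.TH767.GS.NS

/-!
# Project SQ: translation (TRN) and separated shift vectors (NS2)
-/

set_option autoImplicit false

namespace Pool.Agent.N879.SQ

open Complex Filter Topology MeasureTheory Set
open Pool.Agent.TH612.CF Pool.Agent.TH612.GS Pool.Agent.TH757.GS
open Pool.Agent.W182.KO

noncomputable section

namespace Trnaux

variable {k : ℕ}

lemma lt_shift (a b : Fin k → ℂ) (c : ℂ) {p : ℕ} (hp : p ≠ 0) (m : ℕ) :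
    Pool.Agent.TH612.CF.lt (fun j => a j + c) (fun j => b j + c) p m =
      Pool.Agent.TH612.CF.lt a b p m := by
  unfold Pool.Agent.TH612.CF.lt
  have hn : ((p ^ m : ℕ) : ℂ) ≠ 0 := by exact_mod_cast pow_ne_zero m hp
  have e1 : (fun j => I * (b j + c)) = fun j => I * b j + I * c := by
    funext j; ring
  have e2 : (fun j => -(I * (a j + c))) = fun j => -(I * a j) + -(I * c) := by
    funext j; ring
  rw [e1, e2, tau_shift, tau_shift]
  have e3 : ((p ^ m : ℕ) : ℂ) ^ (I * c) * ((p ^ m : ℕ) : ℂ) ^ (-(I * c)) = 1 := by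
    rw [← Complex.cpow_add _ _ hn, add_neg_cancel, Complex.cpow_zero]
  linear_combination (tau (fun j => I * b j) (p ^ m) * tau (fun j => -(I * a j)) (p ^ m) *
    ((p : ℂ) ^ m)⁻¹) * e3

lemma lh_shift (a b : Fin k → ℂ) (c : ℂ) {p : ℕ} (hp : p ≠ 0) :
    lh (fun j => a j + c) (fun j => b j + c) p = lh a b p := by
  unfold lh
  have e : ∀ j l : Fin k, (1 : ℂ) + I * (a j + c) - I * (b l + c) = 1 + I * a j - I * b l := by
    intro j l; ring
  simp only [lt_shift a b c hp, e]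

lemma zab_shift (a b : Fin k → ℂ) (c : ℂ) :
    zab (fun j => a j + c) (fun j => b j + c) = zab a b := by
  unfold zab FH
  have e : ∀ j l : Fin k, (1 : ℂ) + I * (a j + c) - I * (b l + c) = 1 + I * a j - I * b l := by
    intro j l; ring
  have e2 : ∀ p : Nat.Primes, lh (fun j => a j + c) (fun j => b j + c) p = lh a b p := fun p =>
    lh_shift a b c p.2.ne_zero
  simp only [e, e2]

lemma GG_shift (t a : ℝ) (γ : Fin k ⊕ Fin k → ℝ) (π : Equiv.Perm (Fin k ⊕ Fin k)) :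
    GG t (fun i => (γ i : ℂ) + (a : ℂ)) π = GG (t + a) (fun i => (γ i : ℂ)) π := by
  unfold GG
  have e1 : ∀ x : ℂ, 1 / 2 - I * (t : ℂ) - I * (x + (a : ℂ)) = 1 / 2 - I * ((t + a : ℝ) : ℂ) - I * x := by
    intro x; push_cast; ring
  have e2 : ∀ x : ℂ, 1 / 2 + I * (t : ℂ) + I * (x + (a : ℂ)) = 1 / 2 + I * ((t + a : ℝ) : ℂ) + I * x := by
    intro x; push_cast; ring
  simp only [e1, e2]

lemma Qs_shift (t a : ℝ) (γ : Fin k ⊕ Fin k → ℝ) :
    Qs t (fun i => (γ i : ℂ) + (a : ℂ)) = Qs (t + a) (fun i => (γ i : ℂ)) := by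
  unfold Qs
  refine Finset.sum_congr rfl fun π _ => ?_
  unfold Rt
  rw [GG_shift, zab_shift (fun j => (γ (π (Sum.inl j)) : ℂ)) (fun j => (γ (π (Sum.inr j)) : ℂ)) (a : ℂ)]

end Trnaux

open Trnaux

theorem t_TRN : S_TRN := by
  intro k γ a t
  unfold ff
  have e1 : Zg (sh γ a) t = Zg γ (t + a) := by
    unfold Zg sh
    refine Finset.prod_congr rfl fun j _ => ?_
    have h1 : (1 : ℂ) / 2 + I * (t + ((γ (Sum.inl j) + a : ℝ) : ℂ)) =
        1 / 2 + I * (((t + a : ℝ) : ℂ) + γ (Sum.inl j)) := by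
      push_cast; ring
    have h2 : (1 : ℂ) / 2 - I * (t + ((γ (Sum.inr j) + a : ℝ) : ℂ)) =
        1 / 2 - I * (((t + a : ℝ) : ℂ) + γ (Sum.inr j)) := by
      push_cast; ring
    rw [h1, h2]
  have e2 : (fun i => ((sh γ a i : ℝ) : ℂ)) = fun i => (γ i : ℂ) + (a : ℂ) := by
    funext i
    unfold sh
    push_cast
    ring
  rw [e1, e2, Qs_shift]

theorem t_NS2 : S_NS2 := by
  intro k T hT
  set ι := Fin k ⊕ Fin k with hι
  have hT0 : (0 : ℝ) < T := by linarith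
  set r : ℝ := (2 * T) ^ (1 / 2 : ℝ) with hr
  have hr0 : 0 ≤ r := by positivity
  have hr2 : r ≤ 2 * T ^ (1 / 2 : ℝ) := by
    rw [hr, Real.mul_rpow (by norm_num) hT0.le]
    refine mul_le_mul_of_nonneg_right ?_ (by positivity)
    have := Real.rpow_le_rpow_of_exponent_le (show (1 : ℝ) ≤ 2 by norm_num)
      (show (1 / 2 : ℝ) ≤ 1 by norm_num)
    rwa [Real.rpow_one] at this
  have hsub : (Sep2 k T)ᶜ ⊆ (⋃ i : ι, Function.eval i ⁻¹' (Icc 0 T)ᶜ) ∪
      ⋃ i : ι × ι, {γ : ι → ℝ | i.1 ≠ i.2 ∧ |γ i.1 - γ i.2| < r} := by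
    intro γ hγ
    by_cases h : ∀ i, 0 ≤ γ i ∧ γ i ≤ T
    · right
      have h2 : ¬ ∀ p q, p ≠ q → (2 * T) ^ (1 / 2 : ℝ) ≤ |γ p - γ q| := fun h2 => hγ ⟨h, h2⟩
      push Not at h2
      obtain ⟨p, q, hpq, h3⟩ := h2
      exact Set.mem_iUnion.2 ⟨(p, q), hpq, h3⟩
    · left
      rw [not_forall] at h
      obtain ⟨i, hi⟩ := h
      exact Set.mem_iUnion.2 ⟨i, hi⟩
  have hnull : mP ι T (⋃ i : ι, Function.eval i ⁻¹' (Icc 0 T)ᶜ) = 0 := by
    rw [measure_iUnion_null_iff]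
    intro i
    apply Measure.pi_eval_preimage_null
    rw [Measure.restrict_apply measurableSet_Icc.compl]
    simp
  have hcard : Fintype.card ι = 2 * k := by
    have h6 : Fintype.card (Fin k ⊕ Fin k) = 2 * k := by
      rw [Fintype.card_sum, Fintype.card_fin]
      ring
    exact h6
  have hpair : ∀ i : ι × ι, mP ι T {γ : ι → ℝ | i.1 ≠ i.2 ∧ |γ i.1 - γ i.2| < r} ≤
      ENNReal.ofReal (4 * T ^ (2 * k - 1 / 2 : ℝ)) := by
    rintro ⟨p, q⟩
    by_cases hpq : p = q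
    · have : {γ : ι → ℝ | (p, q).1 ≠ (p, q).2 ∧ |γ (p, q).1 - γ (p, q).2| < r} = ∅ := by
        ext γ
        simp [hpq]
      rw [this, measure_empty]
      exact zero_le
    · have h4 : {γ : ι → ℝ | (p, q).1 ≠ (p, q).2 ∧ |γ (p, q).1 - γ (p, q).2| < r} ⊆
          {γ : ι → ℝ | |γ p - γ q| < r} := fun γ hγ => hγ.2
      refine (measure_mono h4).trans ?_
      classical
      refine (Pool.Agent.TH767.GS.pair_le T r p q hpq).trans ?_
      rw [hcard, ← ENNReal.ofReal_pow hT0.le, ← ENNReal.ofReal_mul (by positivity)]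
      apply ENNReal.ofReal_le_ofReal
      have hk : 1 ≤ k := by
        rcases Nat.eq_zero_or_pos k with h | h
        · subst h
          rcases p with p | p <;> exact p.elim0
        · exact h
      have h5 : T ^ (2 * k - 1 / 2 : ℝ) = T ^ (1 / 2 : ℝ) * T ^ (2 * k - 1 : ℕ) := by
        rw [← Real.rpow_natCast, ← Real.rpow_add hT0]
        congr 1
        rw [Nat.cast_sub (by omega)]
        push_cast
        ring
      rw [h5]
      calc 2 * r * T ^ (2 * k - 1 : ℕ) ≤ 2 * (2 * T ^ (1 / 2 : ℝ)) * T ^ (2 * k - 1 : ℕ) := by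
            gcongr
        _ = 4 * (T ^ (1 / 2 : ℝ) * T ^ (2 * k - 1 : ℕ)) := by ring
  calc mP ι T (Sep2 k T)ᶜ ≤ mP ι T ((⋃ i : ι, Function.eval i ⁻¹' (Icc 0 T)ᶜ) ∪
      ⋃ i : ι × ι, {γ : ι → ℝ | i.1 ≠ i.2 ∧ |γ i.1 - γ i.2| < r}) := measure_mono hsub
    _ ≤ mP ι T (⋃ i : ι, Function.eval i ⁻¹' (Icc 0 T)ᶜ) +
      mP ι T (⋃ i : ι × ι, {γ : ι → ℝ | i.1 ≠ i.2 ∧ |γ i.1 - γ i.2| < r}) := measure_union_le _ _
    _ ≤ 0 + ∑ i : ι × ι, mP ι T {γ : ι → ℝ | i.1 ≠ i.2 ∧ |γ i.1 - γ i.2| < r} := by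
        rw [hnull]
        gcongr
        exact measure_iUnion_fintype_le _ _
    _ ≤ ∑ _i : ι × ι, ENNReal.ofReal (4 * T ^ (2 * k - 1 / 2 : ℝ)) := by
        rw [zero_add]
        exact Finset.sum_le_sum fun i _ => hpair i
    _ = ENNReal.ofReal (16 * k ^ 2 * T ^ (2 * k - 1 / 2 : ℝ)) := by
        rw [Finset.sum_const, Finset.card_univ, Fintype.card_prod, hcard, nsmul_eq_mul,
          ← ENNReal.ofReal_natCast, ← ENNReal.ofReal_mul (by positivity)]
        congr 1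
        push_cast
        ring

end

end Pool.Agent.N879.SQ
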