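import Pool.Agent.N879.SQ.Stm1
import Pool.Agent.N879.SQ.Trn

set_option autoImplicit false

/-! Project SQ: translation, for the version with the diagonal term only. -/

namespace Pool.Agent.N879.SQ

open Complex Filter Topology MeasureTheory Set
open Pool.Agent.TH612.CF Pool.Agent.TH612.GS Pool.Agent.TH757.GS

noncomputable section

theorem t_TRD : S_TRD := by
  intro k γ a t
  unfold fd
  congr 1
  · unfold Zg sh
    refine Finset.prod_congr rfl fun j _ => ?_
    push_cast
    congr 2 <;> ring
  · unfold zr sh
    have h := Trnaux.zab_shift (fun j => (γ (Sum.inl j) : ℂ)) (fun j => (γ (Sum.inr j) : ℂ)) (a : ℂ)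
    rw [← h]
    congr 1 <;> funext j <;> push_cast <;> rfl

end

end Pool.Agent.N879.SQ
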