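import Pool.Agent.N879.SQ.Stm1
import Pool.Agent.TH612.GS.Asm6

set_option autoImplicit false

/-! Project SQ: one window. -/

namespace Pool.Agent.N879.SQ

open Complex Filter Topology MeasureTheory Set
open Pool.Agent.TH612.CF Pool.Agent.TH612.GS Pool.Agent.TH757.GS

noncomputable section

namespace As

/-- one window, from the mean square -/
lemma win (hNS : S_NS2) (k : ℕ) (ε : ℝ) (hε : 0 < ε) (f : (Fin k ⊕ Fin k → ℝ) → ℝ → ℂ) {C T₀ : ℝ}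
    (hC : 0 < C) (hT₀ : 4 ≤ T₀)
    (hM : ∀ (T : ℝ), T₀ ≤ T → ∀ a b : ℝ, 0 ≤ a → a ≤ b → b ≤ T →
      ∃ G : (Fin k ⊕ Fin k → ℝ) → ENNReal, Measurable G ∧
      (∀ γ ∈ Sep2 k T, ENNReal.ofReal (‖∫ t in a..b, f γ t‖ ^ 2) ≤ G γ) ∧
      ∫⁻ γ, G γ ∂(mP (Fin k ⊕ Fin k) T) ≤ ENNReal.ofReal (C * T ^ (2 * k) * T ^ ε * (b - a))) :
    ∃ δ T₁ : ℝ, 0 < δ ∧ ∀ T : ℝ, T₁ ≤ T → ∀ a b : ℝ, 0 ≤ a → a ≤ b → b ≤ T →
      mP (Fin k ⊕ Fin k) T {γ | (∀ i, 0 ≤ γ i ∧ γ i ≤ T) ∧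
        (b - a) ^ (1 / 2 : ℝ) * T ^ ε < ‖∫ t in a..b, f γ t‖} ≤
      ENNReal.ofReal (T ^ (2 * k - δ : ℝ)) := by
  have ev1 := log_ev (2 * C) 0 (half_pos hε)
  have ev2 := log_ev (32 * (k:ℝ) ^ 2) 0 (θ := 1 / 4) (by norm_num)
  obtain ⟨Te, hTe⟩ := eventually_atTop.1 (ev1.and ev2)
  set δ : ℝ := min (ε / 2) (1 / 4) with hδ
  have hδ0 : 0 < δ := lt_min (half_pos hε) (by norm_num)
  have hδ1 : δ ≤ ε / 2 := min_le_left _ _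
  have hδ2 : δ ≤ 1 / 4 := min_le_right _ _
  refine ⟨δ, max Te T₀, hδ0, fun T hT a b ha hab hb => ?_⟩
  have hTT0 : T₀ ≤ T := (le_max_right _ _).trans hT
  obtain ⟨l1, l2⟩ := hTe T ((le_max_left _ _).trans hT)
  have hT4 : 4 ≤ T := hT₀.trans hTT0
  have hTp : 0 < T := by linarith
  have hT1 : 1 ≤ T := by linarith
  rw [pow_zero, mul_one] at l1 l2
  rcases hab.eq_or_lt with hab' | hab'
  · have e : {γ : Fin k ⊕ Fin k → ℝ | (∀ i, 0 ≤ γ i ∧ γ i ≤ T) ∧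
        (b - a) ^ (1 / 2 : ℝ) * T ^ ε < ‖∫ t in a..b, f γ t‖} = ∅ := by
      ext γ
      simp only [mem_ofPred_eq, mem_empty_iff_false, iff_false, not_and, not_lt]
      intro _
      rw [hab', intervalIntegral.integral_same, norm_zero, sub_self]
      exact mul_nonneg (Real.rpow_nonneg le_rfl _) (by positivity)
    rw [e, measure_empty]
    exact bot_le
  obtain ⟨G, hG, hG1, hG2⟩ := hM T hTT0 a b ha hab hb
  have hba : 0 < b - a := by linarith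
  set lam : ℝ := (b - a) ^ (1 / 2 : ℝ) * T ^ ε with hlam
  have hlam0 : 0 < lam := by positivity
  have hsub : {γ : Fin k ⊕ Fin k → ℝ | (∀ i, 0 ≤ γ i ∧ γ i ≤ T) ∧ lam < ‖∫ t in a..b, f γ t‖} ⊆
      (Sep2 k T)ᶜ ∪ {γ | ENNReal.ofReal (lam ^ 2) ≤ G γ} := by
    intro γ hγ
    by_cases h : γ ∈ Sep2 k T
    · right
      refine le_trans ?_ (hG1 γ h)
      exact ENNReal.ofReal_le_ofReal (pow_le_pow_left₀ hlam0.le hγ.2.le 2)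
    · left
      exact h
  have hmk := meas_ge_le_lintegral_div hG.aemeasurable (ε := ENNReal.ofReal (lam ^ 2))
    (μ := mP (Fin k ⊕ Fin k) T)
    (by rw [Ne, ENNReal.ofReal_eq_zero, not_le]; positivity) ENNReal.ofReal_ne_top
  have hmk2 : mP (Fin k ⊕ Fin k) T {γ | ENNReal.ofReal (lam ^ 2) ≤ G γ} ≤
      ENNReal.ofReal (C * T ^ (2 * k) * T ^ ε * (b - a) / lam ^ 2) := by
    refine hmk.trans ?_
    rw [ENNReal.ofReal_div_of_pos (by positivity)]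
    exact ENNReal.div_le_div_right hG2 _
  refine (measure_mono hsub).trans ((measure_union_le _ _).trans
    ((add_le_add (hNS k T hT1) hmk2).trans ?_))
  have e2 : T ^ (2 * k - δ : ℝ) = T ^ (2 * k) * T ^ (-δ) := by
    rw [sub_eq_add_neg, Real.rpow_add hTp]
    congr 1
    rw [← Real.rpow_natCast]; push_cast; rfl
  have e3 : T ^ (2 * k - 1 / 2 : ℝ) = T ^ (2 * k) * T ^ (-(1 / 2) : ℝ) := by
    rw [sub_eq_add_neg, Real.rpow_add hTp]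
    congr 1
    rw [← Real.rpow_natCast]; push_cast; rfl
  have b1 : 16 * (k:ℝ) ^ 2 * T ^ (2 * k - 1 / 2 : ℝ) ≤ T ^ (2 * k - δ : ℝ) / 2 := by
    rw [e2, e3]
    have c1 : T ^ (-(1 / 2) : ℝ) = T ^ (-(1 / 4) : ℝ) * T ^ (-(1 / 4) : ℝ) := by
      rw [← Real.rpow_add hTp]; norm_num
    have c2 : T ^ (-(1 / 4) : ℝ) * T ^ (1 / 4 : ℝ) = 1 := by
      rw [← Real.rpow_add hTp]; norm_num
    have c3 : T ^ (-(1 / 4) : ℝ) ≤ T ^ (-δ) := Real.rpow_le_rpow_of_exponent_le hT1 (by linarith)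
    have hq : 0 < T ^ (-(1 / 4) : ℝ) := by positivity
    calc 16 * (k:ℝ) ^ 2 * (T ^ (2 * k) * T ^ (-(1 / 2) : ℝ)) =
        (32 * (k:ℝ) ^ 2) * (T ^ (2 * k) * (T ^ (-(1 / 4) : ℝ) * T ^ (-(1 / 4) : ℝ))) / 2 := by
          rw [c1]; ring
      _ ≤ T ^ (1 / 4 : ℝ) * (T ^ (2 * k) * (T ^ (-(1 / 4) : ℝ) * T ^ (-(1 / 4) : ℝ))) / 2 := by
          gcongr
      _ = T ^ (2 * k) * T ^ (-(1 / 4) : ℝ) * (T ^ (-(1 / 4) : ℝ) * T ^ (1 / 4 : ℝ)) / 2 := by ring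
      _ = T ^ (2 * k) * T ^ (-(1 / 4) : ℝ) / 2 := by rw [c2, mul_one]
      _ ≤ T ^ (2 * k) * T ^ (-δ) / 2 := by gcongr
  have b2 : C * T ^ (2 * k) * T ^ ε * (b - a) / lam ^ 2 ≤ T ^ (2 * k - δ : ℝ) / 2 := by
    have c0 : ((b - a) ^ (1 / 2 : ℝ)) ^ 2 = b - a := by
      rw [← Real.rpow_natCast, ← Real.rpow_mul hba.le]
      norm_num
    have c1 : lam ^ 2 = (b - a) * (T ^ ε * T ^ ε) := by
      rw [hlam, mul_pow, c0, sq]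
    have c2 : T ^ ε = T ^ (ε / 2) * T ^ (ε / 2) := by
      rw [← Real.rpow_add hTp]; congr 1; ring
    have c3 : T ^ (-(ε / 2)) ≤ T ^ (-δ) := Real.rpow_le_rpow_of_exponent_le hT1 (by linarith)
    have c4 : T ^ (-(ε / 2)) = (T ^ (ε / 2))⁻¹ := Real.rpow_neg hTp.le _
    have hp : 0 < T ^ (ε / 2) := by positivity
    have hpe : 0 < T ^ ε := by positivity
    rw [c1, e2]
    calc C * T ^ (2 * k) * T ^ ε * (b - a) / ((b - a) * (T ^ ε * T ^ ε)) =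
        (2 * C) * (T ^ (2 * k) / T ^ ε) / 2 := by
          field_simp
      _ ≤ T ^ (ε / 2) * (T ^ (2 * k) / T ^ ε) / 2 := by gcongr
      _ = T ^ (2 * k) * (T ^ (ε / 2))⁻¹ / 2 := by
          rw [c2]
          field_simp
      _ ≤ T ^ (2 * k) * T ^ (-δ) / 2 := by
          rw [← c4]
          gcongr
  calc _ ≤ ENNReal.ofReal (T ^ (2 * k - δ : ℝ) / 2) + ENNReal.ofReal (T ^ (2 * k - δ : ℝ) / 2) := by
        gcongr
    _ = _ := by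
        rw [← ENNReal.ofReal_add (by positivity) (by positivity)]
        congr 1
        ring

end As

theorem t_WIN (hMSI : S_MSI) (hNS : S_NS2) (k : ℕ) (ε : ℝ) (hε : 0 < ε) :
    ∃ δ T₁ : ℝ, 0 < δ ∧ ∀ T : ℝ, T₁ ≤ T → ∀ a b : ℝ, 0 ≤ a → a ≤ b → b ≤ T →
      mP (Fin k ⊕ Fin k) T {γ | (∀ i, 0 ≤ γ i ∧ γ i ≤ T) ∧
        (b - a) ^ (1 / 2 : ℝ) * T ^ ε < ‖∫ t in a..b, ff γ t‖} ≤
      ENNReal.ofReal (T ^ (2 * k - δ : ℝ)) := by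
  obtain ⟨C, T₀, hC, hT₀, h⟩ := hMSI k ε hε
  exact As.win hNS k ε hε ff hC hT₀ fun T hT => (h T hT).1

theorem t_WID (hMSI : S_MID) (hNS : S_NS2) (k : ℕ) (ε : ℝ) (hε : 0 < ε) :
    ∃ δ T₁ : ℝ, 0 < δ ∧ ∀ T : ℝ, T₁ ≤ T → ∀ a b : ℝ, 0 ≤ a → a ≤ b → b ≤ T →
      mP (Fin k ⊕ Fin k) T {γ | (∀ i, 0 ≤ γ i ∧ γ i ≤ T) ∧
        (b - a) ^ (1 / 2 : ℝ) * T ^ ε < ‖∫ t in a..b, fd γ t‖} ≤
      ENNReal.ofReal (T ^ (2 * k - δ : ℝ)) := by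
  obtain ⟨C, T₀, hC, hT₀, h⟩ := hMSI k ε hε
  exact As.win hNS k ε hε fd hC hT₀ fun T hT => (h T hT).1

end

end Pool.Agent.N879.SQ
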