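import Pool.Agent.N879.SQ.Stm
import Pool.Agent.TH406.GS.CHI
import Pool.Agent.TH805.GS.SW

set_option autoImplicit false

/-! Project SQ (helper879), parts CHI2 and SW2: the factor of the functional equation as a
convolution operator, and the terms with at least one swap, with the length of the interval.
Written by helper286; the proofs follow `Pool.Agent.TH406.GS.main` and `Pool.Agent.TH805.GS.t_SW`. -/

namespace Pool.Agent.N879.SQ

open Complex Filter Topology MeasureTheory Set
open scoped ComplexConjugate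

noncomputable section

namespace Chi2aux

open Pool.Agent.TH406.GS

theorem main2 {X L : ℝ → ℂ} (h : Osc X L) {T S : ℝ} {R : ℝ → ℂ} (hT : 16 ≤ T) (hS0 : 0 ≤ S) (hS : S ≤ T)
    (hR : Continuous R) (hR1 : ∀ t, ‖R t‖ ≤ 1) :
    ∫ y in (0:ℝ)..T, ‖∫ t in (0:ℝ)..S, conj (X (t + y)) * R t‖ ^ 2 ≤
      688 * S * T * Real.log T ^ 2 := by
  have hT0 : 0 ≤ T := by linarith
  have hl := log_ge_one hT
  set μ : Measure ℝ := volume.restrict (Ioc 0 S) with hμ
  set ν : Measure ℝ := volume.restrict (Ioc 0 T) with hν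
  set Φ : ℝ → ℝ → ℂ := fun t y => conj (X (t + y)) * R t with hΦ
  have hX := h.cont
  have hΦc : Continuous (Function.uncurry Φ) := by
    rw [hΦ]
    unfold Function.uncurry
    fun_prop
  have hΦn : ∀ t y, ‖Φ t y‖ ≤ 1 := by
    intro t y
    rw [hΦ]
    simp only
    rw [norm_mul, Complex.norm_conj, h.norm, one_mul]
    exact hR1 t
  -- the square
  have e0 : ((∫ y in (0:ℝ)..T, ‖∫ t in (0:ℝ)..S, conj (X (t + y)) * R t‖ ^ 2 : ℝ) : ℂ) =
      ∫ y, ∫ p : ℝ × ℝ, Φ p.1 y * conj (Φ p.2 y) ∂(μ.prod μ) ∂ν := by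
    rw [intervalIntegral.integral_of_le hT0, ← integral_complex_ofReal]
    refine integral_congr_ae (Eventually.of_forall fun y => ?_)
    simp only
    rw [integral_prod_mul (fun t => Φ t y) (fun s => conj (Φ s y)), integral_conj,
      intervalIntegral.integral_of_le hS0, Complex.mul_conj, Complex.normSq_eq_norm_sq]
  have hint : Integrable (Function.uncurry fun (y : ℝ) (p : ℝ × ℝ) => Φ p.1 y * conj (Φ p.2 y))
      (ν.prod (μ.prod μ)) := by
    have : IsFiniteMeasure μ := ⟨by rw [hμ]; simp⟩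
    have : IsFiniteMeasure ν := ⟨by rw [hν]; simp⟩
    refine Integrable.of_bound (C := 1) ?_ (Eventually.of_forall fun q => ?_)
    · apply Continuous.aestronglyMeasurable
      rw [hΦ]
      unfold Function.uncurry
      fun_prop
    · simp only [Function.uncurry]
      rw [norm_mul, Complex.norm_conj]
      exact mul_le_one₀ (hΦn _ _) (norm_nonneg _) (hΦn _ _)
  rw [integral_integral_swap hint] at e0
  have e1 : ∀ p : ℝ × ℝ, ∫ y, Φ p.1 y * conj (Φ p.2 y) ∂ν = R p.1 * conj (R p.2) * KK X T p.1 p.2 := by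
    intro p
    unfold KK
    rw [intervalIntegral.integral_of_le hT0, ← integral_const_mul]
    refine integral_congr_ae (Eventually.of_forall fun y => ?_)
    rw [hΦ]
    simp only [map_mul, Complex.conj_conj]
    ring
  simp_rw [e1] at e0
  have hbc : Continuous fun p : ℝ × ℝ => 172 * T * Real.log T / (1 + |p.1 - p.2|) := by
    refine Continuous.div continuous_const (by fun_prop) fun p => ?_
    have := abs_nonneg (p.1 - p.2)
    positivity
  have : IsFiniteMeasure μ := ⟨by rw [hμ]; simp⟩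
  have hbi : Integrable (fun p : ℝ × ℝ => 172 * T * Real.log T / (1 + |p.1 - p.2|)) (μ.prod μ) := by
    refine Integrable.of_bound (C := 172 * T * Real.log T) hbc.aestronglyMeasurable
      (Eventually.of_forall fun p => ?_)
    have h1 := abs_nonneg (p.1 - p.2)
    rw [Real.norm_of_nonneg (by positivity)]
    exact div_le_self (by positivity) (by linarith)
  have h2 : ‖∫ p : ℝ × ℝ, R p.1 * conj (R p.2) * KK X T p.1 p.2 ∂(μ.prod μ)‖ ≤
      ∫ p : ℝ × ℝ, 172 * T * Real.log T / (1 + |p.1 - p.2|) ∂(μ.prod μ) := by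
    refine norm_integral_le_of_norm_le hbi ?_
    rw [hμ, Measure.prod_restrict]
    filter_upwards [ae_restrict_mem (measurableSet_Ioc.prod measurableSet_Ioc)] with p hp
    obtain ⟨h3, h4⟩ := hp
    rw [norm_mul, norm_mul, Complex.norm_conj]
    calc ‖R p.1‖ * ‖R p.2‖ * ‖KK X T p.1 p.2‖ ≤ 1 * 1 * ‖KK X T p.1 p.2‖ := by
          refine mul_le_mul_of_nonneg_right (mul_le_mul (hR1 _) (hR1 _) (norm_nonneg _) zero_le_one) (norm_nonneg _)
      _ = ‖KK X T p.1 p.2‖ := by ring
      _ ≤ _ := KK_le h hT h3.1.le (h3.2.trans hS) h4.1.le (h4.2.trans hS)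
  rw [← e0, Complex.norm_real] at h2
  refine (Real.le_norm_self _).trans (h2.trans ?_)
  rw [integral_prod _ hbi]
  have h5 : ∀ t ∈ Ioc 0 S, ∫ s, 172 * T * Real.log T / (1 + |t - s|) ∂μ ≤ 172 * T * Real.log T * (4 * Real.log T) := by
    intro t ht
    have h6 := inner_int hT hS ht.1.le ht.2
    rw [intervalIntegral.integral_of_le hS0] at h6
    simp_rw [div_eq_mul_inv]
    rw [integral_const_mul]
    exact mul_le_mul_of_nonneg_left h6 (by positivity)
  calc ∫ t, ∫ s, 172 * T * Real.log T / (1 + |t - s|) ∂μ ∂μ ≤ ∫ t, 172 * T * Real.log T * (4 * Real.log T) ∂μ := by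
        refine integral_mono_ae hbi.integral_prod_left (integrable_const _) ?_
        rw [hμ]
        filter_upwards [ae_restrict_mem measurableSet_Ioc] with t ht
        exact h5 t ht
    _ = S * (172 * T * Real.log T * (4 * Real.log T)) := by
        rw [integral_const, smul_eq_mul, hμ]
        simp [Measure.real, hS0]
    _ = _ := by ring

end Chi2aux

open Pool.Agent.TH612.CF Pool.Agent.TH612.MD in
open Pool.Agent.W182.KO (XX XX_conj) in
theorem t_CHI2 : S_CHI2 := by
  refine ⟨688, 16, by norm_num, by norm_num, fun T S R hT hS0 hS hR hR1 => ?_⟩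
  have e : ∀ t y : ℝ, chi (1 / 2 + I * (t + y)) = conj (XX (1 / 2 + I * ((t + y : ℝ) : ℂ))) := by
    intro t y
    rw [← Pool.Agent.TH406.GS.chi_eq]
    push_cast
    rfl
  simp_rw [e]
  exact Chi2aux.main2 Pool.Agent.TH406.GS.osc hT hS0 hS hR hR1

open Pool.Agent.TH612.CF Pool.Agent.TH612.GS Pool.Agent.TH805.GS in
theorem t_SW2 (hCHI : S_CHI2) : S_SW2 := by
  intro k
  obtain ⟨C, T₀, hC, hT₀, hchi⟩ := hCHI
  refine ⟨C, T₀, hC, hT₀, ?_⟩
  rintro T S π hT hS hST ⟨j₀, hj₀⟩
  have hT0 : 0 < T := by linarith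
  set p : Fin k ⊕ Fin k := π (Sum.inr j₀) with hp
  set F : (Fin k ⊕ Fin k → ℝ) → ENNReal :=
    fun γ => ENNReal.ofReal (‖∫ t in (0:ℝ)..S, GG t (fun i => (γ i : ℂ)) π‖ ^ 2) with hF
  have hFm : Measurable F := by
    have : Continuous F := ENNReal.continuous_ofReal.comp (((cont_int π S).norm).pow 2)
    exact this.measurable
  have hin : ∀ γ : Fin k ⊕ Fin k → ℝ,
      ∫⁻ y, F (Function.update γ p y) ∂(volume.restrict (Icc 0 T)) ≤
        ENNReal.ofReal (C * S * T * Real.log T ^ 2) := by
    intro γ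
    have h1 := hchi T S (fun t => RR j₀ t γ π) hT hS hST (cont_RR j₀ γ π)
      (fun t => norm_RR j₀ t γ π)
    have hc : Continuous fun y : ℝ =>
        ‖∫ t in (0:ℝ)..S, chi (1 / 2 + I * (t + y)) * RR j₀ t γ π‖ ^ 2 := by
      refine Continuous.pow (Continuous.norm ?_) 2
      refine intervalIntegral.continuous_parametric_intervalIntegral_of_continuous'
        (f := fun (y t : ℝ) => chi (1 / 2 + I * ((t : ℂ) + (y : ℂ))) * RR j₀ t γ π) ?_ 0 S
      have h2 : Continuous fun q : ℝ × ℝ => chi (1 / 2 + I * ((q.2 : ℂ) + (q.1 : ℂ))) := by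
        have h := cont_chi.comp (g := fun u : ℝ => chi (1 / 2 + I * (u : ℂ)))
          (f := fun q : ℝ × ℝ => q.2 + q.1) (by fun_prop)
        refine h.congr fun t => ?_
        simp only [Function.comp]
        congr 1
        push_cast
        ring
      exact h2.mul ((cont_RR j₀ γ π).comp continuous_snd)
    have h3 : ∀ y : ℝ, F (Function.update γ p y) =
        ENNReal.ofReal (‖∫ t in (0:ℝ)..S, chi (1 / 2 + I * (t + y)) * RR j₀ t γ π‖ ^ 2) := by
      intro y
      simp only [hF]
      congr 3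
      refine intervalIntegral.integral_congr fun t _ => ?_
      rw [GG_split j₀ t (Function.update γ p y) π hj₀, RR_update, ← hp, Function.update_self]
    simp only [h3]
    rw [← ofReal_integral_eq_lintegral_ofReal]
    · refine ENNReal.ofReal_le_ofReal ?_
      rw [integral_Icc_eq_integral_Ioc, ← intervalIntegral.integral_of_le hT0.le]
      exact h1
    · exact hc.continuousOn.integrableOn_compact isCompact_Icc
    · exact Eventually.of_forall fun y => by positivity
  have hIG : ∀ γ : Fin k ⊕ Fin k → ℝ, ENNReal.ofReal (‖IG S γ π‖ ^ 2) = F γ := fun γ => rfl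
  simp only [hIG]
  change ∫⁻ γ, F γ ∂(Measure.pi fun _ => volume.restrict (Icc 0 T)) ≤ _
  rw [lintegral_eq_lmarginal_univ (fun _ => (0 : ℝ)), lmarginal_erase' F hFm (Finset.mem_univ p)]
  refine (lmarginal_mono (g := fun _ => ENNReal.ofReal (C * S * T * Real.log T ^ 2))
    (fun γ => hin γ) _).trans ?_
  unfold lmarginal
  rw [lintegral_const, Measure.pi_univ]
  have hm : (∏ i : {x // x ∈ Finset.univ.erase p}, (volume.restrict (Icc 0 T) : Measure ℝ) univ)
      = ENNReal.ofReal T ^ (2 * k - 1) := by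
    rw [Measure.restrict_apply_univ, Real.volume_Icc, sub_zero, Finset.prod_const]
    congr 1
    rw [Finset.card_univ, Fintype.card_coe, Finset.card_erase_of_mem (Finset.mem_univ _),
      Finset.card_univ, Fintype.card_sum, Fintype.card_fin]
    omega
  rw [hm, ← ENNReal.ofReal_pow hT0.le, ← ENNReal.ofReal_mul (by positivity)]
  refine ENNReal.ofReal_le_ofReal (le_of_eq ?_)
  have hk : 1 ≤ k := by
    have := j₀.pos
    omega
  have e : 2 * k = 1 + (2 * k - 1) := by omega
  have e2 : T ^ (2 * k) = T * T ^ (2 * k - 1) := by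
    conv_lhs => rw [e, pow_add, pow_one]
  rw [e2]
  ring

end

end Pool.Agent.N879.SQ
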