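import Pool.Agent.N879.SQ.Stm
import Pool.Agent.H510R2.Div

set_option autoImplicit false

/-!
Project SQ, part CNT: the count of the off-diagonal terms.
-/

namespace Pool.Agent.N879.SQ.Cntaux

open Finset

/-- the kernel -/
noncomputable def kerF (a b : ℕ) : ℝ := ((a : ℝ) * b)⁻¹ / |Real.log a - Real.log b|

theorem F_nonneg (a b : ℕ) : 0 ≤ kerF a b := by unfold kerF; positivity

theorem F_comm (a b : ℕ) : kerF a b = kerF b a := by
  unfold kerF
  rw [mul_comm, abs_sub_comm]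

theorem F_le {a b : ℕ} (ha : 1 ≤ a) (hab : a < b) :
    kerF a b ≤ (a : ℝ)⁻¹ * ((b - a : ℕ) : ℝ)⁻¹ := by
  have ha' : (0 : ℝ) < a := by exact_mod_cast ha
  have hab' : (a : ℝ) < b := by exact_mod_cast hab
  have hb' : (0 : ℝ) < b := ha'.trans hab'
  have hd : (0 : ℝ) < b - a := sub_pos.2 hab'
  have h1 := Real.one_sub_inv_le_log_of_pos (x := (b : ℝ) / a) (by positivity)
  rw [Real.log_div hb'.ne' ha'.ne', inv_div] at h1
  have h2 : (1 : ℝ) - a / b = (b - a) / b := by field_simp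
  rw [h2] at h1
  have h3 : |Real.log a - Real.log b| = Real.log b - Real.log a := by
    rw [abs_sub_comm]
    exact abs_of_nonneg ((div_nonneg hd.le hb'.le).trans h1)
  unfold kerF
  rw [h3, Nat.cast_sub hab.le]
  calc ((a : ℝ) * b)⁻¹ / (Real.log b - Real.log a) ≤ ((a : ℝ) * b)⁻¹ / ((b - a) / b) :=
        div_le_div_of_nonneg_left (by positivity) (by positivity) h1
    _ = (a : ℝ)⁻¹ * ((b : ℝ) - a)⁻¹ := by
        have hd' := hd.ne'
        field_simp

/-- harmonic numbers -/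
noncomputable def harH (Y : ℕ) : ℝ := ∑ n ∈ Icc 1 Y, (n : ℝ)⁻¹

theorem H_nonneg (Y : ℕ) : 0 ≤ harH Y := Finset.sum_nonneg fun _ _ => by positivity

theorem H_le (Y : ℕ) : harH Y ≤ 1 + Real.log Y := by
  have h := harmonic_le_one_add_log Y
  rw [harmonic_eq_sum_Icc] at h
  unfold harH
  push_cast at h
  exact h

theorem inner_le (a Y : ℕ) : ∑ b ∈ Icc 1 Y, (if a < b then ((b - a : ℕ) : ℝ)⁻¹ else 0) ≤ harH Y := by
  rw [← Finset.sum_filter]
  have hinj : Set.InjOn (fun b : ℕ => b - a) ((Icc 1 Y).filter fun b => a < b : Finset ℕ) := by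
    intro x hx y hy hxy
    have hx' := (Finset.mem_filter.1 hx).2
    have hy' := (Finset.mem_filter.1 hy).2
    have : x - a = y - a := hxy
    omega
  have h1 : ∑ b ∈ (Icc 1 Y).filter (fun b => a < b), ((b - a : ℕ) : ℝ)⁻¹ =
      ∑ h ∈ ((Icc 1 Y).filter fun b => a < b).image (fun b : ℕ => b - a), (h : ℝ)⁻¹ :=
    (Finset.sum_image (f := fun h : ℕ => (h : ℝ)⁻¹) hinj).symm
  rw [h1]
  refine Finset.sum_le_sum_of_subset_of_nonneg ?_ fun _ _ _ => by positivity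
  intro h hh
  rw [Finset.mem_image] at hh
  obtain ⟨b, hb, rfl⟩ := hh
  rw [Finset.mem_filter, Finset.mem_Icc] at hb
  rw [Finset.mem_Icc]
  omega

theorem half_le (Y : ℕ) : ∑ a ∈ Icc 1 Y, ∑ b ∈ Icc 1 Y, (if a < b then kerF a b else 0) ≤
    harH Y * harH Y := by
  have h1 : ∀ a ∈ Icc 1 Y, ∑ b ∈ Icc 1 Y, (if a < b then kerF a b else 0) ≤ (a : ℝ)⁻¹ * harH Y := by
    intro a ha
    have ha1 : 1 ≤ a := (Finset.mem_Icc.1 ha).1
    calc ∑ b ∈ Icc 1 Y, (if a < b then kerF a b else 0)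
        ≤ ∑ b ∈ Icc 1 Y, (a : ℝ)⁻¹ * (if a < b then ((b - a : ℕ) : ℝ)⁻¹ else 0) := by
          refine Finset.sum_le_sum fun b _ => ?_
          split_ifs with h
          · exact F_le ha1 h
          · simp
      _ = (a : ℝ)⁻¹ * ∑ b ∈ Icc 1 Y, (if a < b then ((b - a : ℕ) : ℝ)⁻¹ else 0) := by
          rw [Finset.mul_sum]
      _ ≤ (a : ℝ)⁻¹ * harH Y := mul_le_mul_of_nonneg_left (inner_le a Y) (by positivity)
  calc _ ≤ ∑ a ∈ Icc 1 Y, (a : ℝ)⁻¹ * harH Y := Finset.sum_le_sum h1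
    _ = harH Y * harH Y := by rw [← Finset.sum_mul]; rfl

theorem sum_F_le (Y : ℕ) : ∑ p ∈ (Icc 1 Y ×ˢ Icc 1 Y).filter (fun p : ℕ × ℕ => p.1 ≠ p.2),
    kerF p.1 p.2 ≤ 2 * (harH Y * harH Y) := by
  rw [Finset.sum_filter, Finset.sum_product]
  have h1 : ∀ a b : ℕ, (if a ≠ b then kerF a b else 0) =
      (if a < b then kerF a b else 0) + (if b < a then kerF b a else 0) := by
    intro a b
    rcases lt_trichotomy a b with h | h | h
    · rw [if_pos h.ne, if_pos h, if_neg (not_lt.2 h.le), add_zero]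
    · subst h; simp
    · rw [if_pos h.ne', if_neg (not_lt.2 h.le), if_pos h, zero_add, F_comm]
  simp only [h1, Finset.sum_add_distrib]
  rw [Finset.sum_comm (f := fun a b => if b < a then kerF b a else 0)]
  have := half_le Y
  linarith

/-- the number of tuples with given products -/
theorem card_le (k a b : ℕ) (ha : a ≠ 0) (hb : b ≠ 0) (s : Finset (Fin k ⊕ Fin k → ℕ)) :
    (s.filter fun ν => (∏ j, ν (Sum.inl j), ∏ j, ν (Sum.inr j)) = (a, b)).card ≤
      a.divisors.card ^ k * b.divisors.card ^ k := by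
  classical
  have hsub : (s.filter fun ν => (∏ j, ν (Sum.inl j), ∏ j, ν (Sum.inr j)) = (a, b)) ⊆
      Fintype.piFinset (Sum.elim (fun _ : Fin k => a.divisors) fun _ : Fin k => b.divisors) := by
    intro ν hν
    have h := (Finset.mem_filter.1 hν).2
    rw [Prod.mk.injEq] at h
    rw [Fintype.mem_piFinset]
    rintro (j | j)
    · show ν (Sum.inl j) ∈ a.divisors
      rw [Nat.mem_divisors]
      exact ⟨h.1 ▸ Finset.dvd_prod_of_mem (fun j => ν (Sum.inl j)) (Finset.mem_univ j), ha⟩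
    · show ν (Sum.inr j) ∈ b.divisors
      rw [Nat.mem_divisors]
      exact ⟨h.2 ▸ Finset.dvd_prod_of_mem (fun j => ν (Sum.inr j)) (Finset.mem_univ j), hb⟩
  refine (Finset.card_le_card hsub).trans ?_
  rw [Fintype.card_piFinset, Fintype.prod_sum_type]
  simp

end Pool.Agent.N879.SQ.Cntaux

namespace Pool.Agent.N879.SQ

open Cntaux

theorem t_CNT : S_CNT := by
  intro k ε hε
  obtain ⟨C, hC, hdiv⟩ := Pool.Agent.H510R2.divisor_bound (ε / (4 * ((k : ℝ) ^ 2 + 1)))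
    (by positivity)
  set δ : ℝ := ε / (4 * ((k : ℝ) ^ 2 + 1)) with hδ
  have hδ0 : 0 < δ := by positivity
  refine ⟨2 * C ^ (2 * k) * (1 + k / (ε / 4)) ^ 2, by positivity, ?_⟩
  intro X hX
  have hX1 : (1 : ℝ) ≤ X := by exact_mod_cast hX
  have hX0 : (0 : ℝ) < X := by linarith
  set Y : ℕ := X ^ k with hY
  have hYr : (Y : ℝ) = (X : ℝ) ^ k := by rw [hY]; push_cast; rfl
  have hY1 : (1 : ℝ) ≤ Y := by rw [hYr]; exact one_le_pow₀ hX1
  set K : ℝ := (C * (Y : ℝ) ^ δ) ^ k * (C * (Y : ℝ) ^ δ) ^ k with hK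
  have hK0 : 0 ≤ K := by positivity
  -- products
  have hprod : ∀ ν ∈ Pool.Agent.TH612.GS.tup k X, ∀ f : Fin k → Fin k ⊕ Fin k, ∏ j, ν (f j) ∈ Finset.Icc 1 Y := by
    intro ν hν f
    have h1 : ∀ i, ν i ∈ Finset.Icc 1 X := fun i => by
      unfold Pool.Agent.TH612.GS.tup at hν; exact Fintype.mem_piFinset.1 hν i
    rw [Finset.mem_Icc]
    constructor
    · exact Finset.one_le_prod' fun j _ => (Finset.mem_Icc.1 (h1 _)).1
    · have h2 : ∏ j, ν (f j) ≤ ∏ _j : Fin k, X :=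
        Finset.prod_le_prod' fun j _ => (Finset.mem_Icc.1 (h1 _)).2
      simpa [hY] using h2
  have hterm : ∀ ν : Fin k ⊕ Fin k → ℕ, (∏ i, (ν i : ℝ))⁻¹ /
      |Real.log ((∏ j, ν (Sum.inl j) : ℕ) : ℝ) - Real.log ((∏ j, ν (Sum.inr j) : ℕ) : ℝ)| =
      kerF (∏ j, ν (Sum.inl j)) (∏ j, ν (Sum.inr j)) := by
    intro ν
    unfold kerF
    rw [Fintype.prod_sum_type]
    push_cast
    rfl
  classical
  have hdb : ∀ a ∈ Finset.Icc 1 Y, (a.divisors.card : ℝ) ^ k ≤ (C * (Y : ℝ) ^ δ) ^ k := by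
    intro a ha
    rw [Finset.mem_Icc] at ha
    refine pow_le_pow_left₀ (by positivity) ((hdiv a ha.1).trans ?_) k
    refine mul_le_mul_of_nonneg_left (Real.rpow_le_rpow (by positivity) ?_ hδ0.le) hC.le
    exact_mod_cast ha.2
  have hsum : ∑ ν ∈ (Pool.Agent.TH612.GS.tup k X).filter (fun ν => ∏ j, ν (Sum.inl j) ≠ ∏ j, ν (Sum.inr j)),
      kerF (∏ j, ν (Sum.inl j)) (∏ j, ν (Sum.inr j)) ≤ K * (2 * (harH Y * harH Y)) := by
    rw [← Finset.sum_fiberwise_of_maps_to (s := (Pool.Agent.TH612.GS.tup k X).filter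
      (fun ν => ∏ j, ν (Sum.inl j) ≠ ∏ j, ν (Sum.inr j)))
      (t := (Finset.Icc 1 Y ×ˢ Finset.Icc 1 Y).filter (fun p : ℕ × ℕ => p.1 ≠ p.2))
      (g := fun ν => (∏ j, ν (Sum.inl j), ∏ j, ν (Sum.inr j)))]
    · refine le_trans (Finset.sum_le_sum (g := fun p : ℕ × ℕ => K * kerF p.1 p.2) ?_) ?_
      · rintro ⟨a, b⟩ hp
        rw [Finset.mem_filter, Finset.mem_product] at hp
        have ha : a ∈ Finset.Icc 1 Y := hp.1.1
        have hb : b ∈ Finset.Icc 1 Y := hp.1.2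
        have ha0 : a ≠ 0 := by have := (Finset.mem_Icc.1 ha).1; omega
        have hb0 : b ≠ 0 := by have := (Finset.mem_Icc.1 hb).1; omega
        rw [Finset.sum_congr rfl (g := fun _ => kerF a b) ?_, Finset.sum_const, nsmul_eq_mul]
        · refine mul_le_mul_of_nonneg_right ?_ (F_nonneg a b)
          refine le_trans (Nat.cast_le.2 (card_le k a b ha0 hb0 _)) ?_
          push_cast
          exact mul_le_mul (hdb a ha) (hdb b hb) (by positivity) (by positivity)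
        · intro ν hν
          have h := (Finset.mem_filter.1 hν).2
          rw [Prod.mk.injEq] at h
          rw [h.1, h.2]
      · rw [← Finset.mul_sum]
        exact mul_le_mul_of_nonneg_left (sum_F_le Y) hK0
    · intro ν hν
      rw [Finset.mem_filter] at hν
      rw [Finset.mem_filter, Finset.mem_product]
      exact ⟨⟨hprod ν hν.1 _, hprod ν hν.1 _⟩, hν.2⟩
  have hlog : 1 + Real.log Y ≤ (1 + k / (ε / 4)) * (X : ℝ) ^ (ε / 4) := by
    have h1 : Real.log Y = k * Real.log X := by rw [hYr, Real.log_pow]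
    have h2 := Real.log_le_rpow_div hX0.le (show 0 < ε / 4 by positivity)
    have h3 : (1 : ℝ) ≤ (X : ℝ) ^ (ε / 4) := Real.one_le_rpow hX1 (by positivity)
    rw [h1]
    have h4 : (k : ℝ) * Real.log X ≤ k * ((X : ℝ) ^ (ε / 4) / (ε / 4)) :=
      mul_le_mul_of_nonneg_left h2 (by positivity)
    calc 1 + k * Real.log X ≤ (X : ℝ) ^ (ε / 4) + k * ((X : ℝ) ^ (ε / 4) / (ε / 4)) := by linarith
      _ = (1 + k / (ε / 4)) * (X : ℝ) ^ (ε / 4) := by ring
  have hHH : harH Y * harH Y ≤ (1 + k / (ε / 4)) ^ 2 * (X : ℝ) ^ (ε / 2) := by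
    have h1 : harH Y ≤ (1 + k / (ε / 4)) * (X : ℝ) ^ (ε / 4) := (H_le Y).trans hlog
    have h2 : (X : ℝ) ^ (ε / 2) = (X : ℝ) ^ (ε / 4) * (X : ℝ) ^ (ε / 4) := by
      rw [← Real.rpow_add hX0]; congr 1; ring
    calc harH Y * harH Y ≤ ((1 + k / (ε / 4)) * (X : ℝ) ^ (ε / 4)) *
          ((1 + k / (ε / 4)) * (X : ℝ) ^ (ε / 4)) :=
          mul_le_mul h1 h1 (H_nonneg Y) (by positivity)
      _ = _ := by rw [h2]; ring
  have hKX : K ≤ C ^ (2 * k) * (X : ℝ) ^ (ε / 2) := by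
    have h1 : K = C ^ (2 * k) * ((Y : ℝ) ^ δ) ^ (2 * k) := by
      rw [hK, ← pow_add, mul_pow]; ring_nf
    have h2 : ((Y : ℝ) ^ δ) ^ (2 * k) = (X : ℝ) ^ (2 * (k : ℝ) ^ 2 * δ) := by
      rw [hYr, ← Real.rpow_natCast (X : ℝ) k, ← Real.rpow_mul hX0.le, ← Real.rpow_natCast,
        ← Real.rpow_mul hX0.le]
      congr 1
      push_cast
      ring
    rw [h1, h2]
    refine mul_le_mul_of_nonneg_left (Real.rpow_le_rpow_of_exponent_le hX1 ?_) (by positivity)
    rw [hδ]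
    rw [mul_div_assoc', div_le_iff₀ (by positivity)]
    nlinarith [sq_nonneg (k : ℝ)]
  simp only [hterm]
  calc _ ≤ K * (2 * (harH Y * harH Y)) := by
        convert hsum using 2
    _ ≤ (C ^ (2 * k) * (X : ℝ) ^ (ε / 2)) *
          (2 * ((1 + k / (ε / 4)) ^ 2 * (X : ℝ) ^ (ε / 2))) := by
        refine mul_le_mul hKX (mul_le_mul_of_nonneg_left hHH (by norm_num)) ?_ (by positivity)
        have := H_nonneg Y
        positivity
    _ = 2 * C ^ (2 * k) * (1 + k / (ε / 4)) ^ 2 * ((X : ℝ) ^ (ε / 2) * (X : ℝ) ^ (ε / 2)) := by ring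
    _ = 2 * C ^ (2 * k) * (1 + k / (ε / 4)) ^ 2 * (X : ℝ) ^ ε := by
        rw [← Real.rpow_add hX0]; congr 2; ring

end Pool.Agent.N879.SQ
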