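import Pool.Agent.N879.SQ.Stm
import Pool.Agent.TH367.GS.SS

set_option autoImplicit false

/-!
Project SQ, part CUT: from the sharp diagonal sum with all variables at most `X` to the long smooth
diagonal sum. Author helper914 (project of helper879).
-/

namespace Pool.Agent.N879.SQ

open Complex Filter Topology MeasureTheory Set
open Pool.Agent.TH612.CF Pool.Agent.TH612.GS Pool.Agent.TH757.GS
open scoped ContDiff

noncomputable section

namespace Cutaux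

open Pool.Agent.TH367.GS (pl pr mem_tup pl_pos fma_card qq SN_eq SP_eq norm_one_sub)

variable {k : ℕ}

open Classical in
/-- the coefficients of the difference -/
def cd (ψ : ℝ → ℝ) (X M : ℕ) (ν : Fin k ⊕ Fin k → ℕ) : ℂ :=
  if pl ν = pr ν then ((pl ν : ℕ) : ℂ)⁻¹ *
    ((if ∀ i, ν i ≤ X then (1 : ℂ) else 0) - (qq ψ M (pl ν) : ℂ)) else 0

lemma tup_filter {X M : ℕ} (h : X ≤ M) :
    (tup k M).filter (fun ν => ∀ i, ν i ≤ X) = tup k X := by
  ext ν
  rw [Finset.mem_filter, mem_tup, mem_tup]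
  constructor
  · rintro ⟨h1, h2⟩ i
    exact ⟨(h1 i).1, h2 i⟩
  · intro h1
    exact ⟨fun i => ⟨(h1 i).1, (h1 i).2.trans h⟩, fun i => (h1 i).2⟩

lemma diff_eq {ψ : ℝ → ℝ} (hψ : Cut ψ) {X M : ℕ} (hX : X ≤ M) (hM : 2 ≤ M)
    (γ : Fin k ⊕ Fin k → ℝ) :
    SN X γ - SP ψ M γ = ∑ ν ∈ tup k M, cd ψ X M ν * ch ν γ := by
  classical
  rw [SN_eq, SP_eq hψ hM, ← tup_filter hX, Finset.sum_filter, ← Finset.sum_sub_distrib]
  refine Finset.sum_congr rfl fun ν _ => ?_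
  unfold cd
  by_cases h1 : pl ν = pr ν
  · by_cases h2 : ∀ i, ν i ≤ X
    · rw [if_pos h2, if_pos h1, if_pos h1, if_pos h1, if_pos h2]
      ring
    · rw [if_neg h2, if_pos h1, if_pos h1, if_neg h2]
      ring
  · rw [if_neg h1, if_neg h1, if_neg h1]
    simp

open Classical in
lemma cd_le {ψ : ℝ → ℝ} (hψ : Cut ψ) {X M : ℕ} (hX1 : 1 ≤ X) (hXM : X ^ 4 ≤ M) (hM : 2 ≤ M)
    {ν : Fin k ⊕ Fin k → ℕ} (hν : ν ∈ tup k M) :
    ‖cd ψ X M ν‖ ≤ if pl ν = pr ν ∧ X < pl ν then ((pl ν : ℕ) : ℝ)⁻¹ else 0 := by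
  have hlog : 0 < Real.log M := Real.log_pos (by exact_mod_cast (by omega : 1 < M))
  unfold cd
  by_cases h1 : pl ν = pr ν
  · rw [if_pos h1]
    by_cases h2 : X < pl ν
    · rw [if_pos (show pl ν = pr ν ∧ X < pl ν from ⟨h1, h2⟩), norm_mul, norm_inv,
        Complex.norm_natCast]
      have h3 : ‖((if ∀ i, ν i ≤ X then (1 : ℂ) else 0) - (qq ψ M (pl ν) : ℂ))‖ ≤ 1 := by
        split_ifs with h4
        · exact norm_one_sub hψ M (pl ν)
        · rw [zero_sub, norm_neg, Complex.norm_real, Real.norm_eq_abs, abs_le]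
          have h5 := hψ.2.1 (Real.log (pl ν) / (Real.log M / 2))
          unfold qq
          constructor <;> linarith [h5.1, h5.2]
      calc _ ≤ ((pl ν : ℕ) : ℝ)⁻¹ * 1 := by gcongr
        _ = _ := mul_one _
    · rw [if_neg (show ¬ (pl ν = pr ν ∧ X < pl ν) from fun h => h2 h.2)]
      push Not at h2
      have hp := pl_pos hν
      have h3 : ∀ i, ν i ≤ X := by
        rintro (j | j)
        · have hd : ν (Sum.inl j) ∣ pl ν := Finset.dvd_prod_of_mem (fun j => ν (Sum.inl j)) (Finset.mem_univ j)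
          exact (Nat.le_of_dvd hp hd).trans h2
        · have hd : ν (Sum.inr j) ∣ pr ν := Finset.dvd_prod_of_mem (fun j => ν (Sum.inr j)) (Finset.mem_univ j)
          rw [← h1] at hd
          exact (Nat.le_of_dvd hp hd).trans h2
      have h4 : qq ψ M (pl ν) = 1 := by
        unfold qq
        apply hψ.2.2.1
        rw [div_le_iff₀ (by positivity)]
        have h5 : Real.log (pl ν : ℕ) ≤ Real.log X :=
          Real.log_le_log (by exact_mod_cast hp) (by exact_mod_cast h2)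
        have h6 : 4 * Real.log X ≤ Real.log M := by
          have h7 : Real.log ((X : ℝ) ^ 4) ≤ Real.log M :=
            Real.log_le_log (by positivity) (by exact_mod_cast hXM)
          rw [Real.log_pow] at h7
          exact_mod_cast h7
        linarith
      rw [if_pos h3, h4]
      simp
  · rw [if_neg h1]
    simp only [norm_zero]
    split_ifs <;> positivity

/-- the box -/
def bo (k N : ℕ) : Finset (Fin k → ℕ) := Fintype.piFinset fun _ => Finset.Icc 1 N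

lemma mem_bo {N : ℕ} {n : Fin k → ℕ} : n ∈ bo k N ↔ ∀ i, 1 ≤ n i ∧ n i ≤ N := by
  simp [bo]

lemma bo_pos {N : ℕ} {n : Fin k → ℕ} (h : n ∈ bo k N) : 1 ≤ ∏ l, n l := by
  have h1 : 0 < ∏ l, n l := Finset.prod_pos fun j _ => (mem_bo.1 h j).1
  exact h1

lemma tup_sum (N : ℕ) (F : (Fin k → ℕ) → (Fin k → ℕ) → ℂ) :
    ∑ ν ∈ tup k N, F (fun j => ν (Sum.inl j)) (fun j => ν (Sum.inr j)) =
      ∑ n ∈ bo k N, ∑ m ∈ bo k N, F m n := by
  rw [← Finset.sum_product']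
  refine Finset.sum_bij' (fun ν _ => (fun j => ν (Sum.inr j), fun j => ν (Sum.inl j)))
    (fun p _ => Sum.elim p.2 p.1) ?_ ?_ ?_ ?_ ?_
  · intro ν hν
    rw [mem_tup] at hν
    rw [Finset.mem_product, mem_bo, mem_bo]
    exact ⟨fun i => hν (Sum.inr i), fun i => hν (Sum.inl i)⟩
  · rintro ⟨n, m⟩ hp
    rw [Finset.mem_product, mem_bo, mem_bo] at hp
    rw [mem_tup]
    rintro (j | j)
    · exact hp.2 j
    · exact hp.1 j
  · intro ν _
    funext i
    rcases i with j | j <;> rfl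
  · rintro ⟨n, m⟩ _
    rfl
  · intro ν _
    rfl

/-- the coefficients for fixed `α` -/
def aa (ψ : ℝ → ℝ) (X M : ℕ) (α : Fin k → ℝ) (n : Fin k → ℕ) : ℂ :=
  ∑ m ∈ bo k M, cd ψ X M (Sum.elim m n) * ∏ j, (m j : ℂ) ^ (-(I * (α j : ℂ)))

lemma sum_eq (ψ : ℝ → ℝ) (X M : ℕ) (α β : Fin k → ℝ) :
    ∑ ν ∈ tup k M, cd ψ X M ν * ch ν (Sum.elim α β) =
      ∑ n ∈ bo k M, aa ψ X M α n * ∏ l, (n l : ℂ) ^ (I * (β l : ℂ)) := by
  have h1 := tup_sum (k := k) M (fun m n => cd ψ X M (Sum.elim m n) *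
    ((∏ j, (m j : ℂ) ^ (-(I * (α j : ℂ)))) * ∏ l, (n l : ℂ) ^ (I * (β l : ℂ))))
  have h2 : ∀ ν : Fin k ⊕ Fin k → ℕ,
      Sum.elim (fun j => ν (Sum.inl j)) (fun j => ν (Sum.inr j)) = ν := by
    intro ν
    funext i
    rcases i with j | j <;> rfl
  simp only [h2] at h1
  have h3 : ∑ ν ∈ tup k M, cd ψ X M ν * ch ν (Sum.elim α β) =
      ∑ ν ∈ tup k M, cd ψ X M ν * ((∏ j, (ν (Sum.inl j) : ℂ) ^ (-(I * (α j : ℂ)))) *
        ∏ l, (ν (Sum.inr l) : ℂ) ^ (I * (β l : ℂ))) := rfl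
  rw [h3, h1]
  refine Finset.sum_congr rfl fun n _ => ?_
  unfold aa
  rw [Finset.sum_mul]
  refine Finset.sum_congr rfl fun m _ => ?_
  ring

lemma norm_char {m : Fin k → ℕ} (hm : ∀ j, 1 ≤ m j) (α : Fin k → ℝ) :
    ‖∏ j, (m j : ℂ) ^ (-(I * (α j : ℂ)))‖ = 1 := by
  rw [norm_prod]
  refine Finset.prod_eq_one fun j _ => ?_
  rw [Complex.norm_natCast_cpow_of_pos (hm j)]
  simp

open Classical in
lemma card_le (M N : ℕ) (hN : 1 ≤ N) :
    ((bo k M).filter (fun m => ∏ j, m j = N)).card ≤ N.divisors.card ^ k := by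
  refine le_trans (Finset.card_le_card ?_) (fma_card N hN)
  intro m hm
  rw [Finset.mem_filter] at hm
  rw [Nat.mem_finMulAntidiag]
  exact ⟨hm.2, by omega⟩

open Classical in
lemma aa_le {ψ : ℝ → ℝ} (hψ : Cut ψ) {X M : ℕ} (hX1 : 1 ≤ X) (hXM : X ^ 4 ≤ M) (hM : 2 ≤ M)
    (α : Fin k → ℝ) {n : Fin k → ℕ} (hn : n ∈ bo k M) :
    ‖aa ψ X M α n‖ ≤ if X < ∏ l, n l then
      ((∏ l, n l : ℕ) : ℝ)⁻¹ * ((∏ l, n l : ℕ).divisors.card : ℝ) ^ k else 0 := by
  unfold aa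
  have h1 : ‖∑ m ∈ bo k M, cd ψ X M (Sum.elim m n) * ∏ j, (m j : ℂ) ^ (-(I * (α j : ℂ)))‖ ≤
      ∑ m ∈ bo k M, if ∏ j, m j = ∏ l, n l then
        (if X < ∏ l, n l then ((∏ l, n l : ℕ) : ℝ)⁻¹ else 0) else 0 := by
    refine (norm_sum_le _ _).trans (Finset.sum_le_sum fun m hm => ?_)
    rw [norm_mul, norm_char (fun j => (mem_bo.1 hm j).1), mul_one]
    have hν : Sum.elim m n ∈ tup k M := by
      rw [mem_tup]
      rintro (j | j)
      · exact mem_bo.1 hm j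
      · exact mem_bo.1 hn j
    refine (cd_le hψ hX1 hXM hM hν).trans (le_of_eq ?_)
    have e1 : pl (Sum.elim m n) = ∏ j, m j := rfl
    have e2 : pr (Sum.elim m n) = ∏ l, n l := rfl
    rw [e1, e2]
    by_cases h2 : ∏ j, m j = ∏ l, n l
    · rw [h2]
      simp
    · rw [if_neg h2, if_neg (fun h => h2 h.1)]
  refine h1.trans ?_
  rw [← Finset.sum_filter, Finset.sum_const, nsmul_eq_mul]
  split_ifs with h2
  · rw [mul_comm]
    refine mul_le_mul_of_nonneg_left ?_ (by positivity)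
    exact_mod_cast card_le M _ (bo_pos hn)
  · simp

lemma prod_weight {T : ℝ} (hT : 1 ≤ T) {n : Fin k → ℕ} (hn : ∀ l, 1 ≤ n l)
    (hP : T ≤ ((∏ l, n l : ℕ) : ℝ)) : ∏ l, (1 + T / n l) ≤ (2 * T) ^ k / T := by
  have hT0 : 0 < T := by linarith
  have hn1 : ∀ l, (1:ℝ) ≤ n l := fun l => by exact_mod_cast hn l
  by_cases h : ∀ l, (n l : ℝ) ≤ T
  · have h1 : ∏ l, (1 + T / n l) ≤ ∏ l, (2 * T / n l) := by
      refine Finset.prod_le_prod (fun l _ => ?_) fun l _ => ?_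
      · have := hn1 l
        positivity
      · have h2 : (0:ℝ) < n l := by linarith [hn1 l]
        rw [show (1:ℝ) = n l / n l from (div_self h2.ne').symm, ← add_div]
        exact div_le_div_of_nonneg_right (by linarith [h l]) h2.le
    refine h1.trans ?_
    rw [Finset.prod_div_distrib, Finset.prod_const, Finset.card_univ, Fintype.card_fin]
    have h3 : ∏ l, (n l : ℝ) = ((∏ l, n l : ℕ) : ℝ) := by push_cast; rfl
    rw [h3]
    exact div_le_div_of_nonneg_left (by positivity) hT0 hP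
  · push Not at h
    obtain ⟨l, hl⟩ := h
    rw [← Finset.mul_prod_erase Finset.univ _ (Finset.mem_univ l)]
    have h1 : 1 + T / n l ≤ 2 := by
      have h2 : T / n l ≤ 1 := by
        rw [div_le_one (by linarith)]
        exact hl.le
      linarith
    have h2 : ∏ i ∈ Finset.univ.erase l, (1 + T / (n i : ℝ)) ≤ (2 * T) ^ (k - 1) := by
      refine (Finset.prod_le_prod (g := fun _ => 2 * T) (fun i _ => ?_) fun i _ => ?_).trans
        (le_of_eq ?_)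
      · have := hn1 i
        positivity
      · have h3 : T / n i ≤ T := div_le_self hT0.le (hn1 i)
        linarith
      · rw [Finset.prod_const, Finset.card_erase_of_mem (Finset.mem_univ l), Finset.card_univ,
          Fintype.card_fin]
    have hk : 0 < k := l.pos
    have h3 : (2 * T) ^ k = (2 * T) ^ (k - 1) * (2 * T) := by
      rw [← pow_succ]
      congr 1
      omega
    have h4 : (0:ℝ) ≤ 1 + T / n l := by
      have := hn1 l
      positivity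
    calc (1 + T / n l) * ∏ i ∈ Finset.univ.erase l, (1 + T / (n i : ℝ))
        ≤ 2 * (2 * T) ^ (k - 1) := by
          refine mul_le_mul h1 h2 (Finset.prod_nonneg fun i _ => ?_) (by norm_num)
          have := hn1 i
          positivity
      _ = (2 * T) ^ k / T := by
          rw [h3]
          field_simp

/-- sums of powers of the product over the box -/
lemma box_sum {δ Z : ℝ} (hδ : 0 < δ) (hZ : ∀ M : ℕ, ∑ m ∈ Finset.Icc 1 M, (m : ℝ) ^ (-1 - δ) ≤ Z)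
    {M : ℕ} (hM : 1 ≤ M) (r : ℝ) (hr : 0 ≤ r) :
    ∑ n ∈ bo k M, ((∏ l, n l : ℕ) : ℝ) ^ (r - 1) ≤ (M : ℝ) ^ ((r + δ) * k) * Z ^ k := by
  have hM0 : (0:ℝ) < M := by exact_mod_cast hM
  have h1 : ∑ n ∈ bo k M, ((∏ l, n l : ℕ) : ℝ) ^ (r - 1) =
      ∏ _l : Fin k, ∑ m ∈ Finset.Icc 1 M, (m : ℝ) ^ (r - 1) := by
    rw [Finset.prod_univ_sum]
    unfold bo
    refine Finset.sum_congr rfl fun n _ => ?_
    push_cast
    rw [Real.finsetProd_rpow _ _ fun l _ => by positivity]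
  rw [h1, Finset.prod_const, Finset.card_univ, Fintype.card_fin]
  have h2 : ∑ m ∈ Finset.Icc 1 M, (m : ℝ) ^ (r - 1) ≤ (M : ℝ) ^ (r + δ) * Z := by
    refine le_trans ?_ (mul_le_mul_of_nonneg_left (hZ M) (by positivity))
    rw [Finset.mul_sum]
    refine Finset.sum_le_sum fun m hm => ?_
    rw [Finset.mem_Icc] at hm
    have hm0 : (0:ℝ) < m := by exact_mod_cast hm.1
    have h3 : (m : ℝ) ^ (r - 1) = (m : ℝ) ^ (r + δ) * (m : ℝ) ^ (-1 - δ) := by
      rw [← Real.rpow_add hm0]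
      congr 1
      ring
    rw [h3]
    refine mul_le_mul_of_nonneg_right ?_ (by positivity)
    exact Real.rpow_le_rpow hm0.le (by exact_mod_cast hm.2) (by positivity)
  refine (pow_le_pow_left₀ (Finset.sum_nonneg fun m _ => by positivity) h2 k).trans (le_of_eq ?_)
  rw [mul_pow, ← Real.rpow_natCast ((M:ℝ) ^ (r + δ)), ← Real.rpow_mul hM0.le]

open Classical in
/-- the weighted sum of the squares of the coefficients -/
lemma sq_sum {δ Z D : ℝ} (hδ : 0 < δ)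
    (hZ : ∀ M : ℕ, ∑ m ∈ Finset.Icc 1 M, (m : ℝ) ^ (-1 - δ) ≤ Z) (hZ0 : 0 ≤ Z) (hD0 : 0 < D)
    (hD : ∀ n : ℕ, 1 ≤ n → (n.divisors.card : ℝ) ≤ D * (n : ℝ) ^ δ) {ψ : ℝ → ℝ} (hψ : Cut ψ)
    {T : ℝ} (hT : 1 ≤ T) {X M : ℕ} (hTX : T ≤ X) (hX1 : 1 ≤ X) (hXM : X ^ 4 ≤ M) (hM : 2 ≤ M)
    (α : Fin k → ℝ) :
    ∑ n ∈ bo k M, (∏ l, (T + n l)) * ‖aa ψ X M α n‖ ^ 2 ≤
      (2 * T) ^ k / T * D ^ (2 * k) * ((M : ℝ) ^ ((2 * k * δ + δ) * k) * Z ^ k) := by
  have hT0 : 0 < T := by linarith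
  refine le_trans ?_ (mul_le_mul_of_nonneg_left (box_sum (k := k) hδ hZ (by omega : 1 ≤ M)
    (2 * k * δ) (by positivity)) (by positivity))
  rw [Finset.mul_sum]
  refine Finset.sum_le_sum fun n hn => ?_
  have hn1 : ∀ l, 1 ≤ n l := fun l => (mem_bo.1 hn l).1
  have hP1 := bo_pos hn
  have h1 := aa_le hψ hX1 hXM hM α hn
  obtain ⟨P, hP⟩ : ∃ P : ℕ, P = ∏ l, n l := ⟨_, rfl⟩
  rw [← hP] at h1 hP1 ⊢
  have hP0 : (0:ℝ) < P := by exact_mod_cast hP1
  by_cases h2 : X < P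
  · rw [if_pos h2] at h1
    have hPT : T ≤ P := hTX.trans (by exact_mod_cast h2.le)
    have h3 : ‖aa ψ X M α n‖ ^ 2 ≤ D ^ (2 * k) * (P : ℝ) ^ (2 * k * δ - 2) := by
      refine (pow_le_pow_left₀ (norm_nonneg _) h1 2).trans ?_
      have h4 : ((P : ℝ)⁻¹ * (P.divisors.card : ℝ) ^ k) ^ 2 ≤
          ((P : ℝ)⁻¹ * (D * (P : ℝ) ^ δ) ^ k) ^ 2 := by
        refine pow_le_pow_left₀ (by positivity) ?_ 2
        refine mul_le_mul_of_nonneg_left ?_ (by positivity)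
        exact pow_le_pow_left₀ (by positivity) (hD P hP1) k
      refine h4.trans (le_of_eq ?_)
      have h5 : (P : ℝ) ^ (2 * k * δ - 2) = ((P : ℝ)⁻¹) ^ 2 * (((P : ℝ) ^ δ) ^ k) ^ 2 := by
        rw [← Real.rpow_natCast ((P:ℝ) ^ δ), ← Real.rpow_mul hP0.le, ← Real.rpow_natCast (_ ^ _) 2,
          ← Real.rpow_mul hP0.le, ← Real.rpow_neg_one, ← Real.rpow_natCast (_ ^ _) 2,
          ← Real.rpow_mul hP0.le, ← Real.rpow_add hP0]
        congr 1
        push_cast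
        ring
      rw [h5]
      ring
    have h6 : ∏ l, (T + n l) = P * ∏ l, (1 + T / n l) := by
      rw [hP]
      push_cast
      rw [← Finset.prod_mul_distrib]
      refine Finset.prod_congr rfl fun l _ => ?_
      have h7 : (n l : ℝ) ≠ 0 := by
        have := hn1 l
        positivity
      field_simp
      ring
    rw [h6]
    have h8 := prod_weight (k := k) hT hn1 (by rw [← hP]; exact hPT)
    have h9 : (P : ℝ) ^ (2 * k * δ - 1) = P * (P : ℝ) ^ (2 * k * δ - 2) := by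
      nth_rewrite 2 [← Real.rpow_one (P : ℝ)]
      rw [← Real.rpow_add hP0]
      congr 1
      ring
    have h10 : 0 ≤ ∏ l, (1 + T / n l) := Finset.prod_nonneg fun l _ => by positivity
    calc P * (∏ l, (1 + T / n l)) * ‖aa ψ X M α n‖ ^ 2
        ≤ P * ((2 * T) ^ k / T) * (D ^ (2 * k) * (P : ℝ) ^ (2 * k * δ - 2)) := by gcongr
      _ = (2 * T) ^ k / T * D ^ (2 * k) * (P : ℝ) ^ (2 * k * δ - 1) := by
        rw [h9]
        ring
  · rw [if_neg h2] at h1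
    have h3 : ‖aa ψ X M α n‖ = 0 := le_antisymm h1 (norm_nonneg _)
    rw [h3]
    simp only [ne_eq, OfNat.ofNat_ne_zero, not_false_eq_true, zero_pow, mul_zero]
    positivity

lemma mP_univ (T : ℝ) : mP (Fin k) T univ = ENNReal.ofReal T ^ k := by
  unfold mP
  rw [Measure.pi_univ]
  simp

end Cutaux

open Cutaux in
theorem t_CUT (h : S_TMW) : S_CUT := by
  intro k A ψ ε hψ hε
  obtain ⟨C₁, hC₁, h1⟩ := h k
  obtain ⟨E, hE⟩ : ∃ E : ℝ, E = (2 * k + 1) * k + 2 * k := ⟨_, rfl⟩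
  have hE0 : 0 ≤ E := by
    rw [hE]
    positivity
  obtain ⟨δ, hδ⟩ : ∃ δ : ℝ, δ = ε / ((E + 1) * (A + 1)) := ⟨_, rfl⟩
  have hδ0 : 0 < δ := by
    rw [hδ]
    positivity
  have hδE : A * (δ * E) ≤ ε := by
    rw [hδ]
    have h2 : (A : ℝ) * (ε / ((E + 1) * (A + 1)) * E) = ε * (A / (A + 1)) * (E / (E + 1)) := by
      field_simp
    rw [h2]
    have h3 : (A : ℝ) / (A + 1) ≤ 1 := by
      rw [div_le_one (by positivity)]
      linarith
    have h4 : E / (E + 1) ≤ 1 := by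
      rw [div_le_one (by positivity)]
      linarith
    have h5 : 0 ≤ E / (E + 1) := by positivity
    have h6 : (0:ℝ) ≤ (A : ℝ) / (A + 1) := by positivity
    calc ε * (A / (A + 1)) * (E / (E + 1)) ≤ ε * 1 * 1 := by gcongr
      _ = ε := by ring
  obtain ⟨D, hD0, hD⟩ := Pool.Agent.H510R2.divisor_bound δ hδ0
  have hs : Summable (fun n : ℕ => (n : ℝ) ^ (-1 - δ)) :=
    Real.summable_nat_rpow.2 (by linarith)
  obtain ⟨Z, hZe⟩ : ∃ Z : ℝ, Z = ∑' n : ℕ, (n : ℝ) ^ (-1 - δ) := ⟨_, rfl⟩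
  have hZ0 : 0 ≤ Z := by
    rw [hZe]
    exact tsum_nonneg fun n => by positivity
  have hZ : ∀ M : ℕ, ∑ m ∈ Finset.Icc 1 M, (m : ℝ) ^ (-1 - δ) ≤ Z := by
    intro M
    rw [hZe]
    exact hs.sum_le_tsum _ fun n _ => by positivity
  refine ⟨C₁ * δ⁻¹ ^ (2 * k) * 2 ^ k * D ^ (2 * k) * 2 ^ (δ * E) * Z ^ k + 1, by positivity, ?_⟩
  intro T X M hT hX1 hX2 hXM hMT
  have hT0 : 0 < T := by linarith
  have hT1 : 1 ≤ T := by linarith
  have hX8 : (8:ℝ) ≤ X := by linarith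
  have hX8' : 8 ≤ X := by exact_mod_cast hX8
  have hXM' : X ≤ M := (Nat.le_self_pow (by norm_num) X).trans hXM
  have hM : 2 ≤ M := by omega
  have hM0 : (0:ℝ) < M := by positivity
  have hM1 : (1:ℝ) ≤ M := by exact_mod_cast (by omega : 1 ≤ M)
  have hlog0 : 0 ≤ Real.log M := Real.log_nonneg hM1
  have hlog : Real.log M ≤ (M : ℝ) ^ δ / δ := Real.log_le_rpow_div hM0.le hδ0
  obtain ⟨B, hB⟩ : ∃ B : ℝ, B = C₁ * Real.log M ^ (2 * k) *
    ((2 * T) ^ k / T * D ^ (2 * k) * ((M : ℝ) ^ ((2 * k * δ + δ) * k) * Z ^ k)) := ⟨_, rfl⟩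
  have hB0 : 0 ≤ B := by
    rw [hB]
    positivity
  have hinner : ∀ α : Fin k → ℝ, ∫⁻ β, ENNReal.ofReal
      (‖SN X (Sum.elim α β) - SP ψ M (Sum.elim α β)‖ ^ 2) ∂(mP (Fin k) T) ≤ ENNReal.ofReal B := by
    intro α
    have h2 := h1 T M (aa ψ X M α) hT hM
    have h3 : ∀ β : Fin k → ℝ, SN X (Sum.elim α β) - SP ψ M (Sum.elim α β) =
        ∑ n ∈ Fintype.piFinset (fun _ : Fin k => Finset.Icc 1 M),
          aa ψ X M α n * ∏ l, (n l : ℂ) ^ (I * (β l : ℂ)) := by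
      intro β
      rw [diff_eq hψ hXM' hM, sum_eq]
      rfl
    simp_rw [h3]
    refine h2.trans (ENNReal.ofReal_le_ofReal ?_)
    rw [hB]
    refine mul_le_mul_of_nonneg_left ?_ (by positivity)
    exact sq_sum hδ0 hZ hZ0 hD0 hD hψ hT1 (by linarith) (by omega) hXM hM α
  have hsplit : ∫⁻ γ, ENNReal.ofReal (‖SN X γ - SP ψ M γ‖ ^ 2) ∂(mP (Fin k ⊕ Fin k) T) ≤
      ∫⁻ α, ∫⁻ β, ENNReal.ofReal (‖SN X (Sum.elim α β) - SP ψ M (Sum.elim α β)‖ ^ 2)
        ∂(mP (Fin k) T) ∂(mP (Fin k) T) := by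
    have h2 := measurePreserving_sumPiEquivProdPi_symm (ι := Fin k) (ι' := Fin k)
      (X := fun _ => ℝ) (fun _ => (volume : Measure ℝ).restrict (Icc 0 T))
    have h3 := h2.lintegral_comp_emb (MeasurableEquiv.measurableEmbedding _)
      (fun γ : Fin k ⊕ Fin k → ℝ => ENNReal.ofReal (‖SN X γ - SP ψ M γ‖ ^ 2))
    have h4 : mP (Fin k ⊕ Fin k) T = Measure.pi (fun _ : Fin k ⊕ Fin k => (volume : Measure ℝ).restrict (Icc 0 T)) := rfl
    rw [h4, ← h3]
    refine (lintegral_prod_le _).trans (le_of_eq ?_)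
    rfl
  refine hsplit.trans ((lintegral_mono hinner).trans ?_)
  rw [lintegral_const, mP_univ, ← ENNReal.ofReal_pow hT0.le, ← ENNReal.ofReal_mul hB0]
  refine ENNReal.ofReal_le_ofReal ?_
  have hl : Real.log M ^ (2 * k) ≤ δ⁻¹ ^ (2 * k) * (M : ℝ) ^ (δ * (2 * k)) := by
    refine (pow_le_pow_left₀ hlog0 hlog _).trans (le_of_eq ?_)
    rw [div_eq_mul_inv, mul_pow, mul_comm, ← Real.rpow_natCast ((M:ℝ) ^ δ), ← Real.rpow_mul hM0.le]
    push_cast
    rfl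
  have hMp : (M : ℝ) ^ (δ * (2 * k)) * (M : ℝ) ^ ((2 * k * δ + δ) * k) ≤
      2 ^ (δ * E) * T ^ ε := by
    rw [← Real.rpow_add hM0]
    have h2 : δ * (2 * k) + (2 * k * δ + δ) * k = δ * E := by
      rw [hE]
      ring
    rw [h2]
    refine (Real.rpow_le_rpow hM0.le hMT (by positivity)).trans ?_
    rw [Real.mul_rpow (by norm_num) (by positivity)]
    refine mul_le_mul_of_nonneg_left ?_ (by positivity)
    rw [← Real.rpow_natCast, ← Real.rpow_mul hT0.le]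
    exact Real.rpow_le_rpow_of_exponent_le hT1 hδE
  have hTT : T ^ (ε - 1) = T ^ ε / T := by
    rw [Real.rpow_sub hT0, Real.rpow_one]
  have h2k : T ^ (2 * k) = T ^ k * T ^ k := by
    rw [← pow_add]
    congr 1
    ring
  calc B * T ^ k ≤ C₁ * (δ⁻¹ ^ (2 * k) * (M : ℝ) ^ (δ * (2 * k))) *
        ((2 * T) ^ k / T * D ^ (2 * k) * ((M : ℝ) ^ ((2 * k * δ + δ) * k) * Z ^ k)) * T ^ k := by
        rw [hB]
        gcongr
    _ = (C₁ * δ⁻¹ ^ (2 * k) * 2 ^ k * D ^ (2 * k) * Z ^ k) * (T ^ k * T ^ k) / T *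
        ((M : ℝ) ^ (δ * (2 * k)) * (M : ℝ) ^ ((2 * k * δ + δ) * k)) := by
        rw [mul_pow 2 T k]
        ring
    _ ≤ (C₁ * δ⁻¹ ^ (2 * k) * 2 ^ k * D ^ (2 * k) * Z ^ k) * (T ^ k * T ^ k) / T *
        (2 ^ (δ * E) * T ^ ε) := by gcongr
    _ = (C₁ * δ⁻¹ ^ (2 * k) * 2 ^ k * D ^ (2 * k) * 2 ^ (δ * E) * Z ^ k) * T ^ (2 * k) *
        T ^ (ε - 1) := by
        rw [hTT, h2k]
        ring
    _ ≤ _ := by
        gcongr
        linarith

end

end Pool.Agent.N879.SQ
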