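import Pool.Agent.N879.SQ.Stm

set_option autoImplicit false

/-! SQ/CZ: the long smooth sum against its limit, for separated shifts (helper91). -/

namespace Pool.Agent.N879.SQ

open Complex Filter Topology MeasureTheory Set
open Pool.Agent.TH612.CF Pool.Agent.TH612.GS Pool.Agent.TH757.GS
open Pool.Agent.W182.KO hiding ee SS_summable

noncomputable section

namespace Czaux

lemma kern {q w : ℂ} {y C E a b : ℝ} {Q : ℕ} (h : ‖q‖ * (1 + |y|) ^ (Q + 2) ≤ C * E)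
    (ha : 0 ≤ a) (hb : 0 ≤ b) (hw : ‖w‖ ≤ a + b * (2 * (1 + |y|)) ^ Q) :
    ‖q * w‖ ≤ (C * E * (a + 2 ^ Q * b)) * ((1 + |y|) ^ 2)⁻¹ := by
  obtain ⟨X, hX⟩ : ∃ X : ℝ, X = 1 + |y| := ⟨_, rfl⟩
  rw [← hX] at h hw ⊢
  have hX1 : 1 ≤ X := by rw [hX]; linarith [abs_nonneg y]
  have hXQ : 1 ≤ X ^ Q := one_le_pow₀ hX1
  rw [norm_mul, ← div_eq_mul_inv, le_div_iff₀ (by positivity)]
  have h1 : ‖w‖ ≤ (a + 2 ^ Q * b) * X ^ Q := by
    refine hw.trans ?_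
    rw [mul_pow]
    have h2 : a ≤ a * X ^ Q := le_mul_of_one_le_right ha hXQ
    calc a + b * (2 ^ Q * X ^ Q) ≤ a * X ^ Q + b * (2 ^ Q * X ^ Q) := by linarith
      _ = _ := by ring
  have h3 : 0 ≤ a + 2 ^ Q * b := by positivity
  calc ‖q‖ * ‖w‖ * X ^ 2 ≤ ‖q‖ * ((a + 2 ^ Q * b) * X ^ Q) * X ^ 2 := by gcongr
    _ = (‖q‖ * X ^ (Q + 2)) * (a + 2 ^ Q * b) := by rw [pow_add]; ring
    _ ≤ (C * E) * (a + 2 ^ Q * b) := mul_le_mul_of_nonneg_right h h3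

lemma pw {T M x : ℝ} {A : ℕ} (hT : 1 ≤ T) (hM : T ^ A ≤ M) (hx : 16 * x ≤ A) :
    M ^ (-(1 / 16) : ℝ) ≤ T ^ (-x) := by
  have hT0 : 0 < T := by linarith
  calc M ^ (-(1 / 16) : ℝ) ≤ (T ^ A) ^ (-(1 / 16) : ℝ) :=
        Real.rpow_le_rpow_of_nonpos (by positivity) hM (by norm_num)
    _ = T ^ ((A : ℝ) * (-(1 / 16))) := by rw [← Real.rpow_natCast, ← Real.rpow_mul hT0.le]
    _ ≤ T ^ (-x) := Real.rpow_le_rpow_of_exponent_le hT (by linarith)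

lemma int_bd {q w : ℝ → ℂ} {C E a b J : ℝ} {Q : ℕ} (hJ : J = ∫ y : ℝ, ((1 + |y|) ^ 2)⁻¹)
    (h : ∀ y, ‖q y‖ * (1 + |y|) ^ (Q + 2) ≤ C * E)
    (ha : 0 ≤ a) (hb : 0 ≤ b) (hw : ∀ y, ‖w y‖ ≤ a + b * (2 * (1 + |y|)) ^ Q) :
    ‖∫ y : ℝ, q y * w y‖ ≤ C * E * (a + 2 ^ Q * b) * J := by
  have hb' : Integrable (fun y : ℝ => (C * E * (a + 2 ^ Q * b)) * ((1 + |y|) ^ 2)⁻¹) :=
    one_add_inv_sq_int.const_mul _
  refine (norm_integral_le_of_norm_le hb'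
    (Eventually.of_forall fun y => kern (h y) ha hb (hw y))).trans ?_
  rw [integral_const_mul, ← hJ]

end Czaux

open Czaux

theorem t_CZ (h1 : S_SHP) (h2 : S_EMD) (h3 : S_DTP) : S_CZ := by
  intro k ψ hψ
  have h : CutR ψ := ⟨hψ.1, hψ.2.1, hψ.2.2.1, hψ.2.2.2⟩
  obtain ⟨P, hP⟩ := h3 k
  obtain ⟨A, hA⟩ : ∃ A : ℕ, A = max 8 (16 * (P + 1)) := ⟨_, rfl⟩
  have hA8 : 8 ≤ A := hA ▸ le_max_left _ _
  have hAP : 16 * (P + 1) ≤ A := hA ▸ le_max_right _ _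
  obtain ⟨C3, Q, hC3, hF3⟩ := hP (A + P + 1)
  obtain ⟨K, hK0, hK⟩ := h2 k
  obtain ⟨C1, hC1, -, hsh⟩ := h1 ψ Q hψ
  obtain ⟨C2, hC2, hker, -⟩ := h1 ψ (Q + 2) hψ
  obtain ⟨J, hJ⟩ : ∃ J : ℝ, J = ∫ y : ℝ, ((1 + |y|) ^ 2)⁻¹ := ⟨_, rfl⟩
  have hJ0 : 0 ≤ J := by
    rw [hJ]
    exact integral_nonneg fun _ => by positivity
  refine ⟨A, by omega, C2 * (K + 2 ^ Q * (2 * C3)) * J + C2 * (2 ^ Q * C3) * J + 1, 4,
    by positivity, le_rfl, ?_⟩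
  intro T M γ hT hMl hMu hγ
  have hT1 : 1 ≤ T := by linarith
  have hT0 : 0 < T := by linarith
  have hTA : 1 ≤ T ^ A := one_le_pow₀ hT1
  have hM1 : (1 : ℝ) ≤ M := hTA.trans hMl
  have hM0 : (0 : ℝ) < M := by linarith
  have hMN : 1 ≤ M := by exact_mod_cast hM1
  have hlogT : 1 ≤ Real.log T := by
    rw [Real.le_log_iff_exp_le hT0]
    have := Real.exp_one_lt_d9
    linarith
  have hlog : 8 ≤ Real.log M := by
    have e1 : Real.log (T ^ A) ≤ Real.log M := Real.log_le_log (by positivity) hMl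
    rw [Real.log_pow] at e1
    have e2 : (8 : ℝ) ≤ A := by exact_mod_cast hA8
    nlinarith
  obtain ⟨L, hL⟩ : ∃ L : ℝ, L = Real.log M / 2 := ⟨_, rfl⟩
  have hL4 : 4 ≤ L := by rw [hL]; linarith
  have hL0 : 0 < L := by linarith
  have hLC : (L : ℂ) ≠ 0 := by exact_mod_cast hL0.ne'
  obtain ⟨F0, hFd, hFb, hFD, hF00⟩ := hF3 T γ hT hγ
  obtain ⟨F, hF⟩ : ∃ F : ℂ → ℂ, F = fun w => F0 (w / (L : ℂ)) := ⟨_, rfl⟩
  have hre : ∀ w : ℂ, (w / (L : ℂ)).re = w.re / L := fun w => by rw [Complex.div_ofReal_re]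
  have hnm : ∀ w : ℂ, ‖w / (L : ℂ)‖ = ‖w‖ / L := fun w => by
    rw [norm_div, Complex.norm_real, Real.norm_of_nonneg hL0.le]
  have hnm' : ∀ w : ℂ, ‖w / (L : ℂ)‖ ≤ ‖w‖ := fun w => by
    rw [hnm]
    exact div_le_self (norm_nonneg _) (by linarith)
  have hd : DifferentiableOn ℂ F {s : ℂ | |s.re| < 3 / 8 * L} := by
    rw [hF]
    refine hFd.comp (by fun_prop) fun s hs => ?_
    show |(s / (L : ℂ)).re| < 3 / 8
    rw [hre, abs_div, abs_of_pos hL0, div_lt_iff₀ hL0]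
    exact hs
  have hTP : 0 ≤ C3 * T ^ P := by positivity
  have hB : ∀ s : ℂ, |s.re| ≤ L / 4 → ‖F s‖ ≤ C3 * T ^ P * (1 + ‖s‖) ^ Q := by
    intro s hs
    rw [hF]
    refine (hFb (s / (L : ℂ)) ?_).trans ?_
    · rw [hre, abs_div, abs_of_pos hL0, div_le_iff₀ hL0]
      linarith
    · have := hnm' s
      gcongr
  have hc : 1 ≤ L / 4 := by linarith
  obtain ⟨i2, i3, h5⟩ := hsh (L / 4) (3 / 8 * L) (C3 * T ^ P) F hc (by linarith) hd hB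
  have h6 := SP_int h M γ hL4 hL
  have hFz : F 0 = zr γ := by rw [hF]; simpa using hF00
  rw [hFz] at h5
  -- integrability
  have hEc : Continuous (fun y : ℝ => EM M γ ((((L / 4 : ℝ) : ℂ) + y * I) / (L : ℂ))) := by
    unfold EM
    refine continuous_finsetSum _ fun n hn => ?_
    exact continuous_const.mul (cp_cont (Finset.mem_Icc.1 hn).1)
  have hEb : ∀ y : ℝ, ‖EM M γ ((((L / 4 : ℝ) : ℂ) + y * I) / (L : ℂ))‖ ≤
      ∑ n ∈ Finset.Icc 1 M, ‖dr γ n‖ := by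
    intro y
    unfold EM
    refine norm_sum_le_of_le _ fun n hn => ?_
    rw [norm_mul]
    exact mul_le_of_le_one_right (norm_nonneg _) (cp_norm hL4 (Finset.mem_Icc.1 hn).1 y)
  have i1 := (int_Qk h hc hEc hEb).1
  have hrel : ∀ r y : ℝ, ((r : ℂ) + y * I).re = r := fun r y => by simp
  have hnl : ∀ r y : ℝ, |r| ≤ L / 4 → ‖((r : ℂ) + y * I) / (L : ℂ)‖ ≤ 1 + 2 * |y| := by
    intro r y hr
    rw [hnm, div_le_iff₀ hL0]
    have e1 : ‖(r : ℂ) + y * I‖ ≤ |r| + |y| := by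
      refine (norm_add_le _ _).trans ?_
      rw [norm_mul, Complex.norm_I, mul_one, Complex.norm_real, Complex.norm_real,
        Real.norm_eq_abs, Real.norm_eq_abs]
    have e2 := abs_nonneg y
    nlinarith
  have hcc : |L / 4| ≤ L / 4 := by rw [abs_of_pos (by linarith)]
  have hcn : |(-(L / 4))| ≤ L / 4 := by rw [abs_neg]; exact hcc
  have hpQ : ∀ r y : ℝ, |r| ≤ L / 4 →
      (1 + ‖((r : ℂ) + y * I) / (L : ℂ)‖) ^ Q ≤ (2 * (1 + |y|)) ^ Q := by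
    intro r y hr
    have := hnl r y hr
    exact pow_le_pow_left₀ (by positivity) (by linarith) Q
  -- the pointwise difference
  have hdif : ∀ y : ℝ, ‖EM M γ ((((L / 4 : ℝ) : ℂ) + y * I) / (L : ℂ)) -
      F (((L / 4 : ℝ) : ℂ) + y * I)‖ ≤ K * (M : ℝ) ^ (-(3 / 16) : ℝ) +
        C3 * T ^ P / T ^ (A + P + 1) * (2 * (1 + |y|)) ^ Q := by
    intro y
    have hs4 : ((((L / 4 : ℝ) : ℂ) + y * I) / (L : ℂ)).re = 1 / 4 := by
      rw [hre, hrel]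
      field_simp
    have e1 := hK γ M _ hMN hs4
    have e2 := hFD _ hs4
    have e3 := hpQ (L / 4) y hcc
    have e4 : F (((L / 4 : ℝ) : ℂ) + y * I) = F0 ((((L / 4 : ℝ) : ℂ) + y * I) / (L : ℂ)) := by
      rw [hF]
    rw [e4]
    have e5 : C3 * T ^ P * (1 + ‖(((L / 4 : ℝ) : ℂ) + y * I) / (L : ℂ)‖) ^ Q / T ^ (A + P + 1) ≤
        C3 * T ^ P / T ^ (A + P + 1) * (2 * (1 + |y|)) ^ Q := by
      rw [mul_div_right_comm]
      exact mul_le_mul_of_nonneg_left e3 (by positivity)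
    calc _ = ‖(EM M γ ((((L / 4 : ℝ) : ℂ) + y * I) / (L : ℂ)) -
          Dz γ ((((L / 4 : ℝ) : ℂ) + y * I) / (L : ℂ))) +
          (Dz γ ((((L / 4 : ℝ) : ℂ) + y * I) / (L : ℂ)) -
          F0 ((((L / 4 : ℝ) : ℂ) + y * I) / (L : ℂ)))‖ := by congr 1; ring
      _ ≤ _ := norm_add_le _ _
      _ ≤ _ := add_le_add e1 (e2.trans e5)
  -- the identity
  have e1 : 2 * Real.pi * (SP ψ M γ - zr γ) =
      (∫ y : ℝ, Qk ψ (((L / 4 : ℝ) : ℂ) + y * I) *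
        (EM M γ ((((L / 4 : ℝ) : ℂ) + y * I) / (L : ℂ)) - F (((L / 4 : ℝ) : ℂ) + y * I))) +
      ∫ y : ℝ, Qk ψ (((-(L / 4) : ℝ) : ℂ) + y * I) * F (((-(L / 4) : ℝ) : ℂ) + y * I) := by
    have e2 : ∫ y : ℝ, Qk ψ (((L / 4 : ℝ) : ℂ) + y * I) *
        (EM M γ ((((L / 4 : ℝ) : ℂ) + y * I) / (L : ℂ)) - F (((L / 4 : ℝ) : ℂ) + y * I)) =
        (∫ y : ℝ, Qk ψ (((L / 4 : ℝ) : ℂ) + y * I) *
          EM M γ ((((L / 4 : ℝ) : ℂ) + y * I) / (L : ℂ))) -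
        ∫ y : ℝ, Qk ψ (((L / 4 : ℝ) : ℂ) + y * I) * F (((L / 4 : ℝ) : ℂ) + y * I) := by
      rw [← integral_sub i1 i2]
      congr 1
      funext y
      ring
    rw [e2, ← h5, ← h6]
    ring
  -- powers
  have p1 : Real.exp (L / 4) = (M : ℝ) ^ (1 / 8 : ℝ) := by
    rw [Real.rpow_def_of_pos hM0, hL]
    congr 1
    ring
  have p2 : Real.exp (-(L / 4) / 2) = (M : ℝ) ^ (-(1 / 16) : ℝ) := by
    rw [Real.rpow_def_of_pos hM0, hL]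
    congr 1
    ring
  have p3 : (M : ℝ) ^ (1 / 8 : ℝ) * (M : ℝ) ^ (-(3 / 16) : ℝ) = (M : ℝ) ^ (-(1 / 16) : ℝ) := by
    rw [← Real.rpow_add hM0]
    norm_num
  have hA8R : (8 : ℝ) ≤ A := by exact_mod_cast hA8
  have hAPR : 16 * ((P : ℝ) + 1) ≤ A := by exact_mod_cast hAP
  have p4 : (M : ℝ) ^ (-(1 / 16) : ℝ) ≤ T ^ (-(1 / 2) : ℝ) := pw hT1 hMl (by linarith)
  have p5 : (M : ℝ) ^ (-(1 / 16) : ℝ) ≤ T ^ (-((P : ℝ) + 1)) := pw hT1 hMl hAPR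
  have p6 : (M : ℝ) ^ (1 / 8 : ℝ) ≤ M := by
    calc (M : ℝ) ^ (1 / 8 : ℝ) ≤ (M : ℝ) ^ (1 : ℝ) :=
          Real.rpow_le_rpow_of_exponent_le hM1 (by norm_num)
      _ = M := Real.rpow_one _
  have p7 : T⁻¹ ≤ T ^ (-(1 / 2) : ℝ) := by
    rw [← Real.rpow_neg_one]
    exact Real.rpow_le_rpow_of_exponent_le hT1 (by norm_num)
  have p8 : (M : ℝ) ^ (1 / 8 : ℝ) * (C3 * T ^ P / T ^ (A + P + 1)) ≤
      2 * C3 * T ^ (-(1 / 2) : ℝ) := by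
    have q1 : (M : ℝ) ^ (1 / 8 : ℝ) ≤ 2 * T ^ A := p6.trans hMu
    have q2 : 0 ≤ C3 * T ^ P / T ^ (A + P + 1) := by positivity
    calc _ ≤ 2 * T ^ A * (C3 * T ^ P / T ^ (A + P + 1)) := mul_le_mul_of_nonneg_right q1 q2
      _ = 2 * C3 * T⁻¹ := by
          rw [pow_add, pow_add, pow_one]
          field_simp
      _ ≤ _ := by gcongr
  have p9 : (M : ℝ) ^ (-(1 / 16) : ℝ) * (C3 * T ^ P) ≤ C3 * T ^ (-(1 / 2) : ℝ) := by
    have q2 : 0 ≤ C3 * T ^ P := by positivity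
    calc _ ≤ T ^ (-((P : ℝ) + 1)) * (C3 * T ^ P) := mul_le_mul_of_nonneg_right p5 q2
      _ = C3 * (T ^ (-((P : ℝ) + 1)) * T ^ (P : ℝ)) := by rw [Real.rpow_natCast]; ring
      _ = C3 * T⁻¹ := by
          rw [← Real.rpow_add hT0, ← Real.rpow_neg_one]
          congr 2
          ring
      _ ≤ _ := by gcongr
  -- the two integrals
  have n1 := int_bd (Q := Q) (C := C2) (E := Real.exp (L / 4))
    (a := K * (M : ℝ) ^ (-(3 / 16) : ℝ)) (b := C3 * T ^ P / T ^ (A + P + 1)) hJ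
    (q := fun y : ℝ => Qk ψ (((L / 4 : ℝ) : ℂ) + y * I))
    (w := fun y : ℝ => EM M γ ((((L / 4 : ℝ) : ℂ) + y * I) / (L : ℂ)) -
      F (((L / 4 : ℝ) : ℂ) + y * I))
    (fun y => (hker (L / 4) y hc).1) (by positivity) (by positivity) hdif
  have n2 := int_bd (Q := Q) (C := C2) (E := Real.exp (-(L / 4) / 2))
    (a := 0) (b := C3 * T ^ P) hJ
    (q := fun y : ℝ => Qk ψ (((-(L / 4) : ℝ) : ℂ) + y * I))
    (w := fun y : ℝ => F (((-(L / 4) : ℝ) : ℂ) + y * I))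
    (fun y => (hker (L / 4) y hc).2) le_rfl (by positivity) (fun y => by
      show ‖F (((-(L / 4) : ℝ) : ℂ) + y * I)‖ ≤ 0 + C3 * T ^ P * (2 * (1 + |y|)) ^ Q
      rw [hF, zero_add]
      refine (hFb _ ?_).trans ?_
      · rw [hre, hrel, abs_div, abs_of_pos hL0, div_le_iff₀ hL0]
        linarith
      · exact mul_le_mul_of_nonneg_left (hpQ _ y hcn) hTP)
  have m1 : C2 * Real.exp (L / 4) * (K * (M : ℝ) ^ (-(3 / 16) : ℝ) +
      2 ^ Q * (C3 * T ^ P / T ^ (A + P + 1))) * J ≤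
      C2 * (K + 2 ^ Q * (2 * C3)) * J * T ^ (-(1 / 2) : ℝ) := by
    have q1 : C2 * Real.exp (L / 4) * (K * (M : ℝ) ^ (-(3 / 16) : ℝ) +
        2 ^ Q * (C3 * T ^ P / T ^ (A + P + 1))) * J = C2 * (K * (M : ℝ) ^ (-(1 / 16) : ℝ) +
        2 ^ Q * ((M : ℝ) ^ (1 / 8 : ℝ) * (C3 * T ^ P / T ^ (A + P + 1)))) * J := by
      rw [← p3, p1]
      ring
    rw [q1]
    have q2 : K * (M : ℝ) ^ (-(1 / 16) : ℝ) +
        2 ^ Q * ((M : ℝ) ^ (1 / 8 : ℝ) * (C3 * T ^ P / T ^ (A + P + 1))) ≤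
        K * T ^ (-(1 / 2) : ℝ) + 2 ^ Q * (2 * C3 * T ^ (-(1 / 2) : ℝ)) := by gcongr
    calc _ ≤ C2 * (K * T ^ (-(1 / 2) : ℝ) + 2 ^ Q * (2 * C3 * T ^ (-(1 / 2) : ℝ))) * J := by
          gcongr
      _ = _ := by ring
  have m2 : C2 * Real.exp (-(L / 4) / 2) * (0 + 2 ^ Q * (C3 * T ^ P)) * J ≤
      C2 * (2 ^ Q * C3) * J * T ^ (-(1 / 2) : ℝ) := by
    have q1 : C2 * Real.exp (-(L / 4) / 2) * (0 + 2 ^ Q * (C3 * T ^ P)) * J =
        C2 * (2 ^ Q * ((M : ℝ) ^ (-(1 / 16) : ℝ) * (C3 * T ^ P))) * J := by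
      rw [p2]
      ring
    rw [q1]
    calc _ ≤ C2 * (2 ^ Q * (C3 * T ^ (-(1 / 2) : ℝ))) * J := by gcongr
      _ = _ := by ring
  -- conclusion
  have hpi := Real.pi_gt_three
  have n3 : ‖SP ψ M γ - zr γ‖ ≤ ‖2 * Real.pi * (SP ψ M γ - zr γ)‖ := by
    rw [norm_mul]
    have e : ‖(2 * Real.pi : ℂ)‖ = 2 * Real.pi := by
      rw [norm_mul, Complex.norm_real, Real.norm_of_nonneg (by linarith)]
      simp
    rw [e]
    have := norm_nonneg (SP ψ M γ - zr γ)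
    nlinarith
  rw [e1] at n3
  refine n3.trans ((norm_add_le _ _).trans ((add_le_add (n1.trans m1) (n2.trans m2)).trans ?_))
  have hT12 : 0 ≤ T ^ (-(1 / 2) : ℝ) := by positivity
  rw [← add_mul]
  exact mul_le_mul_of_nonneg_right (by linarith) hT12

end

end Pool.Agent.N879.SQ
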