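import Pool.Agent.N879.SQ.Stm

/-!
DTP: replacement of the series, near zero, by functions without poles in the strip
(helper150, job 13590). On the separated set the poles `s = -I u` of the factors are far from the
real axis, and each pole term `1 / (s + I u)` is replaced by its Taylor polynomial at `s = 0`.
-/

set_option autoImplicit false

namespace Pool.Agent.N879.SQ

open Complex Filter Topology MeasureTheory Set
open Pool.Agent.TH612.CF Pool.Agent.TH612.GS Pool.Agent.TH757.GS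
open scoped ContDiff

noncomputable section

variable {k : ℕ}

namespace Dtpaux

/-- the Taylor polynomial of `1 / (s + I u)` with `N` terms -/
def Rp (N : ℕ) (u : ℝ) (s : ℂ) : ℂ :=
  (I * (u : ℂ))⁻¹ * ∑ i ∈ Finset.range N, (-s / (I * (u : ℂ))) ^ i

lemma Rp_diff (N : ℕ) (u : ℝ) : Differentiable ℂ (Rp N u) := by
  unfold Rp
  refine Differentiable.const_mul (Differentiable.fun_sum fun i _ => ?_) _
  exact ((differentiable_id.neg).div_const _).pow i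

lemma nIu (u : ℝ) : ‖I * (u : ℂ)‖ = |u| := by
  rw [norm_mul, norm_I, one_mul, norm_real, Real.norm_eq_abs]

lemma Rp_eq (N : ℕ) {u : ℝ} (hu : u ≠ 0) {s : ℂ} (hs : s + I * (u : ℂ) ≠ 0) :
    1 / (s + I * (u : ℂ)) - Rp N u s = (-s / (I * (u : ℂ))) ^ N / (s + I * (u : ℂ)) := by
  have h0 : (I * (u : ℂ)) ≠ 0 := mul_ne_zero I_ne_zero (by exact_mod_cast hu)
  have h1 := geom_sum_mul_neg (-s / (I * (u : ℂ))) N
  have h2 : 1 - (-s / (I * (u : ℂ))) = (s + I * (u : ℂ)) / (I * (u : ℂ)) := by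
    rw [eq_div_iff h0, sub_mul, div_mul_cancel₀ _ h0]
    ring
  rw [h2] at h1
  have h3 : Rp N u s = (1 - (-s / (I * (u : ℂ))) ^ N) / (s + I * (u : ℂ)) := by
    rw [← h1, eq_div_iff hs]
    unfold Rp
    rw [div_eq_mul_inv (s + I * (u : ℂ))]
    ring
  rw [h3]
  ring

lemma Rp_le (N : ℕ) {u : ℝ} (hu : 1 ≤ |u|) (s : ℂ) : ‖Rp N u s‖ ≤ N * (1 + ‖s‖) ^ N := by
  unfold Rp
  rw [norm_mul, norm_inv, nIu]
  have h2 : ‖∑ i ∈ Finset.range N, (-s / (I * (u : ℂ))) ^ i‖ ≤ N * (1 + ‖s‖) ^ N := by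
    refine (norm_sum_le_of_le (n := fun _ => (1 + ‖s‖) ^ N) _ fun i hi => ?_).trans ?_
    · rw [norm_pow, norm_div, norm_neg, nIu]
      have h3 : ‖s‖ / |u| ≤ 1 + ‖s‖ := by
        have := div_le_self (norm_nonneg s) hu
        linarith
      calc (‖s‖ / |u|) ^ i ≤ (1 + ‖s‖) ^ i := by gcongr
        _ ≤ _ := pow_le_pow_right₀ (by linarith [norm_nonneg s]) (Finset.mem_range.1 hi).le
    · rw [Finset.sum_const, Finset.card_range, nsmul_eq_mul]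
  have h3 : |u|⁻¹ ≤ 1 := inv_le_one_of_one_le₀ hu
  calc _ ≤ 1 * (N * (1 + ‖s‖) ^ N) := by gcongr
    _ = _ := one_mul _

/-- one factor without its pole -/
def Hf (Zt : ℂ → ℂ) (N : ℕ) (u : ℝ) (s : ℂ) : ℂ := Zt (1 + s + I * (u : ℂ)) + Rp N u s

lemma Hf_diff {Zt : ℂ → ℂ} (hZ : Differentiable ℂ Zt) (N : ℕ) (u : ℝ) :
    Differentiable ℂ (Hf Zt N u) := by
  unfold Hf
  exact (hZ.comp (by fun_prop : Differentiable ℂ fun s : ℂ => 1 + s + I * (u : ℂ))).add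
    (Rp_diff N u)

lemma Hf_le {Zt : ℂ → ℂ} {C : ℝ} (hC : 0 < C)
    (hZ : ∀ w : ℂ, 1 / 2 ≤ w.re → w.re ≤ 2 → ‖Zt w‖ ≤ C * (1 + ‖w‖) ^ 2) (N : ℕ) {T u : ℝ}
    (hT : 1 ≤ T) (hu : 1 ≤ |u|) (huT : |u| ≤ T) {s : ℂ} (hs : |s.re| ≤ 1 / 4) :
    ‖Hf Zt N u s‖ ≤ (9 * C + N) * T ^ 2 * (1 + ‖s‖) ^ (N + 2) := by
  have e : (1 + s + I * (u : ℂ)).re = 1 + s.re := by simp
  have h1 := hZ (1 + s + I * (u : ℂ))
    (by rw [e]; have := (abs_le.1 hs).1; linarith)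
    (by rw [e]; have := (abs_le.1 hs).2; linarith)
  have hs0 := norm_nonneg s
  have h2 : ‖1 + s + I * (u : ℂ)‖ ≤ 1 + ‖s‖ + T := by
    refine (norm_add_le _ _).trans ?_
    have h3 : ‖I * (u : ℂ)‖ ≤ T := by
      rw [nIu]
      exact huT
    have h4 : ‖1 + s‖ ≤ 1 + ‖s‖ := by
      refine (norm_add_le _ _).trans ?_
      rw [norm_one]
    linarith
  obtain ⟨x, hx⟩ : ∃ x : ℝ, x = ‖s‖ := ⟨_, rfl⟩
  have h7 := Rp_le N hu s
  rw [← hx] at h2 hs0 h7 ⊢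
  have h3 : C * (1 + ‖1 + s + I * (u : ℂ)‖) ^ 2 ≤ 9 * C * T ^ 2 * (1 + x) ^ (N + 2) := by
    have h4 : 1 + ‖1 + s + I * (u : ℂ)‖ ≤ 3 * T * (1 + x) := by nlinarith
    calc C * (1 + ‖1 + s + I * (u : ℂ)‖) ^ 2 ≤ C * (3 * T * (1 + x)) ^ 2 := by gcongr
      _ = 9 * C * T ^ 2 * (1 + x) ^ 2 := by ring
      _ ≤ _ := by
        refine mul_le_mul_of_nonneg_left ?_ (by positivity)
        exact pow_le_pow_right₀ (by linarith) (by omega)
  have h5 : (N : ℝ) * (1 + x) ^ N ≤ N * T ^ 2 * (1 + x) ^ (N + 2) := by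
    have h6 : (1 + x) ^ N ≤ (1 + x) ^ (N + 2) := pow_le_pow_right₀ (by linarith) (by omega)
    have h8 : (1 : ℝ) ≤ T ^ 2 := one_le_pow₀ hT
    calc (N : ℝ) * (1 + x) ^ N ≤ N * (1 + x) ^ (N + 2) := by gcongr
      _ = N * 1 * (1 + x) ^ (N + 2) := by ring
      _ ≤ _ := by gcongr
  calc ‖Hf Zt N u s‖ ≤ ‖Zt (1 + s + I * (u : ℂ))‖ + ‖Rp N u s‖ := norm_add_le _ _
    _ ≤ 9 * C * T ^ 2 * (1 + x) ^ (N + 2) + N * T ^ 2 * (1 + x) ^ (N + 2) := by linarith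
    _ = _ := by ring

lemma Hf_sub {Zt : ℂ → ℂ} (hZ : ∀ w : ℂ, w ≠ 1 → riemannZeta w = Zt w + 1 / (w - 1)) (N : ℕ)
    {u : ℝ} (hu : u ≠ 0) {s : ℂ} (hs : s + I * (u : ℂ) ≠ 0) :
    riemannZeta (1 + s + I * (u : ℂ)) - Hf Zt N u s =
      (-s / (I * (u : ℂ))) ^ N / (s + I * (u : ℂ)) := by
  have h1 : (1 + s + I * (u : ℂ)) ≠ 1 := by
    intro h
    apply hs
    linear_combination h
  have h2 : 1 + s + I * (u : ℂ) - 1 = s + I * (u : ℂ) := by ring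
  rw [hZ _ h1, h2, ← Rp_eq N hu hs]
  unfold Hf
  ring

lemma Hf_sub_le {Zt : ℂ → ℂ} (hZ : ∀ w : ℂ, w ≠ 1 → riemannZeta w = Zt w + 1 / (w - 1)) (B : ℕ)
    {T u : ℝ} (hT : 1 ≤ T) (hu : T ≤ |u| ^ 2) {s : ℂ} (hs : s.re = 1 / 4) :
    ‖riemannZeta (1 + s + I * (u : ℂ)) - Hf Zt (2 * B + 1) u s‖ ≤
      4 * (1 + ‖s‖) ^ (2 * B + 1) / T ^ B := by
  have hu1 : 1 ≤ |u| := by
    by_contra hc
    push Not at hc
    nlinarith [abs_nonneg u]
  have hu0 : u ≠ 0 := by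
    rintro rfl
    norm_num at hu1
  have hre : (s + I * (u : ℂ)).re = 1 / 4 := by simp [hs]
  have h1 : 1 / 4 ≤ ‖s + I * (u : ℂ)‖ := by
    rw [← hre]
    exact (le_abs_self _).trans (Complex.abs_re_le_norm _)
  have h0 : s + I * (u : ℂ) ≠ 0 := by
    intro h
    rw [h, norm_zero] at h1
    norm_num at h1
  have hs0 := norm_nonneg s
  rw [Hf_sub hZ _ hu0 h0, norm_div, norm_pow, norm_div, norm_neg, nIu]
  have hup : 0 < |u| := by linarith
  have hT0 : 0 < T := by linarith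
  have h2 : (‖s‖ / |u|) ^ (2 * B + 1) ≤ (1 + ‖s‖) ^ (2 * B + 1) / T ^ B := by
    rw [div_pow]
    have h3 : T ^ B ≤ |u| ^ (2 * B + 1) := by
      calc T ^ B ≤ (|u| ^ 2) ^ B := by gcongr
        _ = |u| ^ (2 * B) := by rw [← pow_mul]
        _ ≤ _ := pow_le_pow_right₀ hu1 (by omega)
    have h4 : ‖s‖ ^ (2 * B + 1) ≤ (1 + ‖s‖) ^ (2 * B + 1) := by
      gcongr
      linarith
    gcongr
  rw [div_le_iff₀ (by linarith)]
  have h5 : 0 ≤ (1 + ‖s‖) ^ (2 * B + 1) / T ^ B := by positivity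
  calc (‖s‖ / |u|) ^ (2 * B + 1) ≤ (1 + ‖s‖) ^ (2 * B + 1) / T ^ B := h2
    _ = 4 * ((1 + ‖s‖) ^ (2 * B + 1) / T ^ B) * (1 / 4) := by ring
    _ ≤ 4 * ((1 + ‖s‖) ^ (2 * B + 1) / T ^ B) * ‖s + I * (u : ℂ)‖ := by gcongr
    _ = _ := by ring

/-- the replacement -/
def Ff (Zt : ℂ → ℂ) (N : ℕ) (γ : Fin k ⊕ Fin k → ℝ) (s : ℂ) : ℂ :=
  FH (as γ s) (bs γ s) *
    ∏ j : Fin k, ∏ l : Fin k, Hf Zt N (γ (Sum.inl j) - γ (Sum.inr l)) s

lemma Ff_diff {Zt : ℂ → ℂ} (hZ : Differentiable ℂ Zt) (N : ℕ) (γ : Fin k ⊕ Fin k → ℝ) :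
    DifferentiableOn ℂ (Ff Zt N γ) {s : ℂ | |s.re| < 3 / 8} := by
  have hU : IsOpen {s : ℂ | |s.re| < 3 / 8} :=
    isOpen_lt (continuous_abs.comp Complex.continuous_re) continuous_const
  have h1 := FH_diff (a := fun s => as γ s) (b := fun s => bs γ s) (c := 3 / 16) hU (by norm_num)
    (fun j => by unfold as; fun_prop) (fun j => by unfold bs; fun_prop)
    (fun s hs => Tb_as γ (by
      have hs' : |s.re| < 3 / 8 := hs
      linarith))
  have h2 : DifferentiableOn ℂ (fun s : ℂ => ∏ j : Fin k, ∏ l : Fin k,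
      Hf Zt N (γ (Sum.inl j) - γ (Sum.inr l)) s) {s : ℂ | |s.re| < 3 / 8} := by
    intro s hs
    refine DifferentiableWithinAt.fun_finsetProd fun j _ => ?_
    refine DifferentiableWithinAt.fun_finsetProd fun l _ => ?_
    exact (Hf_diff hZ N _).differentiableAt.differentiableWithinAt
  exact h1.mul h2

end Dtpaux

open Dtpaux in
theorem t_DTP (h : S_ZT) : S_DTP := by
  obtain ⟨Zt, hd, hz, C0, hC0, hb⟩ := h
  intro k
  refine ⟨2 * (k * k), fun B => ?_⟩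
  obtain ⟨N, hN⟩ : ∃ N : ℕ, N = 2 * B + 1 := ⟨_, rfl⟩
  have hBF : 0 < BF k (1 / 8) := Real.exp_pos _
  have hZ0 := Z0_nonneg
  obtain ⟨K, hK⟩ : ∃ K : ℝ, K = 9 * C0 + N + 1 + Z0 := ⟨_, rfl⟩
  have hK1 : 1 ≤ K := by
    rw [hK]
    have : (0 : ℝ) ≤ N := Nat.cast_nonneg N
    linarith
  have hK0 : 0 < K := by linarith
  refine ⟨BF k (1 / 8) * K ^ (k * k) * (4 * (k * k : ℕ) + 1), (N + 2) * (k * k) + N,
    by positivity, ?_⟩
  intro T γ hT hγ
  have hT1 : 1 ≤ T := by linarith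
  have hT0 : 0 < T := by linarith
  -- the differences
  have hu : ∀ j l : Fin k, T ≤ |γ (Sum.inl j) - γ (Sum.inr l)| ^ 2 := by
    intro j l
    have h1 := hγ.2 (Sum.inl j) (Sum.inr l) (by simp)
    have h2 : (T ^ (1 / 2 : ℝ)) ^ 2 = T := by
      rw [← Real.rpow_natCast, ← Real.rpow_mul hT0.le]
      norm_num
    calc T = (T ^ (1 / 2 : ℝ)) ^ 2 := h2.symm
      _ ≤ _ := by gcongr
  have hu1 : ∀ j l : Fin k, 1 ≤ |γ (Sum.inl j) - γ (Sum.inr l)| := by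
    intro j l
    have h1 := hu j l
    by_contra hc
    push Not at hc
    nlinarith [abs_nonneg (γ (Sum.inl j) - γ (Sum.inr l))]
  have huT : ∀ j l : Fin k, |γ (Sum.inl j) - γ (Sum.inr l)| ≤ T := by
    intro j l
    have h1 := hγ.1 (Sum.inl j)
    have h2 := hγ.1 (Sum.inr l)
    rw [abs_le]
    constructor <;> linarith [h1.1, h1.2, h2.1, h2.2]
  -- bound for one factor
  have hH : ∀ (j l : Fin k) (s : ℂ), |s.re| ≤ 1 / 4 →
      ‖Hf Zt N (γ (Sum.inl j) - γ (Sum.inr l)) s‖ ≤ K * T ^ 2 * (1 + ‖s‖) ^ (N + 2) := by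
    intro j l s hs
    refine (Hf_le hC0 hb N hT1 (hu1 j l) (huT j l) hs).trans ?_
    have h1 : 9 * C0 + N ≤ K := by
      rw [hK]
      linarith
    have hs0 := norm_nonneg s
    gcongr
  refine ⟨Ff Zt N γ, Ff_diff hd N γ, fun s hs => ?_, fun s hs => ?_, ?_⟩
  · -- growth
    have hs0 := norm_nonneg s
    have hTb : Tb (1 / 8) (as γ s) (bs γ s) := Tb_as γ (by linarith)
    have h1 : ‖FH (as γ s) (bs γ s)‖ ≤ BF k (1 / 8) := FH_le (by norm_num) hTb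
    have h2 : ‖∏ j : Fin k, ∏ l : Fin k, Hf Zt N (γ (Sum.inl j) - γ (Sum.inr l)) s‖ ≤
        (K * T ^ 2 * (1 + ‖s‖) ^ (N + 2)) ^ (k * k) := by
      rw [← Fintype.prod_prod_type (f := fun x : Fin k × Fin k =>
        Hf Zt N (γ (Sum.inl x.1) - γ (Sum.inr x.2)) s), norm_prod]
      refine (Finset.prod_le_prod (fun _ _ => norm_nonneg _)
        (g := fun _ => K * T ^ 2 * (1 + ‖s‖) ^ (N + 2)) (fun x _ => hH x.1 x.2 s hs)).trans ?_
      rw [Finset.prod_const, Finset.card_univ, Fintype.card_prod, Fintype.card_fin]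
    have h3 : ‖Ff Zt N γ s‖ ≤ BF k (1 / 8) * (K * T ^ 2 * (1 + ‖s‖) ^ (N + 2)) ^ (k * k) := by
      unfold Ff
      rw [norm_mul]
      gcongr
    refine h3.trans ?_
    have e1 : (K * T ^ 2 * (1 + ‖s‖) ^ (N + 2)) ^ (k * k) =
        K ^ (k * k) * T ^ (2 * (k * k)) * (1 + ‖s‖) ^ ((N + 2) * (k * k)) := by
      rw [mul_pow, mul_pow, ← pow_mul, ← pow_mul]
    rw [e1]
    have h4 : (1 + ‖s‖) ^ ((N + 2) * (k * k)) ≤ (1 + ‖s‖) ^ ((N + 2) * (k * k) + N) :=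
      pow_le_pow_right₀ (by linarith) (by omega)
    have h5 : (1 : ℝ) ≤ 4 * (k * k : ℕ) + 1 := by
      have : (0 : ℝ) ≤ ((k * k : ℕ) : ℝ) := Nat.cast_nonneg _
      linarith
    calc BF k (1 / 8) * (K ^ (k * k) * T ^ (2 * (k * k)) * (1 + ‖s‖) ^ ((N + 2) * (k * k)))
        = BF k (1 / 8) * K ^ (k * k) * 1 * T ^ (2 * (k * k)) *
          (1 + ‖s‖) ^ ((N + 2) * (k * k)) := by ring
      _ ≤ BF k (1 / 8) * K ^ (k * k) * (4 * (k * k : ℕ) + 1) * T ^ (2 * (k * k)) *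
          (1 + ‖s‖) ^ ((N + 2) * (k * k) + N) := by gcongr
  · -- the difference on the line
    have hs0 := norm_nonneg s
    have hs' : |s.re| ≤ 1 / 4 := by
      rw [hs]
      norm_num
    have hTb : Tb (1 / 8) (as γ s) (bs γ s) := Tb_as γ (by linarith)
    have h1 : ‖FH (as γ s) (bs γ s)‖ ≤ BF k (1 / 8) := FH_le (by norm_num) hTb
    have hre : ∀ u : ℝ, (1 + s + I * (u : ℂ)).re = 5 / 4 := by
      intro u
      have e : (1 + s + I * (u : ℂ)).re = 1 + s.re := by simp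
      rw [e, hs]
      norm_num
    have hp1 : (1 : ℝ) ≤ (1 + ‖s‖) ^ (N + 2) := one_le_pow₀ (by linarith)
    have hp2 : (1 : ℝ) ≤ T ^ 2 := one_le_pow₀ hT1
    have hZ1 : 1 ≤ K * T ^ 2 * (1 + ‖s‖) ^ (N + 2) :=
      one_le_mul_of_one_le_of_one_le (one_le_mul_of_one_le_of_one_le hK1 hp2) hp1
    have h2 := prod_sub_le (Finset.univ : Finset (Fin k × Fin k))
      (fun x => riemannZeta (1 + s + I * ((γ (Sum.inl x.1) - γ (Sum.inr x.2) : ℝ) : ℂ)))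
      (fun x => Hf Zt N (γ (Sum.inl x.1) - γ (Sum.inr x.2)) s)
      (Z := K * T ^ 2 * (1 + ‖s‖) ^ (N + 2)) (e := 4 * (1 + ‖s‖) ^ N / T ^ B) hZ1
      (by positivity)
      (fun x _ => by
        refine ((zt (hre _)).1).trans ?_
        have h3 : Z0 ≤ K := by
          rw [hK]
          have : (0 : ℝ) ≤ N := Nat.cast_nonneg N
          linarith
        calc Z0 ≤ K := h3
          _ = K * 1 * 1 := by ring
          _ ≤ _ := by gcongr)
      (fun x _ => hH x.1 x.2 s hs')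
      (fun x _ => by
        rw [hN]
        exact Hf_sub_le hz B hT1 (hu x.1 x.2) hs)
    rw [Fintype.prod_prod_type, Fintype.prod_prod_type, Finset.card_univ, Fintype.card_prod,
      Fintype.card_fin] at h2
    have e0 : Dz γ s = FH (as γ s) (bs γ s) * ∏ j : Fin k, ∏ l : Fin k,
        riemannZeta (1 + s + I * ((γ (Sum.inl j) - γ (Sum.inr l) : ℝ) : ℂ)) := by
      unfold Dz
      simp only [Complex.ofReal_sub]
    have e1 : Dz γ s - Ff Zt N γ s = FH (as γ s) (bs γ s) *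
        (∏ j : Fin k, ∏ l : Fin k,
          riemannZeta (1 + s + I * ((γ (Sum.inl j) - γ (Sum.inr l) : ℝ) : ℂ)) -
        ∏ j : Fin k, ∏ l : Fin k, Hf Zt N (γ (Sum.inl j) - γ (Sum.inr l)) s) := by
      rw [e0]
      unfold Ff
      ring
    rw [e1, norm_mul]
    have e2 : (K * T ^ 2 * (1 + ‖s‖) ^ (N + 2)) ^ (k * k) =
        K ^ (k * k) * T ^ (2 * (k * k)) * (1 + ‖s‖) ^ ((N + 2) * (k * k)) := by
      rw [mul_pow, mul_pow, ← pow_mul, ← pow_mul]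
    rw [e2] at h2
    refine (mul_le_mul h1 h2 (norm_nonneg _) hBF.le).trans ?_
    have e3 : BF k (1 / 8) * (((k * k : ℕ) : ℝ) *
        (K ^ (k * k) * T ^ (2 * (k * k)) * (1 + ‖s‖) ^ ((N + 2) * (k * k))) *
        (4 * (1 + ‖s‖) ^ N / T ^ B)) =
        BF k (1 / 8) * K ^ (k * k) * (4 * ((k * k : ℕ) : ℝ)) * T ^ (2 * (k * k)) *
          (1 + ‖s‖) ^ ((N + 2) * (k * k) + N) / T ^ B := by
      rw [pow_add]
      ring
    rw [e3]
    have h5 : 4 * ((k * k : ℕ) : ℝ) ≤ 4 * (k * k : ℕ) + 1 := by linarith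
    gcongr
  · -- the value at zero
    unfold Ff zr zab
    have ea : as γ 0 = fun j => (γ (Sum.inl j) : ℂ) := by
      funext j
      unfold as
      simp
    have eb : bs γ 0 = fun j => (γ (Sum.inr j) : ℂ) := by
      funext j
      unfold bs
      simp
    rw [ea, eb]
    congr 1
    refine Finset.prod_congr rfl fun j _ => Finset.prod_congr rfl fun l _ => ?_
    have hu0 : γ (Sum.inl j) - γ (Sum.inr l) ≠ 0 := by
      intro h0
      have := hu1 j l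
      rw [h0] at this
      norm_num at this
    have h0 : (0 : ℂ) + I * ((γ (Sum.inl j) - γ (Sum.inr l) : ℝ) : ℂ) ≠ 0 := by
      rw [zero_add]
      exact mul_ne_zero I_ne_zero (by exact_mod_cast hu0)
    have h1 := Hf_sub hz N hu0 h0
    have hN0 : N ≠ 0 := by omega
    rw [neg_zero, zero_div, zero_pow hN0, zero_div, sub_eq_zero] at h1
    rw [← h1]
    congr 1
    push_cast
    ring

end

end Pool.Agent.N879.SQ
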