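import Pool.Agent.N879.SQ.Stm

/-!
Project SQ, part EMD: the finite against the infinite series.
-/

set_option autoImplicit false

namespace Pool.Agent.N879.SQ

open Complex Filter Topology MeasureTheory Set
open Pool.Agent.TH612.CF Pool.Agent.TH612.GS Pool.Agent.TH757.GS

theorem t_EMD : S_EMD := by
  intro k
  obtain ⟨D, hD0, hD⟩ := dr_le k
  refine ⟨D * Z0, mul_nonneg hD0 Z0_nonneg, fun γ M s hM hs => ?_⟩
  have hT : Tb (1 / 8) (as γ s) (bs γ s) := Tb_as γ (by rw [hs]; norm_num)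
  have h1 := zh_eq (a := as γ s) (b := bs γ s) (c := 1 / 8) (δ := 1 / 8) (by norm_num) hT
    (by norm_num) (fun j => by
      rw [as_im, bs_im, hs]
      constructor <;> norm_num)
  have hf : ∀ n : ℕ, 1 ≤ n → ‖dg (as γ s) (bs γ s) n‖ ≤ D * (n : ℝ) ^ (-(39 / 32) : ℝ) := by
    intro n hn
    have hn0 : (0 : ℝ) < n := by exact_mod_cast hn
    rw [dg_as γ s n (by omega), norm_mul, Complex.norm_natCast_cpow_of_pos hn, Complex.neg_re, hs]
    have e : (n : ℝ) ^ (-(39 / 32) : ℝ) = (n : ℝ) ^ (-(31 / 32) : ℝ) * (n : ℝ) ^ (-(1 / 4) : ℝ) := by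
      rw [← Real.rpow_add hn0]
      norm_num
    rw [e, ← mul_assoc]
    exact mul_le_mul_of_nonneg_right (hD γ n hn) (by positivity)
  obtain ⟨_, _, _, h2⟩ := tl hD0 (dg_zero (as γ s) (bs γ s)) hf
  have h3 := h2 M hM
  have e1 : ∑ n ∈ Finset.Icc 1 M, dg (as γ s) (bs γ s) n = EM M γ s := by
    unfold EM
    refine Finset.sum_congr rfl fun n hn => ?_
    rw [dg_as γ s n (by have := (Finset.mem_Icc.1 hn).1; omega)]
  rw [e1, ← h1] at h3
  have e2 : ∀ j l, 1 + I * as γ s j - I * bs γ s l =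
      1 + s + I * ((γ (Sum.inl j) : ℂ) - (γ (Sum.inr l) : ℂ)) := by
    intro j l
    unfold as bs
    linear_combination (-s) * I_mul_I
  simp only [e2] at h3
  rw [norm_sub_rev]
  exact h3

end Pool.Agent.N879.SQ
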