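import Pool.Agent.N879.SQ.Stm1
import Pool.Agent.N879.SQ.Asm1
import Pool.Agent.TH521.GS.Rep
import Pool.Agent.TH570.GS.SM
import Pool.Agent.TH811.GS.One
import Pool.Agent.TH928.GS.MV

set_option autoImplicit false

/-! Project SQ, part MID: mean squares over all intervals, diagonal version (helper701). -/

namespace Pool.Agent.N879.SQ

open Complex Filter Topology MeasureTheory Set
open Pool.Agent.TH612.CF Pool.Agent.TH612.GS Pool.Agent.TH757.GS
open scoped ContDiff

noncomputable section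

variable {k : ℕ}

namespace Midaux

lemma int_sh {a T : ℝ} (ha : 0 ≤ a) (haT : a ≤ T) (G : (Fin k ⊕ Fin k → ℝ) → ENNReal) :
    ∫⁻ γ, G (sh γ a) ∂(mP (Fin k ⊕ Fin k) T) ≤ ∫⁻ γ, G γ ∂(mP (Fin k ⊕ Fin k) (2 * T)) := by
  rw [mP_eq, mP_eq]
  have hm1 : MeasurableSet (univ.pi fun _ : Fin k ⊕ Fin k => Icc (0 : ℝ) T) :=
    MeasurableSet.univ_pi fun _ => measurableSet_Icc
  have hm2 : MeasurableSet (univ.pi fun _ : Fin k ⊕ Fin k => Icc (0 : ℝ) (2 * T)) :=
    MeasurableSet.univ_pi fun _ => measurableSet_Icc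
  rw [← lintegral_indicator hm1, ← lintegral_indicator hm2,
    ← lintegral_add_right_eq_self
      ((univ.pi fun _ : Fin k ⊕ Fin k => Icc (0 : ℝ) (2 * T)).indicator fun γ => G γ)
      (fun _ => a)]
  refine lintegral_mono fun γ => ?_
  by_cases h : γ ∈ univ.pi fun _ : Fin k ⊕ Fin k => Icc (0 : ℝ) T
  · have h2 : γ + (fun _ => a) ∈ univ.pi fun _ : Fin k ⊕ Fin k => Icc (0 : ℝ) (2 * T) := by
      intro i hi
      have h3 := h i hi
      rw [mem_Icc] at h3 ⊢
      simp only [Pi.add_apply]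
      constructor <;> linarith [h3.1, h3.2]
    rw [indicator_of_mem h, indicator_of_mem h2]
    rfl
  · rw [indicator_of_notMem h]
    exact zero_le

lemma sh_cont (a : ℝ) : Continuous fun γ : Fin k ⊕ Fin k → ℝ => sh γ a := by
  unfold sh
  fun_prop

lemma sh_mem {a T : ℝ} (ha : 0 ≤ a) (haT : a ≤ T) {γ : Fin k ⊕ Fin k → ℝ} (hγ : γ ∈ Sep2 k T) :
    sh γ a ∈ Sep k (2 * T) := by
  refine ⟨fun i => ?_, fun p q hpq => ?_⟩
  · have := hγ.1 i
    unfold sh
    constructor <;> linarith [this.1, this.2]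
  · have := hγ.2 p q hpq
    unfold sh
    rw [add_sub_add_right_eq_sub]
    exact this

lemma sep2_sep {T : ℝ} (hT : 0 ≤ T) {γ : Fin k ⊕ Fin k → ℝ} (hγ : γ ∈ Sep2 k T) :
    γ ∈ Sep k T := by
  refine ⟨hγ.1, fun p q hpq => le_trans ?_ (hγ.2 p q hpq)⟩
  exact Real.rpow_le_rpow hT (by linarith) (by norm_num)

lemma int_fd (h2 : S_TRD) (γ : Fin k ⊕ Fin k → ℝ) (a b : ℝ) :
    ∫ t in a..b, fd γ t = ∫ t in (0 : ℝ)..(b - a), fd (sh γ a) t := by
  simp only [h2 k γ a]
  rw [intervalIntegral.integral_comp_add_right (fun t => fd γ t) a, zero_add, sub_add_cancel]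

end Midaux

open Midaux

set_option maxHeartbeats 8000000 in
theorem t_MID (h1 : S_MSD) (h2 : S_TRD) : S_MID := by
  intro k ε hε
  obtain ⟨C1, T1, hC1, hT1, H1⟩ := h1 k ε hε
  obtain ⟨C2, T2, hC2, hT2, H2⟩ := Pool.Agent.TH612.GS.t_Z2 Pool.Agent.TH521.GS.t_REP2
    Pool.Agent.TH570.GS.t_SM k
  obtain ⟨C7, T7, hC7, hT7, H7⟩ := Pool.Agent.TH811.GS.t_ONE Pool.Agent.TH928.GS.t_MV
  have ev1 := log_ev (2 * C2) (2 * k) hε
  have ev2 := log_ev (2 * ((BF k (1 / 8)) ^ 2 * C7 ^ (2 * k ^ 2))) (2 * k ^ 2) hε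
  obtain ⟨Te, hTe⟩ := eventually_atTop.1 (ev1.and ev2)
  refine ⟨C1 * 2 ^ (2 * k) * 2 ^ ε + 2, max 4 (max Te (max T1 (max T2 T7))), by positivity,
    le_max_left _ _, fun T hT => ?_⟩
  have hT4 : 4 ≤ T := (le_max_left _ _).trans hT
  have hT' := (le_max_right _ _).trans hT
  have hTTe : Te ≤ T := (le_max_left _ _).trans hT'
  have hT'' := (le_max_right _ _).trans hT'
  have hTT1 : T1 ≤ T := (le_max_left _ _).trans hT''
  have hT3 := (le_max_right _ _).trans hT''
  have hTT2 : T2 ≤ T := (le_max_left _ _).trans hT3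
  have hTT7 : T7 ≤ T := (le_max_right _ _).trans hT3
  have hTp : 0 < T := by linarith
  have hTge1 : 1 ≤ T := by linarith
  obtain ⟨l1, l2⟩ := hTe T hTTe
  have hTk : 0 < T ^ (2 * k) := by positivity
  have hTe0 : 1 ≤ T ^ ε := Real.one_le_rpow hTge1 hε.le
  refine ⟨fun a b ha hab hbT => ?_, fun a b ha hab hbT hb1 => ?_⟩
  · -- the first part
    obtain ⟨G0, hm, hG1, hG2⟩ := H1 (2 * T) (b - a) (by linarith) (by linarith) (by linarith)
    refine ⟨fun γ => G0 (sh γ a), hm.comp (sh_cont a).measurable, fun γ hγ => ?_, ?_⟩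
    · rw [int_fd h2]
      exact hG1 _ (sh_mem ha (hab.trans hbT) hγ)
    · refine (int_sh ha (hab.trans hbT) G0).trans (hG2.trans (ENNReal.ofReal_le_ofReal ?_))
      have e1 : (2 * T) ^ ε = 2 ^ ε * T ^ ε := Real.mul_rpow (by norm_num) hTp.le
      have hba : 0 ≤ b - a := by linarith
      rw [e1, mul_pow]
      have h0 : 0 ≤ 2 * T ^ (2 * k) * T ^ ε * (b - a) := by positivity
      calc C1 * (b - a) * (2 ^ (2 * k) * T ^ (2 * k)) * (2 ^ ε * T ^ ε) =
          C1 * 2 ^ (2 * k) * 2 ^ ε * T ^ (2 * k) * T ^ ε * (b - a) := by ring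
        _ ≤ C1 * 2 ^ (2 * k) * 2 ^ ε * T ^ (2 * k) * T ^ ε * (b - a) +
          2 * T ^ (2 * k) * T ^ ε * (b - a) := le_add_of_nonneg_right h0
        _ = _ := by ring
  · -- the second part
    have hone := (H7 T 1 hTT7 le_rfl (by
      rw [Nat.cast_one]
      exact Real.one_le_rpow hTge1 (by norm_num))).1
    set Z := ZB k C7 T with hZ
    have hlog : 0 ≤ Real.log T := Real.log_nonneg hTge1
    have hZ0 : 0 ≤ Z := by
      rw [hZ]
      unfold ZB
      exact mul_nonneg (BF_nonneg _ _) (by positivity)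
    set g1 : (Fin k ⊕ Fin k → ℝ) → ENNReal := fun γ => ENNReal.ofReal
      ((∫ t in a..b, ‖∏ j : Fin k, z (t + γ (Sum.inl j)) *
      (starRingEnd ℂ) (z (t + γ (Sum.inr j)))‖) ^ 2) with hg1
    have m1 : Measurable g1 := ((intnorm_cont a b).pow 2).measurable.ennreal_ofReal
    refine ⟨fun γ => ENNReal.ofReal 2 * g1 γ + ENNReal.ofReal (2 * Z ^ 2),
      (m1.const_mul _).add measurable_const, fun γ hγ => ?_, ?_⟩
    · have hγ' := sep2_sep hTp.le hγ
      have hz : ‖zr γ‖ ≤ Z := zp_bd (by linarith) hC7 hone hγ' 1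
      have hfc : Continuous fun t : ℝ => fd γ t := (Zg_cont γ).sub continuous_const
      have hI : ∫ t in a..b, ‖fd γ t‖ ≤ (∫ t in a..b, ‖∏ j : Fin k, z (t + γ (Sum.inl j)) *
          (starRingEnd ℂ) (z (t + γ (Sum.inr j)))‖) + Z := by
        calc ∫ t in a..b, ‖fd γ t‖ ≤ ∫ t in a..b, (‖Zg γ t‖ + Z) := by
              refine intervalIntegral.integral_mono_on hab (hfc.norm.intervalIntegrable _ _)
                (((Zg_cont γ).norm.add continuous_const).intervalIntegrable _ _) fun t _ => ?_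
              exact (norm_sub_le _ _).trans (add_le_add le_rfl hz)
          _ = (∫ t in a..b, ‖Zg γ t‖) + (b - a) * Z := by
              rw [intervalIntegral.integral_add ((Zg_cont γ).norm.intervalIntegrable _ _)
                (continuous_const.intervalIntegrable _ _), intervalIntegral.integral_const,
                smul_eq_mul]
          _ ≤ (∫ t in a..b, ‖Zg γ t‖) + Z := by
              have : (b - a) * Z ≤ 1 * Z := mul_le_mul_of_nonneg_right (by linarith) hZ0
              linarith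
          _ = _ := by simp only [Zg_fz]
      have hI0 : 0 ≤ ∫ t in a..b, ‖fd γ t‖ :=
        intervalIntegral.integral_nonneg hab fun t _ => norm_nonneg _
      have hJ0 : 0 ≤ ∫ t in a..b, ‖∏ j : Fin k, z (t + γ (Sum.inl j)) *
          (starRingEnd ℂ) (z (t + γ (Sum.inr j)))‖ :=
        intervalIntegral.integral_nonneg hab fun t _ => norm_nonneg _
      have hsq : (∫ t in a..b, ‖fd γ t‖) ^ 2 ≤
          2 * (∫ t in a..b, ‖∏ j : Fin k, z (t + γ (Sum.inl j)) *
          (starRingEnd ℂ) (z (t + γ (Sum.inr j)))‖) ^ 2 + 2 * Z ^ 2 := by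
        refine (pow_le_pow_left₀ hI0 hI 2).trans ?_
        nlinarith [sq_nonneg ((∫ t in a..b, ‖∏ j : Fin k, z (t + γ (Sum.inl j)) *
          (starRingEnd ℂ) (z (t + γ (Sum.inr j)))‖) - Z)]
      refine (ENNReal.ofReal_le_ofReal hsq).trans (le_of_eq ?_)
      rw [ENNReal.ofReal_add (by positivity) (by positivity), ENNReal.ofReal_mul (by norm_num)]
    · rw [lintegral_add_left (m1.const_mul _), lintegral_const_mul _ m1, lintegral_const,
        As.mP_univ _ hTp.le]
      have hcard : Fintype.card (Fin k ⊕ Fin k) = 2 * k := by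
        rw [Fintype.card_sum, Fintype.card_fin]; ring
      rw [hcard]
      have hba : 0 ≤ b - a := by linarith
      have hba1 : (b - a) ^ 2 ≤ 1 := by
        calc (b - a) ^ 2 ≤ 1 ^ 2 := pow_le_pow_left₀ hba (by linarith) 2
          _ = 1 := one_pow 2
      have b1 : ENNReal.ofReal 2 * ∫⁻ γ, g1 γ ∂(mP (Fin k ⊕ Fin k) T) ≤
          ENNReal.ofReal (T ^ (2 * k) * T ^ ε) := by
        calc _ ≤ ENNReal.ofReal 2 *
              ENNReal.ofReal (C2 * (b - a) ^ 2 * Real.log T ^ (2 * k) * T ^ (2 * k)) := by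
              gcongr
              exact H2 T a b hTT2 ha hab hbT
          _ = ENNReal.ofReal (2 * (C2 * (b - a) ^ 2 * Real.log T ^ (2 * k) * T ^ (2 * k))) := by
              rw [← ENNReal.ofReal_mul (by norm_num)]
          _ ≤ _ := by
              refine ENNReal.ofReal_le_ofReal ?_
              calc 2 * (C2 * (b - a) ^ 2 * Real.log T ^ (2 * k) * T ^ (2 * k)) =
                  (2 * C2 * Real.log T ^ (2 * k)) * T ^ (2 * k) * (b - a) ^ 2 := by ring
                _ ≤ T ^ ε * T ^ (2 * k) * 1 := by gcongr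
                _ = _ := by ring
      have b2 : ENNReal.ofReal (2 * Z ^ 2) * ENNReal.ofReal (T ^ (2 * k)) ≤
          ENNReal.ofReal (T ^ (2 * k) * T ^ ε) := by
        rw [← ENNReal.ofReal_mul (by positivity)]
        refine ENNReal.ofReal_le_ofReal ?_
        have hZ2 : Z ^ 2 = (BF k (1 / 8)) ^ 2 * C7 ^ (2 * k ^ 2) * Real.log T ^ (2 * k ^ 2) := by
          rw [hZ]
          unfold ZB
          rw [mul_pow, ← pow_mul, mul_pow, mul_comm (k ^ 2) 2]
          ring
        calc 2 * Z ^ 2 * T ^ (2 * k) = (2 * ((BF k (1 / 8)) ^ 2 * C7 ^ (2 * k ^ 2)) *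
            Real.log T ^ (2 * k ^ 2)) * T ^ (2 * k) := by rw [hZ2]; ring
          _ ≤ T ^ ε * T ^ (2 * k) := by gcongr
          _ = _ := by ring
      refine (add_le_add b1 b2).trans ?_
      rw [← ENNReal.ofReal_add (by positivity) (by positivity)]
      refine ENNReal.ofReal_le_ofReal ?_
      have h0 : 0 ≤ C1 * 2 ^ (2 * k) * 2 ^ ε * (T ^ (2 * k) * T ^ ε) := by positivity
      calc T ^ (2 * k) * T ^ ε + T ^ (2 * k) * T ^ ε = 2 * (T ^ (2 * k) * T ^ ε) := by ring
        _ ≤ C1 * 2 ^ (2 * k) * 2 ^ ε * (T ^ (2 * k) * T ^ ε) + 2 * (T ^ (2 * k) * T ^ ε) :=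
            le_add_of_nonneg_left h0
        _ = _ := by ring

end

end Pool.Agent.N879.SQ
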