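import Pool.Agent.N879.SQ.Stm
import Pool.Agent.TH612.GS.Z
import Pool.Agent.TH521.GS.Rep
import Pool.Agent.TH570.GS.SM
import Pool.Agent.TH811.GS.One
import Pool.Agent.TH928.GS.MV

set_option autoImplicit false

/-!
Project SQ (helper879), part MSI (helper124): mean squares over all intervals.
-/

namespace Pool.Agent.N879.SQ

open Complex Filter Topology MeasureTheory Set
open Pool.Agent.TH612.CF Pool.Agent.TH612.GS Pool.Agent.TH757.GS

noncomputable section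

namespace Msiaux

variable {k : ℕ}

lemma sh_sep {T a : ℝ} (ha : 0 ≤ a) (haT : a ≤ T) {γ : Fin k ⊕ Fin k → ℝ} (hγ : γ ∈ Sep2 k T) :
    sh γ a ∈ Sep k (2 * T) := by
  refine ⟨fun i => ?_, fun p q hpq => ?_⟩
  · have := hγ.1 i
    simp only [sh]
    constructor <;> linarith [this.1, this.2]
  · simp only [sh]
    rw [add_sub_add_right_eq_sub]
    exact hγ.2 p q hpq

lemma sep2_sep {T : ℝ} (hT : 0 ≤ T) {γ : Fin k ⊕ Fin k → ℝ} (hγ : γ ∈ Sep2 k T) : γ ∈ Sep k T := by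
  refine ⟨hγ.1, fun p q hpq => le_trans ?_ (hγ.2 p q hpq)⟩
  exact Real.rpow_le_rpow hT (by linarith) (by norm_num)

lemma ff_cont (γ : Fin k ⊕ Fin k → ℝ) : Continuous (ff γ) :=
  (Zg_cont γ).sub (continuous_const.mul (Qs_cont γ))

lemma int_ff (h2 : S_TRN) (γ : Fin k ⊕ Fin k → ℝ) (a b : ℝ) :
    ∫ t in a..b, ff γ t = DD (b - a) (sh γ a) := by
  have h1 : DD (b - a) (sh γ a) = ∫ t in (0:ℝ)..(b - a), ff (sh γ a) t := rfl
  rw [h1]
  simp only [h2 k γ a]
  rw [intervalIntegral.integral_comp_add_right]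
  simp

lemma lint_shift (G0 : (Fin k ⊕ Fin k → ℝ) → ENNReal) {T a : ℝ} (ha : 0 ≤ a) (haT : a ≤ T) :
    ∫⁻ γ, G0 (sh γ a) ∂(mP (Fin k ⊕ Fin k) T) ≤ ∫⁻ γ, G0 γ ∂(mP (Fin k ⊕ Fin k) (2 * T)) := by
  have hm : ∀ T : ℝ, MeasurableSet (univ.pi fun _ : Fin k ⊕ Fin k => Icc (0:ℝ) T) := fun T =>
    MeasurableSet.univ_pi fun _ => measurableSet_Icc
  rw [mP_eq, mP_eq, ← lintegral_indicator (hm T), ← lintegral_indicator (hm (2 * T)),
    ← lintegral_add_right_eq_self
      ((univ.pi fun _ : Fin k ⊕ Fin k => Icc (0:ℝ) (2 * T)).indicator G0) (fun _ => a)]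
  refine lintegral_mono fun γ => ?_
  by_cases h : γ ∈ univ.pi fun _ : Fin k ⊕ Fin k => Icc (0:ℝ) T
  · rw [indicator_of_mem h, indicator_of_mem]
    · exact le_rfl
    · intro i _
      have := h i (mem_univ i)
      simp only [Pi.add_apply]
      exact ⟨by linarith [this.1], by linarith [this.2]⟩
  · rw [indicator_of_notMem h]; exact bot_le

lemma mP_univ {T : ℝ} (hT : 0 ≤ T) :
    mP (Fin k ⊕ Fin k) T univ = ENNReal.ofReal (T ^ (2 * k)) := by
  unfold mP
  rw [Measure.pi_univ]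
  simp only [Measure.restrict_apply MeasurableSet.univ, univ_inter, Real.volume_Icc, sub_zero,
    Finset.prod_const, Finset.card_univ, Fintype.card_sum, Fintype.card_fin]
  rw [ENNReal.ofReal_pow hT, two_mul]

lemma int_norm_ff {a b T C : ℝ} (hab : a ≤ b) (hb1 : b ≤ a + 1) (hT : 3 ≤ T) (hC : 0 < C)
    (h1 : ∀ v : ℝ, 1 ≤ |v| → |v| ≤ T → ‖riemannZeta (1 + I * v)‖ ≤ C * Real.log T)
    {γ : Fin k ⊕ Fin k → ℝ} (hγ : γ ∈ Sep k T) :
    ∫ t in a..b, ‖ff γ t‖ ≤ (∫ t in a..b, ‖∏ j : Fin k, z (t + γ (Sum.inl j)) *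
      (starRingEnd ℂ) (z (t + γ (Sum.inr j)))‖) +
      Fintype.card (Equiv.Perm (Fin k ⊕ Fin k)) * ZB k C T := by
  have hQ : ∀ t : ℝ, ‖((Nat.factorial k : ℂ) ^ 2)⁻¹ * Qs t (fun i => (γ i : ℂ))‖ ≤
      Fintype.card (Equiv.Perm (Fin k ⊕ Fin k)) * ZB k C T := by
    intro t
    rw [norm_mul, Qs_zp]
    calc _ ≤ 1 * ∑ π : Equiv.Perm (Fin k ⊕ Fin k), ‖GG t (fun i => (γ i : ℂ)) π * zp γ π‖ := by
          gcongr
          · exact inv_le_one
          · exact norm_sum_le _ _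
      _ ≤ 1 * ∑ _π : Equiv.Perm (Fin k ⊕ Fin k), ZB k C T := by
          gcongr with π hπ
          rw [norm_mul, norm_GG, one_mul]
          exact zp_bd hT hC h1 hγ π
      _ = _ := by rw [one_mul, Finset.sum_const, Finset.card_univ, nsmul_eq_mul]
  have h0 : 0 ≤ Fintype.card (Equiv.Perm (Fin k ⊕ Fin k)) * ZB k C T := (norm_nonneg _).trans (hQ 0)
  calc ∫ t in a..b, ‖ff γ t‖
      ≤ ∫ t in a..b, (‖Zg γ t‖ + Fintype.card (Equiv.Perm (Fin k ⊕ Fin k)) * ZB k C T) := by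
        refine intervalIntegral.integral_mono_on hab ((ff_cont γ).norm.intervalIntegrable _ _)
          (((Zg_cont γ).norm.add continuous_const).intervalIntegrable _ _) fun t _ => ?_
        exact (norm_sub_le _ _).trans (add_le_add le_rfl (hQ t))
    _ = (∫ t in a..b, ‖Zg γ t‖) +
        (b - a) * (Fintype.card (Equiv.Perm (Fin k ⊕ Fin k)) * ZB k C T) := by
        rw [intervalIntegral.integral_add ((Zg_cont γ).norm.intervalIntegrable _ _)
          (continuous_const.intervalIntegrable _ _), intervalIntegral.integral_const, smul_eq_mul]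
    _ ≤ (∫ t in a..b, ‖Zg γ t‖) +
        1 * (Fintype.card (Equiv.Perm (Fin k ⊕ Fin k)) * ZB k C T) := by
        have h3 : b - a ≤ 1 := by linarith
        have := mul_le_mul_of_nonneg_right h3 h0
        linarith
    _ = _ := by
        rw [one_mul]
        simp only [Zg_fz]

theorem msi (hZ2 : S_Z2) (hONE : S_ONE) (h1 : S_MSQ) (h2 : S_TRN) : S_MSI := by
  intro k ε hε
  obtain ⟨C, T1, hC, hT1, hm⟩ := h1 k ε hε
  obtain ⟨C2, T2, hC2, hT2, hz⟩ := hZ2 k
  obtain ⟨C7, T7, hC7, hT7, ho⟩ := hONE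
  obtain ⟨P0, hP0⟩ : ∃ P0 : ℝ, P0 = (Fintype.card (Equiv.Perm (Fin k ⊕ Fin k)) : ℝ) := ⟨_, rfl⟩
  obtain ⟨T3, hT3⟩ := eventually_atTop.1 ((log_ev (2 * C2) (2 * k) hε).and
    (log_ev (2 * (P0 * (BF k (1 / 8) * C7 ^ (k ^ 2))) ^ 2) (2 * k ^ 2) hε))
  refine ⟨C * 2 ^ (2 * k) * (2:ℝ) ^ ε + 2, max T1 (max T2 (max T7 T3)), by positivity,
    hT1.trans (le_max_left _ _), ?_⟩
  intro T hT
  have hTT1 : T1 ≤ T := (le_max_left _ _).trans hT
  have hT' := (le_max_right _ _).trans hT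
  have hTT2 : T2 ≤ T := (le_max_left _ _).trans hT'
  have hT'' := (le_max_right _ _).trans hT'
  have hTT7 : T7 ≤ T := (le_max_left _ _).trans hT''
  have hTT3 : T3 ≤ T := (le_max_right _ _).trans hT''
  have hT4 : 4 ≤ T := hT1.trans hTT1
  have hT0 : 0 ≤ T := by linarith
  have hTε : 0 ≤ T ^ ε := Real.rpow_nonneg hT0 _
  have hTk : 0 ≤ T ^ (2 * k) := pow_nonneg hT0 _
  have h2ε : (0:ℝ) ≤ 2 ^ ε := Real.rpow_nonneg (by norm_num) _
  constructor
  · intro a b ha hab hb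
    obtain ⟨G0, hG0m, hG0le, hG0int⟩ := hm (2 * T) (b - a) (by linarith) (by linarith) (by linarith)
    refine ⟨fun γ => G0 (sh γ a), ?_, ?_, ?_⟩
    · refine hG0m.comp ?_
      unfold sh
      fun_prop
    · intro γ hγ
      rw [int_ff h2]
      exact hG0le _ (sh_sep ha (hab.trans hb) hγ)
    · refine (lint_shift G0 ha (hab.trans hb)).trans (hG0int.trans (ENNReal.ofReal_le_ofReal ?_))
      rw [Real.mul_rpow (by norm_num) hT0, mul_pow]
      have hba : 0 ≤ b - a := by linarith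
      have h3 : 0 ≤ 2 * T ^ (2 * k) * T ^ ε * (b - a) := by positivity
      calc C * (b - a) * (2 ^ (2 * k) * T ^ (2 * k)) * (2 ^ ε * T ^ ε)
          = C * 2 ^ (2 * k) * 2 ^ ε * T ^ (2 * k) * T ^ ε * (b - a) := by ring
        _ ≤ C * 2 ^ (2 * k) * 2 ^ ε * T ^ (2 * k) * T ^ ε * (b - a) +
            2 * T ^ (2 * k) * T ^ ε * (b - a) := le_add_of_nonneg_right h3
        _ = _ := by ring
  · intro a b ha hab hb hb1
    obtain ⟨ho1, -⟩ := ho T 1 hTT7 le_rfl (by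
      rw [Nat.cast_one]; exact Real.one_le_rpow (by linarith) (by norm_num))
    obtain ⟨W, hW⟩ : ∃ W : (Fin k ⊕ Fin k → ℝ) → ℝ, W = fun γ => ∫ t in a..b,
      ‖∏ j : Fin k, z (t + γ (Sum.inl j)) * (starRingEnd ℂ) (z (t + γ (Sum.inr j)))‖ := ⟨_, rfl⟩
    have hWc : Continuous W := by rw [hW]; exact intnorm_cont a b
    have hz' := hz T a b hTT2 ha hab hb
    have hW0 : ∀ γ, 0 ≤ W γ := by
      intro γ
      rw [hW]
      exact intervalIntegral.integral_nonneg hab fun t _ => norm_nonneg _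
    refine ⟨fun γ => ENNReal.ofReal (2 * W γ ^ 2) + ENNReal.ofReal (2 * (P0 * ZB k C7 T) ^ 2),
      ?_, ?_, ?_⟩
    · exact ((continuous_const.mul (hWc.pow 2)).measurable.ennreal_ofReal).add measurable_const
    · intro γ hγ
      have h3 := int_norm_ff hab hb1 (by linarith) hC7 ho1 (sep2_sep hT0 hγ)
      have h4 : 0 ≤ ∫ t in a..b, ‖ff γ t‖ := intervalIntegral.integral_nonneg hab fun t _ => norm_nonneg _
      show ENNReal.ofReal _ ≤ ENNReal.ofReal (2 * W γ ^ 2) + ENNReal.ofReal (2 * (P0 * ZB k C7 T) ^ 2)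
      rw [← ENNReal.ofReal_add (by positivity) (by positivity)]
      refine ENNReal.ofReal_le_ofReal ?_
      have h5 : ∫ t in a..b, ‖ff γ t‖ ≤ W γ + P0 * ZB k C7 T := by rw [hW, hP0]; exact h3
      calc (∫ t in a..b, ‖ff γ t‖) ^ 2 ≤ (W γ + P0 * ZB k C7 T) ^ 2 := pow_le_pow_left₀ h4 h5 2
        _ ≤ 2 * W γ ^ 2 + 2 * (P0 * ZB k C7 T) ^ 2 := by nlinarith [sq_nonneg (W γ - P0 * ZB k C7 T)]
    · obtain ⟨e1, e2⟩ := hT3 T hTT3
      rw [lintegral_add_right _ measurable_const, lintegral_const, mP_univ hT0]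
      have h6 : ∫⁻ γ, ENNReal.ofReal (2 * W γ ^ 2) ∂(mP (Fin k ⊕ Fin k) T) ≤
          ENNReal.ofReal (T ^ ε * T ^ (2 * k)) := by
        have h7 : ∀ γ, ENNReal.ofReal (2 * W γ ^ 2) = ENNReal.ofReal 2 * ENNReal.ofReal (W γ ^ 2) :=
          fun γ => ENNReal.ofReal_mul (by norm_num)
        simp only [h7]
        have hm2 : Measurable fun γ => ENNReal.ofReal (W γ ^ 2) :=
          (hWc.measurable.pow_const 2).ennreal_ofReal
        rw [lintegral_const_mul _ hm2]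
        have h8 : ∫⁻ γ, ENNReal.ofReal (W γ ^ 2) ∂(mP (Fin k ⊕ Fin k) T) ≤
            ENNReal.ofReal (C2 * (b - a) ^ 2 * Real.log T ^ (2 * k) * T ^ (2 * k)) := by
          rw [hW]; exact hz'
        calc ENNReal.ofReal 2 * ∫⁻ γ, ENNReal.ofReal (W γ ^ 2) ∂(mP (Fin k ⊕ Fin k) T)
            ≤ ENNReal.ofReal 2 *
              ENNReal.ofReal (C2 * (b - a) ^ 2 * Real.log T ^ (2 * k) * T ^ (2 * k)) := by
              gcongr
          _ = ENNReal.ofReal (2 * (C2 * (b - a) ^ 2 * Real.log T ^ (2 * k) * T ^ (2 * k))) := by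
              rw [← ENNReal.ofReal_mul (by norm_num)]
          _ ≤ _ := by
              refine ENNReal.ofReal_le_ofReal ?_
              have hlog : 0 ≤ Real.log T := Real.log_nonneg (by linarith)
              have h9 : (b - a) ^ 2 ≤ 1 := by
                have : 0 ≤ b - a := by linarith
                have : b - a ≤ 1 := by linarith
                nlinarith
              calc 2 * (C2 * (b - a) ^ 2 * Real.log T ^ (2 * k) * T ^ (2 * k))
                  = (b - a) ^ 2 * (2 * C2 * Real.log T ^ (2 * k) * T ^ (2 * k)) := by ring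
                _ ≤ 1 * (2 * C2 * Real.log T ^ (2 * k) * T ^ (2 * k)) :=
                    mul_le_mul_of_nonneg_right h9 (by positivity)
                _ = (2 * C2 * Real.log T ^ (2 * k)) * T ^ (2 * k) := by ring
                _ ≤ T ^ ε * T ^ (2 * k) := mul_le_mul_of_nonneg_right e1 hTk
      have h7 : ENNReal.ofReal (2 * (P0 * ZB k C7 T) ^ 2) * ENNReal.ofReal (T ^ (2 * k)) ≤
          ENNReal.ofReal (T ^ ε * T ^ (2 * k)) := by
        rw [← ENNReal.ofReal_mul (by positivity)]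
        refine ENNReal.ofReal_le_ofReal ?_
        have e3 : 2 * (P0 * ZB k C7 T) ^ 2 =
            2 * (P0 * (BF k (1 / 8) * C7 ^ (k ^ 2))) ^ 2 * Real.log T ^ (2 * k ^ 2) := by
          unfold ZB
          rw [mul_pow C7, mul_comm 2 (k ^ 2), pow_mul (Real.log T)]
          ring
        rw [e3]
        exact mul_le_mul_of_nonneg_right e2 hTk
      refine (add_le_add h6 h7).trans ?_
      rw [← ENNReal.ofReal_add (by positivity) (by positivity)]
      refine ENNReal.ofReal_le_ofReal ?_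
      have h8 : 0 ≤ C * 2 ^ (2 * k) * 2 ^ ε * (T ^ (2 * k) * T ^ ε) := by positivity
      calc T ^ ε * T ^ (2 * k) + T ^ ε * T ^ (2 * k) = 2 * (T ^ (2 * k) * T ^ ε) := by ring
        _ ≤ C * 2 ^ (2 * k) * 2 ^ ε * (T ^ (2 * k) * T ^ ε) + 2 * (T ^ (2 * k) * T ^ ε) :=
            le_add_of_nonneg_left h8
        _ = _ := by ring

end Msiaux

/-- MSI: mean squares over all intervals -/
theorem t_MSI (h1 : S_MSQ) (h2 : S_TRN) : S_MSI :=
  Msiaux.msi (Pool.Agent.TH612.GS.t_Z2 Pool.Agent.TH521.GS.t_REP2 Pool.Agent.TH570.GS.t_SM)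
    (Pool.Agent.TH811.GS.t_ONE Pool.Agent.TH928.GS.t_MV) h1 h2

end

end Pool.Agent.N879.SQ
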