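import Pool.Agent.N879.SQ.Stm
import Pool.Agent.TH509.GS.DIAG

set_option autoImplicit false

/-! Project SQ (helper879), part OFF (helper58): mean square of the off-diagonal terms. -/

namespace Pool.Agent.N879.SQ

open Complex Filter Topology MeasureTheory Set
open Pool.Agent.TH612.CF Pool.Agent.TH612.GS Pool.Agent.TH757.GS
open scoped ContDiff

noncomputable section

namespace Offaux

variable {k : ℕ}

/-- the integral of the oscillating factor -/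
def osc (S : ℝ) (ν : Fin k ⊕ Fin k → ℕ) : ℂ :=
  ∫ t in (0:ℝ)..S, Complex.exp (I * t * (Pool.Agent.TH509.GS.th ν : ℝ))

open Classical in
/-- the coefficients -/
def cf (S : ℝ) (ν : Fin k ⊕ Fin k → ℕ) : ℂ :=
  if ∏ j, ν (Sum.inl j) = ∏ j, ν (Sum.inr j) then 0 else (wt ν : ℂ) * osc S ν

theorem pos_of_mem {X : ℕ} {ν : Fin k ⊕ Fin k → ℕ} (hν : ν ∈ tup k X) (i : Fin k ⊕ Fin k) :
    1 ≤ ν i :=
  (Finset.mem_Icc.1 (Fintype.mem_piFinset.1 hν i)).1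

theorem od_eq (X : ℕ) (S : ℝ) (γ : Fin k ⊕ Fin k → ℝ) :
    OD X S γ = ∑ ν ∈ tup k X, cf S ν * ch ν γ := by
  classical
  have e1 : (∫ t in (0:ℝ)..S, ∏ j : Fin k, PN X (t + γ (Sum.inl j)) *
      (starRingEnd ℂ) (PN X (t + γ (Sum.inr j)))) =
      ∑ ν ∈ tup k X, (wt ν : ℂ) * ch ν γ * osc S ν := by
    simp_rw [Pool.Agent.TH509.GS.integrand_eq]
    rw [intervalIntegral.integral_finsetSum]
    · refine Finset.sum_congr rfl fun ν _ => ?_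
      exact intervalIntegral.integral_const_mul _ _
    · intro ν _
      apply Continuous.intervalIntegrable
      fun_prop
  have e2 : (S : ℂ) * SN X γ = ∑ ν ∈ tup k X,
      if ∏ j, ν (Sum.inl j) = ∏ j, ν (Sum.inr j) then (S : ℂ) * ((wt ν : ℂ) * ch ν γ) else 0 := by
    unfold SN
    rw [Finset.mul_sum]
    refine Finset.sum_congr rfl fun ν _ => ?_
    split_ifs
    · rfl
    · rw [mul_zero]
  unfold OD
  rw [e1, e2, ← Finset.sum_sub_distrib]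
  refine Finset.sum_congr rfl fun ν hν => ?_
  unfold cf
  split_ifs with h
  · have h0 : Pool.Agent.TH509.GS.th ν = 0 := by
      rw [Pool.Agent.TH509.GS.th_eq ν (pos_of_mem hν), h, sub_self]
    unfold osc
    rw [h0]
    simp only [Complex.ofReal_zero, mul_zero, Complex.exp_zero, intervalIntegral.integral_const,
      sub_zero, Complex.real_smul, mul_one, zero_mul]
    ring
  · ring

theorem osc_le {S : ℝ} (hS : 0 ≤ S) (ν : Fin k ⊕ Fin k → ℕ) : ‖osc S ν‖ ≤ S := by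
  unfold osc
  have h := intervalIntegral.norm_integral_le_of_norm_le_const (a := 0) (b := S) (C := 1)
    (f := fun t : ℝ => Complex.exp (I * t * (Pool.Agent.TH509.GS.th ν : ℝ))) (by
      intro t _
      have e : I * (t : ℂ) * (Pool.Agent.TH509.GS.th ν : ℝ) =
          ((t * Pool.Agent.TH509.GS.th ν : ℝ) : ℂ) * I := by
        push_cast
        ring
      rw [e, Complex.norm_exp_ofReal_mul_I])
  rw [sub_zero, abs_of_nonneg hS, one_mul] at h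
  exact h

theorem osc_sq {S : ℝ} (hS : 0 ≤ S) {ν : Fin k ⊕ Fin k → ℕ}
    (hθ : Pool.Agent.TH509.GS.th ν ≠ 0) :
    ‖osc S ν‖ ^ 2 ≤ 2 * S / |Pool.Agent.TH509.GS.th ν| := by
  have h1 := osc_le hS ν
  have h2 : ‖osc S ν‖ ≤ 2 / |Pool.Agent.TH509.GS.th ν| := Pool.Agent.TH509.GS.norm_int_exp hθ S
  have h3 := norm_nonneg (osc S ν)
  calc ‖osc S ν‖ ^ 2 = ‖osc S ν‖ * ‖osc S ν‖ := sq _
    _ ≤ S * (2 / |Pool.Agent.TH509.GS.th ν|) := mul_le_mul h1 h2 h3 hS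
    _ = _ := by ring

theorem wt_sq {ν : Fin k ⊕ Fin k → ℕ} : wt ν ^ 2 = (∏ i, (ν i : ℝ))⁻¹ := by
  unfold wt
  have h0 : (0 : ℝ) ≤ ∏ i, (ν i : ℝ) := Finset.prod_nonneg fun i _ => Nat.cast_nonneg _
  have h1 : -(1 / 2 : ℝ) * ((2 : ℕ) : ℝ) = -1 := by norm_num
  rw [← Real.rpow_natCast, ← Real.rpow_mul h0, h1, Real.rpow_neg_one]

theorem prod_ne_log {X : ℕ} {ν : Fin k ⊕ Fin k → ℕ} (hν : ν ∈ tup k X)
    (hne : ∏ j, ν (Sum.inl j) ≠ ∏ j, ν (Sum.inr j)) : Pool.Agent.TH509.GS.th ν ≠ 0 := by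
  rw [Pool.Agent.TH509.GS.th_eq ν (pos_of_mem hν)]
  intro h
  have h1 := sub_eq_zero.1 h
  have hA : 1 ≤ ∏ j, ν (Sum.inl j) :=
    Pool.Agent.TH509.GS.one_le_prod_nat _ fun j => pos_of_mem hν _
  have hB : 1 ≤ ∏ j, ν (Sum.inr j) :=
    Pool.Agent.TH509.GS.one_le_prod_nat _ fun j => pos_of_mem hν _
  have hA0 : (0 : ℝ) < ((∏ j, ν (Sum.inl j) : ℕ) : ℝ) := by exact_mod_cast hA
  have hB0 : (0 : ℝ) < ((∏ j, ν (Sum.inr j) : ℕ) : ℝ) := by exact_mod_cast hB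
  have h2 := Real.log_injOn_pos (Set.mem_Ioi.2 hB0) (Set.mem_Ioi.2 hA0) h1
  exact hne (by exact_mod_cast h2.symm)

open Classical in
theorem sum_le {S : ℝ} (hS : 0 ≤ S) (X : ℕ) :
    ∑ ν ∈ tup k X, ‖cf S ν‖ ^ 2 ≤ 2 * S *
      ∑ ν ∈ (tup k X).filter (fun ν => ∏ j, ν (Sum.inl j) ≠ ∏ j, ν (Sum.inr j)),
        (∏ i, (ν i : ℝ))⁻¹ / |Real.log ((∏ j, ν (Sum.inl j) : ℕ) : ℝ) -
          Real.log ((∏ j, ν (Sum.inr j) : ℕ) : ℝ)| := by
  rw [Finset.sum_filter, Finset.mul_sum]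
  refine Finset.sum_le_sum fun ν hν => ?_
  unfold cf
  by_cases h : ∏ j, ν (Sum.inl j) = ∏ j, ν (Sum.inr j)
  · rw [if_pos h, if_neg (not_not.2 h), norm_zero]
    simp
  · rw [if_neg h, if_pos h, norm_mul, mul_pow]
    have h1 : ‖(wt ν : ℂ)‖ ^ 2 = (∏ i, (ν i : ℝ))⁻¹ := by
      rw [Complex.norm_real, Real.norm_eq_abs, sq_abs, wt_sq]
    have h2 := osc_sq hS (prod_ne_log hν h)
    have h3 : |Real.log ((∏ j, ν (Sum.inl j) : ℕ) : ℝ) -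
        Real.log ((∏ j, ν (Sum.inr j) : ℕ) : ℝ)| = |Pool.Agent.TH509.GS.th ν| := by
      rw [abs_sub_comm, Pool.Agent.TH509.GS.th_eq ν (pos_of_mem hν)]
    rw [h1, h3]
    have h4 : (0 : ℝ) ≤ (∏ i, (ν i : ℝ))⁻¹ :=
      inv_nonneg.2 (Finset.prod_nonneg fun i _ => Nat.cast_nonneg _)
    calc (∏ i, (ν i : ℝ))⁻¹ * ‖osc S ν‖ ^ 2
        ≤ (∏ i, (ν i : ℝ))⁻¹ * (2 * S / |Pool.Agent.TH509.GS.th ν|) :=
          mul_le_mul_of_nonneg_left h2 h4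
      _ = _ := by ring

end Offaux

open Offaux in
theorem t_OFF (h1 : S_TM2) (h2 : S_CNT) : S_OFF := by
  intro k ε hε
  obtain ⟨C1, hC1, H1⟩ := h1 k
  obtain ⟨C2, hC2, H2⟩ := h2 k ε hε
  refine ⟨C1 * (2 * C2 * 4 ^ ε), by positivity, fun T S X hT hS hST hX hXT => ?_⟩
  have e : ∀ γ : Fin k ⊕ Fin k → ℝ, ENNReal.ofReal (‖OD X S γ‖ ^ 2) =
      ENNReal.ofReal (‖∑ ν ∈ tup k X, cf S ν * ch ν γ‖ ^ 2) := fun γ => by rw [od_eq]
  rw [lintegral_congr e]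
  refine (H1 T X (cf S) hT hXT).trans (ENNReal.ofReal_le_ofReal ?_)
  have hT0 : (0 : ℝ) < T := by linarith
  have h3 := sum_le (k := k) hS X
  have h4 := H2 X hX
  have hX0 : (0 : ℝ) ≤ X := Nat.cast_nonneg X
  have h5 : (X : ℝ) ^ ε ≤ 4 ^ ε * T ^ ε := by
    rw [← Real.mul_rpow (by norm_num) hT0.le]
    exact Real.rpow_le_rpow hX0 hXT hε.le
  have h6 : ∑ ν ∈ tup k X, ‖cf S ν‖ ^ 2 ≤ 2 * S * (C2 * (4 ^ ε * T ^ ε)) := by
    refine h3.trans (mul_le_mul_of_nonneg_left ?_ (by linarith))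
    exact h4.trans (mul_le_mul_of_nonneg_left h5 hC2.le)
  calc C1 * T ^ (2 * k) * ∑ ν ∈ tup k X, ‖cf S ν‖ ^ 2
      ≤ C1 * T ^ (2 * k) * (2 * S * (C2 * (4 ^ ε * T ^ ε))) :=
        mul_le_mul_of_nonneg_left h6 (by positivity)
    _ = _ := by ring

end

end Pool.Agent.N879.SQ
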