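import Pool.Agent.N879.SQ.Stm

set_option autoImplicit false

/-!
Project SQ (helper879), part RM: from mean squares over intervals to the maximum.
-/

open MeasureTheory Set

namespace Pool.Agent.N879.SQ

namespace Rmaux

/-- the dyadic points -/
noncomputable def pt (T : ℝ) (j i : ℕ) : ℝ := i * (T / 2 ^ j)

theorem pt_double (T : ℝ) (j i : ℕ) : pt T (j + 1) (2 * i) = pt T j i := by
  unfold pt
  rw [pow_succ]
  push_cast
  field_simp

theorem pt_zero (T : ℝ) (j : ℕ) : pt T j 0 = 0 := by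
  unfold pt
  rw [Nat.cast_zero, zero_mul]

theorem pt_full (T : ℝ) (j : ℕ) : pt T j (2 ^ j) = T := by
  unfold pt
  push_cast
  field_simp

theorem pt_mono (T : ℝ) (hT : 0 ≤ T) (j : ℕ) {i i' : ℕ} (h : i ≤ i') : pt T j i ≤ pt T j i' := by
  unfold pt
  apply mul_le_mul_of_nonneg_right _ (by positivity)
  exact_mod_cast h

theorem pt_succ (T : ℝ) (j i : ℕ) : pt T j (i + 1) = pt T j i + T / 2 ^ j := by
  unfold pt
  push_cast
  ring

/-- the square function of level `j` -/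
noncomputable def Mj (g : ℝ → ℂ) (T : ℝ) (j : ℕ) : ℝ :=
  Real.sqrt (∑ i ∈ Finset.range (2 ^ j), ‖∫ t in (pt T j i)..(pt T j (i + 1)), g t‖ ^ 2)

theorem Mj_nonneg (g : ℝ → ℂ) (T : ℝ) (j : ℕ) : 0 ≤ Mj g T j := Real.sqrt_nonneg _

theorem le_Mj (g : ℝ → ℂ) (T : ℝ) (j i : ℕ) (hi : i < 2 ^ j) :
    ‖∫ t in (pt T j i)..(pt T j (i + 1)), g t‖ ≤ Mj g T j := by
  unfold Mj
  apply Real.le_sqrt_of_sq_le
  exact Finset.single_le_sum (f := fun i => ‖∫ t in (pt T j i)..(pt T j (i + 1)), g t‖ ^ 2)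
    (fun _ _ => by positivity) (Finset.mem_range.2 hi)

/-- the square function of the absolute value -/
noncomputable def Ma (g : ℝ → ℂ) (T : ℝ) (j : ℕ) : ℝ :=
  Real.sqrt (∑ i ∈ Finset.range (2 ^ j), (∫ t in (pt T j i)..(pt T j (i + 1)), ‖g t‖) ^ 2)

theorem le_Ma (g : ℝ → ℂ) (T : ℝ) (j i : ℕ) (hi : i < 2 ^ j) :
    ∫ t in (pt T j i)..(pt T j (i + 1)), ‖g t‖ ≤ Ma g T j := by
  unfold Ma
  apply Real.le_sqrt_of_sq_le
  exact Finset.single_le_sum (f := fun i => (∫ t in (pt T j i)..(pt T j (i + 1)), ‖g t‖) ^ 2)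
    (fun _ _ => by positivity) (Finset.mem_range.2 hi)

theorem initial (g : ℝ → ℂ) (hg : Continuous g) (T : ℝ) : ∀ j i : ℕ, i ≤ 2 ^ j →
    ‖∫ t in (0:ℝ)..(pt T j i), g t‖ ≤ ∑ j' ∈ Finset.range (j + 1), Mj g T j' := by
  intro j
  induction j with
  | zero =>
    intro i hi
    rw [zero_add, Finset.sum_range_one]
    rw [pow_zero] at hi
    rcases Nat.le_one_iff_eq_zero_or_eq_one.1 hi with h | h
    · subst h
      rw [pt_zero, intervalIntegral.integral_same, norm_zero]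
      exact Mj_nonneg g T 0
    · subst h
      have := le_Mj g T 0 0 (by norm_num)
      rw [pt_zero, zero_add] at this
      exact this
  | succ j ih =>
    intro i hi
    rw [Finset.sum_range_succ]
    rw [pow_succ] at hi
    rcases Nat.even_or_odd' i with ⟨i', h | h⟩
    · subst h
      rw [pt_double]
      have h1 := ih i' (by omega)
      have h2 := Mj_nonneg g T (j + 1)
      linarith
    · subst h
      have h1 := ih i' (by omega)
      have h2 := le_Mj g T (j + 1) (2 * i') (by rw [pow_succ]; omega)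
      have h3 : ∫ t in (0:ℝ)..(pt T (j + 1) (2 * i' + 1)), g t =
          (∫ t in (0:ℝ)..(pt T (j + 1) (2 * i')), g t) +
            ∫ t in (pt T (j + 1) (2 * i'))..(pt T (j + 1) (2 * i' + 1)), g t :=
        (intervalIntegral.integral_add_adjacent_intervals (hg.intervalIntegrable _ _)
          (hg.intervalIntegrable _ _)).symm
      rw [h3]
      refine (norm_add_le _ _).trans ?_
      rw [pt_double] at h2 ⊢
      linarith

theorem general (g : ℝ → ℂ) (hg : Continuous g) (T : ℝ) (hT : 0 < T) (J : ℕ) (S : ℝ) (hS : 0 ≤ S)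
    (hST : S ≤ T) : ‖∫ t in (0:ℝ)..S, g t‖ ≤
      ∑ j ∈ Finset.range (J + 1), Mj g T j + Ma g T J := by
  have hδ : 0 < T / 2 ^ J := by positivity
  set i : ℕ := ⌊S / (T / 2 ^ J)⌋₊ with hi
  have h1 : pt T J i ≤ S := by
    unfold pt
    have := Nat.floor_le (div_nonneg hS hδ.le)
    rw [← hi, le_div_iff₀ hδ] at this
    exact this
  have h2 : S ≤ pt T J (i + 1) := by
    unfold pt
    have := (Nat.lt_floor_add_one (S / (T / 2 ^ J))).le
    rw [← hi, div_le_iff₀ hδ] at this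
    push_cast
    exact this
  have h3 : i ≤ 2 ^ J := by
    by_contra hcon
    push Not at hcon
    have h4 : pt T J (2 ^ J) < pt T J i := by
      unfold pt
      apply mul_lt_mul_of_pos_right _ hδ
      exact_mod_cast hcon
    rw [pt_full] at h4
    linarith
  have h4 := initial g hg T J i h3
  have hMa : 0 ≤ Ma g T J := Real.sqrt_nonneg _
  rcases h3.lt_or_eq with h | h
  · have h5 := le_Ma g T J i h
    have h6 : ∫ t in (0:ℝ)..S, g t = (∫ t in (0:ℝ)..(pt T J i), g t) + ∫ t in (pt T J i)..S, g t :=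
      (intervalIntegral.integral_add_adjacent_intervals (hg.intervalIntegrable _ _)
        (hg.intervalIntegrable _ _)).symm
    rw [h6]
    refine (norm_add_le _ _).trans (add_le_add h4 ?_)
    refine le_trans ?_ h5
    refine (intervalIntegral.norm_integral_le_integral_norm h1).trans ?_
    have h7 : ∫ t in (pt T J i)..(pt T J (i + 1)), ‖g t‖ =
        (∫ t in (pt T J i)..S, ‖g t‖) + ∫ t in S..(pt T J (i + 1)), ‖g t‖ :=
      (intervalIntegral.integral_add_adjacent_intervals (hg.norm.intervalIntegrable _ _)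
        (hg.norm.intervalIntegrable _ _)).symm
    have h8 : 0 ≤ ∫ t in S..(pt T J (i + 1)), ‖g t‖ :=
      intervalIntegral.integral_nonneg h2 fun _ _ => norm_nonneg _
    linarith
  · have h5 : S = pt T J i := by
      apply le_antisymm _ h1
      rw [h, pt_full]
      exact hST
    rw [← h5] at h4
    linarith

theorem sq_bound (g : ℝ → ℂ) (hg : Continuous g) (T : ℝ) (hT : 0 < T) (J : ℕ) (S : ℝ) (hS : 0 ≤ S)
    (hST : S ≤ T) : ‖∫ t in (0:ℝ)..S, g t‖ ^ 2 ≤ (J + 2) *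
      (∑ j ∈ Finset.range (J + 1), ∑ i ∈ Finset.range (2 ^ j),
        ‖∫ t in (pt T j i)..(pt T j (i + 1)), g t‖ ^ 2 +
      ∑ i ∈ Finset.range (2 ^ J), (∫ t in (pt T J i)..(pt T J (i + 1)), ‖g t‖) ^ 2) := by
  have h1 := general g hg T hT J S hS hST
  have h2 : ∀ j, Mj g T j ^ 2 = ∑ i ∈ Finset.range (2 ^ j),
      ‖∫ t in (pt T j i)..(pt T j (i + 1)), g t‖ ^ 2 := fun j =>
    Real.sq_sqrt (Finset.sum_nonneg fun _ _ => by positivity)
  have h3 : Ma g T J ^ 2 = ∑ i ∈ Finset.range (2 ^ J),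
      (∫ t in (pt T J i)..(pt T J (i + 1)), ‖g t‖) ^ 2 :=
    Real.sq_sqrt (Finset.sum_nonneg fun _ _ => by positivity)
  rw [← h3]
  simp only [← h2]
  have h4 := sq_sum_le_card_mul_sum_sq (s := Finset.range (J + 1)) (f := fun j => Mj g T j)
  rw [Finset.card_range] at h4
  push_cast at h4
  set A := ∑ j ∈ Finset.range (J + 1), Mj g T j with hA
  set a := ∑ j ∈ Finset.range (J + 1), Mj g T j ^ 2 with ha
  set B := Ma g T J with hB
  have hJ : (0 : ℝ) ≤ J := Nat.cast_nonneg J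
  have hn : (0 : ℝ) < J + 1 := by positivity
  have h5 : ‖∫ t in (0:ℝ)..S, g t‖ ^ 2 ≤ (A + B) ^ 2 := pow_le_pow_left₀ (norm_nonneg _) h1 2
  refine h5.trans ?_
  have h6 : ((J : ℝ) + 1) * (A + B) ^ 2 ≤ ((J : ℝ) + 1) * ((J + 2) * (a + B ^ 2)) := by
    have h7 := sq_nonneg (A - (J + 1) * B)
    nlinarith
  exact le_of_mul_le_mul_left h6 hn

theorem log_bound (T : ℝ) (hT : 1 ≤ T) : ∃ J : ℕ, T ≤ 2 ^ J ∧ (2 : ℝ) ^ J ≤ 2 * T ∧
    ((J : ℝ) + 2) ≤ 5 * Real.log (T + 2) := by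
  set n : ℕ := ⌊T⌋₊ with hn
  have hn1 : 1 ≤ n := (Nat.one_le_floor_iff T).2 hT
  have h1 : (n : ℝ) ≤ T := Nat.floor_le (by linarith)
  have h2 : T < n + 1 := Nat.lt_floor_add_one T
  have h3 : 2 ^ Nat.log 2 n ≤ n := Nat.pow_log_le_self 2 (by omega)
  have h4 : n < 2 ^ (Nat.log 2 n + 1) := Nat.lt_pow_succ_log_self (by norm_num) n
  have h5 : (2 : ℝ) ^ (Nat.log 2 n + 1) ≤ 2 * T := by
    have h6 : ((2 ^ Nat.log 2 n : ℕ) : ℝ) ≤ n := by exact_mod_cast h3
    push_cast at h6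
    rw [pow_succ]
    linarith
  refine ⟨Nat.log 2 n + 1, ?_, h5, ?_⟩
  · have h6 : ((n + 1 : ℕ) : ℝ) ≤ ((2 ^ (Nat.log 2 n + 1) : ℕ) : ℝ) := by exact_mod_cast h4
    push_cast at h6
    linarith
  · have h6 : ((Nat.log 2 n + 1 : ℕ) : ℝ) * Real.log 2 ≤ Real.log 2 + Real.log T := by
      rw [← Real.log_pow, ← Real.log_mul (by norm_num) (by linarith)]
      exact Real.log_le_log (by positivity) h5
    have h7 : (0.6931471803 : ℝ) < Real.log 2 := Real.log_two_gt_d9
    have h8 : Real.log T ≤ Real.log (T + 2) := Real.log_le_log (by linarith) (by linarith)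
    have h9 : 1 ≤ Real.log (T + 2) := by
      rw [Real.le_log_iff_exp_le (by linarith)]
      have := Real.exp_one_lt_d9
      linarith
    have h10 : (0 : ℝ) ≤ (Nat.log 2 n : ℕ) := Nat.cast_nonneg _
    push_cast at h6 ⊢
    nlinarith

end Rmaux

open Rmaux in
/-- the part SQ/RM -/
theorem t_RM : S_RM := by
  refine ⟨50, by norm_num, ?_⟩
  intro Ω _ μ E f T K K' hT hK hK' hf H1 H2 lam hlam
  obtain ⟨J, hJ1, hJ2, hJ3⟩ := log_bound T hT
  have hT0 : 0 < T := by linarith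
  have hpt0 : ∀ j i, 0 ≤ pt T j i := fun j i => by
    have := pt_mono T hT0.le j (Nat.zero_le i)
    rwa [pt_zero] at this
  have hptT : ∀ j i, i < 2 ^ j → pt T j (i + 1) ≤ T := fun j i hi => by
    have := pt_mono T hT0.le j (Nat.succ_le_of_lt hi)
    rwa [pt_full] at this
  -- the majorants
  have C1 : ∀ j i : ℕ, ∃ G : Ω → ENNReal, Measurable G ∧ (i < 2 ^ j →
      (∀ x ∈ E, ENNReal.ofReal (‖∫ t in (pt T j i)..(pt T j (i + 1)), f x t‖ ^ 2) ≤ G x) ∧
      ∫⁻ x, G x ∂μ ≤ ENNReal.ofReal (K * (T / 2 ^ j))) := by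
    intro j i
    by_cases hi : i < 2 ^ j
    · obtain ⟨G, g1, g2, g3⟩ := H1 (pt T j i) (pt T j (i + 1)) (hpt0 j i)
        (pt_mono T hT0.le j (Nat.le_succ i)) (hptT j i hi)
      refine ⟨G, g1, fun _ => ⟨g2, ?_⟩⟩
      rw [pt_succ, add_sub_cancel_left] at g3
      exact g3
    · exact ⟨fun _ => 0, measurable_const, fun h => absurd h hi⟩
  have C2 : ∀ i : ℕ, ∃ G : Ω → ENNReal, Measurable G ∧ (i < 2 ^ J →
      (∀ x ∈ E, ENNReal.ofReal ((∫ t in (pt T J i)..(pt T J (i + 1)), ‖f x t‖) ^ 2) ≤ G x) ∧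
      ∫⁻ x, G x ∂μ ≤ ENNReal.ofReal K') := by
    intro i
    by_cases hi : i < 2 ^ J
    · obtain ⟨G, g1, g2, g3⟩ := H2 (pt T J i) (pt T J (i + 1)) (hpt0 J i)
        (pt_mono T hT0.le J (Nat.le_succ i)) (hptT J i hi) (by
          rw [pt_succ]
          have : T / 2 ^ J ≤ 1 := by
            rw [div_le_one (by positivity)]
            exact hJ1
          linarith)
      exact ⟨G, g1, fun _ => ⟨g2, g3⟩⟩
    · exact ⟨fun _ => 0, measurable_const, fun h => absurd h hi⟩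
  choose G G1 G2 using C1
  choose G' G1' G2' using C2
  set h : Ω → ENNReal := fun x => ∑ j ∈ Finset.range (J + 1), ∑ i ∈ Finset.range (2 ^ j), G j i x +
    ∑ i ∈ Finset.range (2 ^ J), G' i x with hh
  have hm1 : Measurable fun x => ∑ j ∈ Finset.range (J + 1), ∑ i ∈ Finset.range (2 ^ j), G j i x :=
    Finset.measurable_sum _ fun j _ => Finset.measurable_sum _ fun i _ => G1 j i
  have hm : Measurable h := hm1.add (Finset.measurable_sum _ fun i _ => G1' i)
  have hint : ∫⁻ x, h x ∂μ ≤ ENNReal.ofReal (((J : ℝ) + 2) * (K + K') * (2 * T)) := by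
    rw [hh, lintegral_add_left hm1,
      lintegral_finsetSum _ fun j _ => Finset.measurable_sum _ fun i _ => G1 j i,
      lintegral_finsetSum _ fun i _ => G1' i]
    have e1 : ∑ j ∈ Finset.range (J + 1), ∫⁻ x, ∑ i ∈ Finset.range (2 ^ j), G j i x ∂μ ≤
        ENNReal.ofReal (∑ j ∈ Finset.range (J + 1), K * T) := by
      rw [ENNReal.ofReal_sum_of_nonneg fun _ _ => by positivity]
      apply Finset.sum_le_sum
      intro j _
      rw [lintegral_finsetSum _ fun i _ => G1 j i]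
      calc ∑ i ∈ Finset.range (2 ^ j), ∫⁻ x, G j i x ∂μ ≤
          ∑ i ∈ Finset.range (2 ^ j), ENNReal.ofReal (K * (T / 2 ^ j)) :=
            Finset.sum_le_sum fun i hi => (G2 j i (Finset.mem_range.1 hi)).2
        _ = ENNReal.ofReal (∑ i ∈ Finset.range (2 ^ j), K * (T / 2 ^ j)) :=
            (ENNReal.ofReal_sum_of_nonneg fun _ _ => by positivity).symm
        _ = ENNReal.ofReal (K * T) := by
            congr 1
            rw [Finset.sum_const, Finset.card_range, nsmul_eq_mul]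
            push_cast
            field_simp
    have e2 : ∑ i ∈ Finset.range (2 ^ J), ∫⁻ x, G' i x ∂μ ≤
        ENNReal.ofReal (∑ i ∈ Finset.range (2 ^ J), K') := by
      rw [ENNReal.ofReal_sum_of_nonneg fun _ _ => hK']
      exact Finset.sum_le_sum fun i hi => (G2' i (Finset.mem_range.1 hi)).2
    refine (add_le_add e1 e2).trans ?_
    rw [← ENNReal.ofReal_add (Finset.sum_nonneg fun _ _ => by positivity)
      (Finset.sum_nonneg fun _ _ => hK')]
    apply ENNReal.ofReal_le_ofReal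
    rw [Finset.sum_const, Finset.sum_const, Finset.card_range, Finset.card_range, nsmul_eq_mul,
      nsmul_eq_mul]
    push_cast
    have hJ0 : (0 : ℝ) ≤ J := Nat.cast_nonneg J
    have a1 : (2 : ℝ) ^ J * K' ≤ 2 * T * K' := mul_le_mul_of_nonneg_right hJ2 hK'
    have a2 : 0 ≤ K * T := by positivity
    have a3 : 0 ≤ K' * T := by positivity
    have a4 : 0 ≤ (J : ℝ) * (K * T) := by positivity
    have a5 : 0 ≤ (J : ℝ) * (K' * T) := by positivity
    nlinarith
  have hJ0 : (0 : ℝ) < (J : ℝ) + 2 := by positivity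
  have hsub : E ∩ {x | ∃ S : ℝ, 0 ≤ S ∧ S ≤ T ∧ lam < ‖∫ t in (0:ℝ)..S, f x t‖} ⊆
      {x | ENNReal.ofReal (lam ^ 2 / (J + 2)) ≤ h x} := by
    rintro x ⟨hx, S, hS, hST, hl⟩
    have h1 := sq_bound (f x) (hf x) T hT0 J S hS hST
    have h2 : lam ^ 2 ≤ ‖∫ t in (0:ℝ)..S, f x t‖ ^ 2 := pow_le_pow_left₀ hlam.le hl.le 2
    have h3 : lam ^ 2 / (J + 2) ≤ ∑ j ∈ Finset.range (J + 1), ∑ i ∈ Finset.range (2 ^ j),
          ‖∫ t in (pt T j i)..(pt T j (i + 1)), f x t‖ ^ 2 +
        ∑ i ∈ Finset.range (2 ^ J), (∫ t in (pt T J i)..(pt T J (i + 1)), ‖f x t‖) ^ 2 := by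
      rw [div_le_iff₀ hJ0, mul_comm]
      exact h2.trans h1
    show ENNReal.ofReal (lam ^ 2 / (J + 2)) ≤ h x
    refine (ENNReal.ofReal_le_ofReal h3).trans ?_
    rw [ENNReal.ofReal_add (Finset.sum_nonneg fun _ _ => Finset.sum_nonneg fun _ _ => by positivity)
      (Finset.sum_nonneg fun _ _ => by positivity),
      ENNReal.ofReal_sum_of_nonneg fun _ _ => Finset.sum_nonneg fun _ _ => by positivity,
      ENNReal.ofReal_sum_of_nonneg fun _ _ => by positivity]
    apply add_le_add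
    · apply Finset.sum_le_sum
      intro j _
      rw [ENNReal.ofReal_sum_of_nonneg fun _ _ => by positivity]
      exact Finset.sum_le_sum fun i hi => (G2 j i (Finset.mem_range.1 hi)).1 x hx
    · exact Finset.sum_le_sum fun i hi => (G2' i (Finset.mem_range.1 hi)).1 x hx
  refine (measure_mono hsub).trans ?_
  have hε : 0 < lam ^ 2 / ((J : ℝ) + 2) := by positivity
  refine (meas_ge_le_lintegral_div hm.aemeasurable (ENNReal.ofReal_pos.2 hε).ne'
    ENNReal.ofReal_ne_top).trans ?_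
  refine (ENNReal.div_le_div_right hint _).trans ?_
  rw [← ENNReal.ofReal_div_of_pos hε]
  apply ENNReal.ofReal_le_ofReal
  have e1 : ((J : ℝ) + 2) * (K + K') * (2 * T) / (lam ^ 2 / (J + 2)) =
      2 * ((J : ℝ) + 2) ^ 2 * (K + K') * T / lam ^ 2 := by
    field_simp
  rw [e1]
  apply div_le_div_of_nonneg_right _ (by positivity)
  apply mul_le_mul_of_nonneg_right _ hT0.le
  apply mul_le_mul_of_nonneg_right _ (by positivity)
  have h5 : ((J : ℝ) + 2) ^ 2 ≤ (5 * Real.log (T + 2)) ^ 2 := pow_le_pow_left₀ hJ0.le hJ3 2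
  nlinarith

end Pool.Agent.N879.SQ
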