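import Pool.Agent.N879.SQ.Stm
import Pool.Agent.TH757.GS.Sft

set_option autoImplicit false

/-!
Project SQ, part SHP: shift of the line for functions of polynomial growth (helper409; adapted from
`Pool/Agent/TH757/GS/Lap.lean` and `Sft.lean` of helper757).
-/

namespace Pool.Agent.N879.SQ

open Complex Filter Topology MeasureTheory Set
open Pool.Agent.TH612.CF Pool.Agent.TH612.GS Pool.Agent.TH757.GS Pool.Agent.W182.KO
open scoped ContDiff

noncomputable section

namespace Shpaux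

variable {ψ : ℝ → ℝ}

lemma rho_bdN (h : CutR ψ) (M : ℕ) : ∃ C : ℝ, 0 ≤ C ∧
    (∀ z : ℂ, 0 ≤ z.re → ‖P (rho ψ) z‖ * (1 + ‖z‖) ^ M ≤ C * Real.exp z.re) ∧
    ∀ z : ℂ, z.re ≤ 0 → ‖P (rho ψ) z‖ * (1 + ‖z‖) ^ M ≤ C * Real.exp (z.re / 2) := by
  obtain ⟨C1, h1, h2⟩ := P_bound (rho_TF h) M
  obtain ⟨C2, h3, h4⟩ := P_bound (rho_TF' h) M
  refine ⟨max C1 C2, h1.trans (le_max_left _ _), fun z hz => ?_, fun z hz => ?_⟩
  · refine (h2 z hz).trans ?_
    rw [one_mul]
    exact mul_le_mul_of_nonneg_right (le_max_left _ _) (Real.exp_pos _).le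
  · have h5 := h4 (-z) (by simpa using hz)
    rw [P_refl, neg_neg, norm_neg] at h5
    refine h5.trans ?_
    have e : -(1 / 2) * (-z).re = z.re / 2 := by simp; ring
    rw [e]
    exact mul_le_mul_of_nonneg_right (le_max_right _ _) (Real.exp_pos _).le

lemma Qk_le {z : ℂ} (hz : 1 ≤ ‖z‖) : ‖Qk ψ z‖ ≤ ‖P (rho ψ) z‖ := by
  unfold Qk
  rw [norm_div, norm_neg]
  exact div_le_self (norm_nonneg _) hz

/-- integrability on a line -/
lemma int_line {r K B : ℝ} {N : ℕ} (hK : 0 ≤ K) (hB : 0 ≤ B) {Q G : ℝ → ℂ} (hQ : Continuous Q)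
    (hG : Continuous G)
    (h1 : ∀ y : ℝ, ‖Q y‖ * (1 + ‖(r : ℂ) + y * I‖) ^ (N + 2) ≤ K)
    (h2 : ∀ y : ℝ, ‖G y‖ ≤ B * (1 + ‖(r : ℂ) + y * I‖) ^ N) :
    Integrable (fun y : ℝ => Q y * G y) := by
  refine (one_add_inv_sq_int.const_mul (K * B)).mono' (hQ.mul hG).aestronglyMeasurable
    (Eventually.of_forall fun y => ?_)
  rw [norm_mul]
  have h3 : |y| ≤ ‖(r : ℂ) + y * I‖ := by
    have h4 := Complex.abs_im_le_norm ((r : ℂ) + y * I)
    have e2 : ((r : ℂ) + y * I).im = y := by simp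
    rwa [e2] at h4
  set w : ℝ := 1 + ‖(r : ℂ) + y * I‖ with hw
  have hw0 : 0 < w := by positivity
  have h4 : ‖Q y‖ ≤ K / w ^ (N + 2) := by
    rw [le_div_iff₀ (by positivity)]
    exact h1 y
  calc ‖Q y‖ * ‖G y‖ ≤ (K / w ^ (N + 2)) * (B * w ^ N) := by
        have := h2 y
        gcongr
    _ = K * B * (w ^ 2)⁻¹ := by
        rw [pow_add]
        field_simp
    _ ≤ K * B * ((1 + |y|) ^ 2)⁻¹ := by
        have h5 : (w ^ 2)⁻¹ ≤ ((1 + |y|) ^ 2)⁻¹ := by
          apply inv_anti₀ (by positivity)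
          have : 1 + |y| ≤ w := by linarith
          gcongr
        gcongr

end Shpaux

open Shpaux in
theorem t_SHP : S_SHP := by
  intro ψ N hψ
  have h : CutR ψ := ⟨hψ.1, hψ.2.1, hψ.2.2.1, hψ.2.2.2⟩
  obtain ⟨C, hC0, hC1, hC2⟩ := rho_bdN h (N + 2)
  have q1 : ∀ c y : ℝ, 1 ≤ c → ‖Qk ψ ((c : ℂ) + y * I)‖ * (1 + ‖(c : ℂ) + y * I‖) ^ (N + 2) ≤
      C * Real.exp c := by
    intro c y hc
    have e1 : ((c : ℂ) + y * I).re = c := by simp
    have h3 := Complex.abs_re_le_norm ((c : ℂ) + y * I)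
    rw [e1, abs_of_pos (by linarith)] at h3
    have h4 := hC1 ((c : ℂ) + y * I) (by rw [e1]; linarith)
    rw [e1] at h4
    refine le_trans ?_ h4
    have := Qk_le (ψ := ψ) (hc.trans h3)
    gcongr
  have q2 : ∀ c y : ℝ, 1 ≤ c → ‖Qk ψ (((-c : ℝ) : ℂ) + y * I)‖ *
      (1 + ‖((-c : ℝ) : ℂ) + y * I‖) ^ (N + 2) ≤ C * Real.exp (-c / 2) := by
    intro c y hc
    have e1 : (((-c : ℝ) : ℂ) + y * I).re = -c := by simp
    have h3 := Complex.abs_re_le_norm (((-c : ℝ) : ℂ) + y * I)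
    rw [e1, abs_neg, abs_of_pos (by linarith)] at h3
    have h4 := hC2 (((-c : ℝ) : ℂ) + y * I) (by rw [e1]; linarith)
    rw [e1] at h4
    refine le_trans ?_ h4
    have := Qk_le (ψ := ψ) (hc.trans h3)
    gcongr
  have wle : ∀ r y : ℝ, (1 + |y|) ^ N ≤ (1 + ‖(r : ℂ) + y * I‖) ^ (N + 2) := by
    intro r y
    have h4 := Complex.abs_im_le_norm ((r : ℂ) + y * I)
    have e2 : ((r : ℂ) + y * I).im = y := by simp
    rw [e2] at h4
    have h5 : (1 + |y|) ^ N ≤ (1 + ‖(r : ℂ) + y * I‖) ^ N := by gcongr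
    refine h5.trans (pow_le_pow_right₀ ?_ (by omega))
    have := norm_nonneg ((r : ℂ) + y * I)
    linarith
  refine ⟨C + 1, by linarith, fun c y hc => ⟨?_, ?_⟩, ?_⟩
  · calc _ ≤ ‖Qk ψ ((c : ℂ) + y * I)‖ * (1 + ‖(c : ℂ) + y * I‖) ^ (N + 2) := by
          have := wle c y
          gcongr
      _ ≤ C * Real.exp c := q1 c y hc
      _ ≤ (C + 1) * Real.exp c := by
          have := Real.exp_pos c
          linarith
  · calc _ ≤ ‖Qk ψ (((-c : ℝ) : ℂ) + y * I)‖ * (1 + ‖((-c : ℝ) : ℂ) + y * I‖) ^ (N + 2) := by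
          have := wle (-c) y
          gcongr
      _ ≤ C * Real.exp (-c / 2) := q2 c y hc
      _ ≤ (C + 1) * Real.exp (-c / 2) := by
          have := Real.exp_pos (-c / 2)
          linarith
  intro c c' B F hc hc' hd hB
  have hU : IsOpen {s : ℂ | |s.re| < c'} :=
    isOpen_lt (continuous_abs.comp Complex.continuous_re) continuous_const
  have h0U : {s : ℂ | |s.re| < c'} ∈ 𝓝 (0 : ℂ) := hU.mem_nhds (by
    show |(0 : ℂ).re| < c'
    simp
    linarith)
  have hds : DifferentiableOn ℂ (dslope F 0) {s : ℂ | |s.re| < c'} :=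
    (Complex.differentiableOn_dslope h0U).2 hd
  have hB00 : ‖F 0‖ ≤ B := by
    have := hB 0 (by simp; linarith)
    simpa using this
  have hB0 : 0 ≤ B := (norm_nonneg _).trans hB00
  have hPd := P_diff (rho_TF h)
  -- bound for the slope
  obtain ⟨B2, hB20, hB2⟩ : ∃ B2 : ℝ, 0 ≤ B2 ∧
      ∀ s : ℂ, |s.re| ≤ c → ‖dslope F 0 s‖ ≤ B2 * (1 + ‖s‖) ^ N := by
    obtain ⟨B3, hB3⟩ := (isCompact_closedBall (0 : ℂ) 1).exists_bound_of_continuousOn
      (f := dslope F 0) (hds.continuousOn.mono (fun s hs => by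
        rw [mem_closedBall_zero_iff] at hs
        show |s.re| < c'
        have := Complex.abs_re_le_norm s
        linarith))
    refine ⟨max (2 * B) B3, le_trans (by positivity) (le_max_left _ _), fun s hs => ?_⟩
    have hs1 : 1 ≤ (1 + ‖s‖) ^ N := one_le_pow₀ (by linarith [norm_nonneg s])
    have hm : 0 ≤ max (2 * B) B3 := le_trans (by positivity) (le_max_left _ _)
    by_cases h1 : ‖s‖ ≤ 1
    · exact ((hB3 s (mem_closedBall_zero_iff.2 h1)).trans (le_max_right _ _)).trans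
        (le_mul_of_one_le_right hm hs1)
    · push Not at h1
      have hs0 : s ≠ 0 := by
        rintro rfl
        rw [norm_zero] at h1
        linarith
      rw [dslope_of_ne _ hs0, slope_def_field, sub_zero, norm_div]
      refine le_trans (div_le_self (norm_nonneg _) h1.le) ?_
      refine (norm_sub_le _ _).trans ?_
      have h2 := hB s hs
      have h3 : B ≤ B * (1 + ‖s‖) ^ N := le_mul_of_one_le_right hB0 hs1
      calc ‖F s‖ + ‖F 0‖ ≤ 2 * B * (1 + ‖s‖) ^ N := by linarith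
        _ ≤ _ := mul_le_mul_of_nonneg_right (le_max_left _ _) (by positivity)
  have hPb : ∀ s : ℂ, |s.re| ≤ c → ‖P (rho ψ) s‖ * (1 + ‖s‖) ^ (N + 2) ≤ C * Real.exp c := by
    intro s hs
    rcases le_total 0 s.re with h2 | h2
    · refine (hC1 s h2).trans ?_
      have := le_abs_self s.re
      gcongr
      linarith
    · refine (hC2 s h2).trans ?_
      gcongr
      linarith
  have hsh := strip_shift (f := fun s => -(P (rho ψ) s * dslope F 0 s)) (a := -c) (b := c)
    (B := C * Real.exp c * B2) (by linarith) (by positivity) (fun s h1 h2 => by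
      have hs : s ∈ {s : ℂ | |s.re| < c'} := by
        show |s.re| < c'
        rw [abs_lt]
        constructor <;> linarith
      exact ((hPd s).mul (hds.differentiableAt (hU.mem_nhds hs))).neg) (fun s h1 h2 => by
      have hs : |s.re| ≤ c := abs_le.2 ⟨h1, h2⟩
      rw [norm_neg, norm_mul]
      have g1 : ‖P (rho ψ) s‖ ≤ C * Real.exp c / (1 + ‖s‖) ^ (N + 2) := by
        rw [le_div_iff₀ (by positivity)]
        exact hPb s hs
      have g2 := hB2 s hs
      have g3 : 0 < 1 + ‖s‖ := by positivity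
      calc ‖P (rho ψ) s‖ * ‖dslope F 0 s‖ ≤
            (C * Real.exp c / (1 + ‖s‖) ^ (N + 2)) * (B2 * (1 + ‖s‖) ^ N) := by
            gcongr
        _ = C * Real.exp c * B2 / (1 + ‖s‖) ^ 2 := by
            rw [pow_add]
            field_simp
        _ ≤ C * Real.exp c * B2 / (1 + |s.im|) ^ 2 := by
            have := Complex.abs_im_le_norm s
            gcongr)
  have hline : ∀ (r : ℝ), r ≠ 0 → ∀ y : ℝ, -(P (rho ψ) ((r : ℂ) + y * I) *
      dslope F 0 ((r : ℂ) + y * I)) = Qk ψ ((r : ℂ) + y * I) * F ((r : ℂ) + y * I) -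
        Qk ψ ((r : ℂ) + y * I) * F 0 := by
    intro r hr y
    have hs0 : (r : ℂ) + y * I ≠ 0 := by
      intro h0
      have := congrArg Complex.re h0
      simp at this
      exact hr this
    rw [dslope_of_ne _ hs0, slope_def_field, sub_zero]
    unfold Qk
    field_simp
    ring
  have hFc : ∀ r : ℝ, |r| ≤ c → Continuous (fun y : ℝ => F ((r : ℂ) + y * I)) := by
    intro r hr
    rw [continuous_iff_continuousAt]
    intro y
    have h1 : ((r : ℂ) + y * I) ∈ {s : ℂ | |s.re| < c'} := by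
      show |((r : ℂ) + y * I).re| < c'
      have e : ((r : ℂ) + y * I).re = r := by simp
      rw [e]
      linarith
    have h3 := (hd.differentiableAt (hU.mem_nhds h1)).continuousAt
    exact ContinuousAt.comp (f := fun y : ℝ => ((r : ℂ) + y * I)) h3 (by fun_prop)
  have hFb : ∀ r : ℝ, |r| ≤ c → ∀ y : ℝ,
      ‖F ((r : ℂ) + y * I)‖ ≤ B * (1 + ‖(r : ℂ) + y * I‖) ^ N := by
    intro r hr y
    apply hB
    have e : ((r : ℂ) + y * I).re = r := by simp
    rw [e]
    exact hr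
  have hF0 : ∀ r y : ℝ, ‖F 0‖ ≤ B * (1 + ‖(r : ℂ) + y * I‖) ^ N := by
    intro r y
    refine hB00.trans (le_mul_of_one_le_right hB0 (one_le_pow₀ ?_))
    linarith [norm_nonneg ((r : ℂ) + y * I)]
  have hcc : |c| ≤ c := by rw [abs_of_pos (by linarith)]
  have hcn : |(-c)| ≤ c := by rw [abs_neg]; exact hcc
  have k1 : Continuous (fun y : ℝ => Qk ψ ((c : ℂ) + y * I)) := Qk_cont h (by linarith)
  have k2 : Continuous (fun y : ℝ => Qk ψ (((-c : ℝ) : ℂ) + y * I)) :=
    Qk_cont h (c := -c) (by intro h0; linarith)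
  have i1 := int_line (r := c) (K := C * Real.exp c) (by positivity) hB0 k1 (hFc c hcc)
    (fun y => q1 c y hc) (hFb c hcc)
  have i2 := int_line (r := -c) (K := C * Real.exp (-c / 2)) (by positivity) hB0 k2 (hFc (-c) hcn)
    (fun y => q2 c y hc) (hFb (-c) hcn)
  have i3 := int_line (r := c) (K := C * Real.exp c) (by positivity) hB0 k1
    (continuous_const (y := F 0)) (fun y => q1 c y hc) (hF0 c)
  have i4 := int_line (r := -c) (K := C * Real.exp (-c / 2)) (by positivity) hB0 k2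
    (continuous_const (y := F 0)) (fun y => q2 c y hc) (hF0 (-c))
  have e1 : ∫ y : ℝ, Qk ψ ((c : ℂ) + y * I) * F 0 = 2 * Real.pi * F 0 := by
    rw [integral_mul_const]
    have h1 := inv_pos' h hc 0
    have h2 : (fun y : ℝ => Qk ψ (c + y * I) * exp (-(((0 : ℝ) : ℂ) * y) * I)) =
        fun y : ℝ => Qk ψ (c + y * I) := by
      funext y
      simp
    rw [h2] at h1
    rw [h1, h.one 0 (by norm_num)]
    simp
  have e2 : ∫ y : ℝ, Qk ψ (((-c : ℝ) : ℂ) + y * I) * F 0 = 0 := by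
    rw [integral_mul_const]
    have h1 := inv_neg' h hc 0
    have h2 : (fun y : ℝ => Qk ψ (((-c : ℝ) : ℂ) + y * I) * exp (-(((0 : ℝ) : ℂ) * y) * I)) =
        fun y : ℝ => Qk ψ (((-c : ℝ) : ℂ) + y * I) := by
      funext y
      simp
    rw [h2] at h1
    rw [h1, h.one 0 (by norm_num)]
    simp
  simp only [hline (-c) (by intro h0; linarith), hline c (by intro h0; linarith)] at hsh
  rw [integral_sub i2 i4, integral_sub i1 i3, e1, e2, sub_zero] at hsh
  exact ⟨i1, i2, hsh.symm⟩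

end

end Pool.Agent.N879.SQ
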