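import Pool.Agent.N879.SQ.Stm
import Pool.Agent.TH738.GF.TMV
import Pool.Agent.TH928.GS.MV

/-!
Project SQ (helper879), part TM2: large sieve in `2k` variables with both signs (helper300).
-/

set_option autoImplicit false

namespace Pool.Agent.N879.SQ

open Complex Filter Topology MeasureTheory Set
open Pool.Agent.TH612.GS

noncomputable section

namespace Tm2aux

/-- the index set -/
abbrev Pn (k X : ℕ) : Finset (Fin k → ℕ) := Fintype.piFinset (fun _ : Fin k => Finset.Icc 1 X)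

theorem sum_elim {M : Type} [AddCommMonoid M] {k X : ℕ} (f : (Fin k ⊕ Fin k → ℕ) → M) :
    ∑ ν ∈ tup k X, f ν = ∑ m ∈ Pn k X, ∑ n ∈ Pn k X, f (Sum.elim n m) := by
  rw [← Finset.sum_product']
  unfold tup
  refine Finset.sum_nbij' (fun ν => (fun i => ν (Sum.inr i), fun i => ν (Sum.inl i)))
    (fun p => Sum.elim p.2 p.1) ?_ ?_ ?_ ?_ ?_
  · intro ν hν
    rw [Fintype.mem_piFinset] at hν
    rw [Finset.mem_product, Fintype.mem_piFinset, Fintype.mem_piFinset]
    exact ⟨fun i => hν _, fun i => hν _⟩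
  · intro p hp
    rw [Finset.mem_product, Fintype.mem_piFinset, Fintype.mem_piFinset] at hp
    rw [Fintype.mem_piFinset]
    rintro (i | i)
    · exact hp.2 i
    · exact hp.1 i
  · intro ν _
    funext i
    rcases i with i | i <;> rfl
  · intro p _
    rfl
  · intro ν _
    congr 1
    funext i
    rcases i with i | i <;> rfl

/-- the inner sum -/
def Bm {k : ℕ} (X : ℕ) (a : (Fin k ⊕ Fin k → ℕ) → ℂ) (m : Fin k → ℕ) (x : Fin k → ℝ) : ℂ :=
  ∑ n ∈ Pn k X, a (Sum.elim n m) * ∏ j, (n j : ℂ) ^ (-(I * (x j : ℂ)))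

/-- the sum as a function of two vectors -/
def GG {k : ℕ} (X : ℕ) (a : (Fin k ⊕ Fin k → ℕ) → ℂ) (x y : Fin k → ℝ) : ℂ :=
  ∑ m ∈ Pn k X, Bm X a m x * ∏ j, (m j : ℂ) ^ (I * (y j : ℂ))

theorem GG_eq {k : ℕ} (X : ℕ) (a : (Fin k ⊕ Fin k → ℕ) → ℂ) (γ : Fin k ⊕ Fin k → ℝ) :
    ∑ ν ∈ tup k X, a ν * ch ν γ = GG X a (fun i => γ (Sum.inl i)) (fun i => γ (Sum.inr i)) := by
  rw [sum_elim]
  unfold GG Bm
  refine Finset.sum_congr rfl fun m _ => ?_
  rw [Finset.sum_mul]
  refine Finset.sum_congr rfl fun n _ => ?_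
  unfold ch
  simp only [Sum.elim_inl, Sum.elim_inr]
  ring

theorem cont_Bm {k : ℕ} (X : ℕ) (a : (Fin k ⊕ Fin k → ℕ) → ℂ) (m : Fin k → ℕ) :
    Continuous (Bm X a m) := by
  unfold Bm
  refine continuous_finsetSum _ fun n hn => ?_
  refine continuous_const.mul (continuous_finsetProd _ fun l _ => ?_)
  have hn0 : ((n l : ℕ) : ℂ) ≠ 0 := by
    rw [Fintype.mem_piFinset] at hn
    have := (Finset.mem_Icc.mp (hn l)).1
    exact_mod_cast (by omega : n l ≠ 0)
  exact ((continuous_const.mul (continuous_ofReal.comp (continuous_apply l))).neg).const_cpow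
    (Or.inl hn0)

theorem cont_GG {k : ℕ} (X : ℕ) (a : (Fin k ⊕ Fin k → ℕ) → ℂ) :
    Continuous fun p : (Fin k → ℝ) × (Fin k → ℝ) => GG X a p.1 p.2 := by
  unfold GG
  refine continuous_finsetSum _ fun m hm => ?_
  refine ((cont_Bm X a m).comp continuous_fst).mul (continuous_finsetProd _ fun l _ => ?_)
  have hn0 : ((m l : ℕ) : ℂ) ≠ 0 := by
    rw [Fintype.mem_piFinset] at hm
    have := (Finset.mem_Icc.mp (hm l)).1
    exact_mod_cast (by omega : m l ≠ 0)
  exact (continuous_const.mul (continuous_ofReal.comp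
    ((continuous_apply l).comp continuous_snd))).const_cpow (Or.inl hn0)

theorem norm_Bm {k : ℕ} (X : ℕ) (a : (Fin k ⊕ Fin k → ℕ) → ℂ) (m : Fin k → ℕ) (x : Fin k → ℝ) :
    ‖Bm X a m x‖ = ‖∑ n ∈ Pn k X, (starRingEnd ℂ) (a (Sum.elim n m)) *
      ∏ j, (n j : ℂ) ^ (I * (x j : ℂ))‖ := by
  rw [← norm_conj (Bm X a m x)]
  congr 1
  unfold Bm
  rw [map_sum]
  refine Finset.sum_congr rfl fun n _ => ?_
  rw [map_mul, map_prod]
  congr 1
  refine Finset.prod_congr rfl fun j _ => ?_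
  rw [Pool.Agent.TH738.GF.conj_pow, conj_conj]

end Tm2aux

open Tm2aux

theorem t_TM2 : S_TM2 := by
  intro k
  obtain ⟨C, hC, h⟩ := Pool.Agent.TH738.GF.t_TMV Pool.Agent.TH928.GS.t_MV k
  refine ⟨C ^ 2, by positivity, fun T X a hT hX => ?_⟩
  have hT0 : 0 ≤ T := by linarith
  have hmp := measurePreserving_sumPiEquivProdPi
    (fun _ : Fin k ⊕ Fin k => (volume : Measure ℝ).restrict (Icc 0 T))
  have e1 : ∫⁻ γ, ENNReal.ofReal (‖∑ ν ∈ tup k X, a ν * ch ν γ‖ ^ 2) ∂(mP (Fin k ⊕ Fin k) T) =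
      ∫⁻ p, ENNReal.ofReal (‖GG X a p.1 p.2‖ ^ 2) ∂((mP (Fin k) T).prod (mP (Fin k) T)) := by
    unfold mP
    rw [← hmp.lintegral_comp_emb (MeasurableEquiv.measurableEmbedding _)]
    apply lintegral_congr
    intro γ
    rw [GG_eq]
    rfl
  have hsf : SigmaFinite (mP (Fin k) T) := by unfold mP; infer_instance
  have hmeas : Measurable fun p : (Fin k → ℝ) × (Fin k → ℝ) =>
      ENNReal.ofReal (‖GG X a p.1 p.2‖ ^ 2) :=
    (((cont_GG X a).norm.pow 2).measurable).ennreal_ofReal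
  have hb : ∀ m : Fin k → ℕ, Measurable fun x : Fin k → ℝ =>
      ENNReal.ofReal (‖Bm X a m x‖ ^ 2) := fun m =>
    (((cont_Bm X a m).norm.pow 2).measurable).ennreal_ofReal
  rw [e1, lintegral_prod _ hmeas.aemeasurable]
  calc ∫⁻ x, (∫⁻ y, ENNReal.ofReal (‖GG X a x y‖ ^ 2) ∂(mP (Fin k) T)) ∂(mP (Fin k) T)
      ≤ ∫⁻ x, ENNReal.ofReal (C * T ^ k * ∑ m ∈ Pn k X, ‖Bm X a m x‖ ^ 2) ∂(mP (Fin k) T) := by
        apply lintegral_mono
        intro x
        exact h T X (fun m => Bm X a m x) hT hX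
    _ = ENNReal.ofReal (C * T ^ k) * ∑ m ∈ Pn k X,
          ∫⁻ x, ENNReal.ofReal (‖Bm X a m x‖ ^ 2) ∂(mP (Fin k) T) := by
        rw [← lintegral_finsetSum _ (fun m _ => hb m), ← lintegral_const_mul _
          (Finset.measurable_fun_sum _ fun m _ => hb m)]
        apply lintegral_congr
        intro x
        rw [ENNReal.ofReal_mul (by positivity), ENNReal.ofReal_sum_of_nonneg
          (fun m _ => by positivity)]
    _ ≤ ENNReal.ofReal (C * T ^ k) * ∑ m ∈ Pn k X,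
          ENNReal.ofReal (C * T ^ k * ∑ n ∈ Pn k X, ‖a (Sum.elim n m)‖ ^ 2) := by
        gcongr with m _
        have h1 := h T X (fun n => (starRingEnd ℂ) (a (Sum.elim n m))) hT hX
        simp only [norm_conj] at h1
        simp only [norm_Bm]
        exact h1
    _ = ENNReal.ofReal (C ^ 2 * T ^ (2 * k) * ∑ ν ∈ tup k X, ‖a ν‖ ^ 2) := by
        rw [← ENNReal.ofReal_sum_of_nonneg (fun m _ => by positivity),
          ← ENNReal.ofReal_mul (by positivity), sum_elim, ← Finset.mul_sum]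
        congr 1
        ring

end

end Pool.Agent.N879.SQ
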