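import Pool.Agent.N879.SQ.Stm
import Pool.Agent.N879.PU.Mv
import Pool.Agent.TH738.GF.TMV

/-!
Project SQ (helper879), part TMW: weighted mean value theorem for sums of characters in several
variables, any length (by helper18).
-/

set_option autoImplicit false

namespace Pool.Agent.N879.SQ

open Complex Filter Topology MeasureTheory Set
open Pool.Agent.TH612.GS

noncomputable section

namespace Tmwaux

open Pool.Agent.TH738.GF

/-- the coefficients of the dyadic block `[2^j, 2^(j+1))` -/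
def blk (X : ℕ) (b : ℕ → ℂ) (j n : ℕ) : ℂ := if Nat.log 2 n = j ∧ n ≤ X then b n else 0

/-- splitting into dyadic blocks -/
theorem split {M : Type} [AddCommMonoid M] (X : ℕ) (f : ℕ → M) :
    ∑ n ∈ Finset.Icc 1 X, f n = ∑ j ∈ Finset.range (Nat.log 2 X + 1),
      ∑ n ∈ Finset.Icc (2 ^ j) (2 * 2 ^ j), if Nat.log 2 n = j ∧ n ≤ X then f n else 0 := by
  have h1 : ∑ n ∈ Finset.Icc 1 X, f n = ∑ j ∈ Finset.range (Nat.log 2 X + 1),
      ∑ n ∈ Finset.Icc 1 X with Nat.log 2 n = j, f n := by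
    rw [Finset.sum_fiberwise_of_maps_to]
    intro n hn
    rw [Finset.mem_range]
    exact Nat.lt_succ_of_le (Nat.log_mono_right (Finset.mem_Icc.1 hn).2)
  rw [h1]
  refine Finset.sum_congr rfl fun j _ => ?_
  rw [← Finset.sum_filter]
  refine Finset.sum_congr ?_ fun _ _ => rfl
  ext n
  simp only [Finset.mem_filter, Finset.mem_Icc]
  constructor
  · rintro ⟨⟨hn1, hnX⟩, hj⟩
    subst hj
    refine ⟨⟨Nat.pow_log_le_self 2 (by omega), ?_⟩, rfl, hnX⟩
    have := Nat.lt_pow_succ_log_self (b := 2) one_lt_two n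
    rw [pow_succ] at this
    omega
  · rintro ⟨⟨h2, _⟩, hj, hnX⟩
    have : 1 ≤ 2 ^ j := Nat.one_le_two_pow
    exact ⟨⟨by omega, hnX⟩, hj⟩

theorem nblk {X : ℕ} (hX : 2 ≤ X) :
    ((Nat.log 2 X + 1 : ℕ) : ℝ) ≤ 2 / Real.log 2 * Real.log X := by
  have hX0 : (2 : ℝ) ≤ X := by exact_mod_cast hX
  have hl2 : 0 < Real.log 2 := Real.log_pos one_lt_two
  have h1 : Real.log 2 ≤ Real.log X := Real.log_le_log two_pos hX0
  have h2 : ((2 ^ Nat.log 2 X : ℕ) : ℝ) ≤ X := by
    exact_mod_cast Nat.pow_log_le_self 2 (by omega)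
  have h3 : (Nat.log 2 X : ℝ) * Real.log 2 ≤ Real.log X := by
    rw [← Real.log_pow]
    apply Real.log_le_log (by positivity)
    exact_mod_cast h2
  rw [div_mul_eq_mul_div, le_div_iff₀ hl2]
  push_cast
  linarith

/-- one variable -/
theorem one {C : ℝ} (hC : 0 < C)
    (h : ∀ (M : ℕ) (a b : ℝ) (c : ℕ → ℂ), 1 ≤ M → a ≤ b →
      ∫ u in a..b, ‖∑ n ∈ Finset.Icc M (2 * M), c n * (n : ℂ) ^ (-(I * u))‖ ^ 2 ≤
        C * ((b - a) + M) * ∑ n ∈ Finset.Icc M (2 * M), ‖c n‖ ^ 2)
    (T : ℝ) (X : ℕ) (b : ℕ → ℂ) (hT : 4 ≤ T) (hX : 2 ≤ X) :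
    ∫⁻ y in Icc 0 T, ENNReal.ofReal (‖∑ n ∈ Finset.Icc 1 X, b n * (n : ℂ) ^ (I * (y : ℂ))‖ ^ 2) ≤
      ENNReal.ofReal (2 / Real.log 2 ^ 2 * C * Real.log X ^ 2 *
        ∑ n ∈ Finset.Icc 1 X, (T + n) * ‖b n‖ ^ 2) := by
  have hT0 : (0 : ℝ) ≤ T := by linarith
  set J := Nat.log 2 X + 1 with hJ
  set c : ℕ → ℕ → ℂ := fun j n => if Nat.log 2 n = j ∧ n ≤ X then (starRingEnd ℂ) (b n) else 0
    with hc
  set S : ℕ → ℝ → ℂ := fun j u => ∑ n ∈ Finset.Icc (2 ^ j) (2 * 2 ^ j), c j n *
    (n : ℂ) ^ (-(I * u)) with hS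
  have hScont : ∀ j, Continuous (S j) := by
    intro j
    refine continuous_finsetSum _ fun n hn => ?_
    have hn0 : (n : ℂ) ≠ 0 := by
      have h1 := (Finset.mem_Icc.mp hn).1
      have : 1 ≤ 2 ^ j := Nat.one_le_two_pow
      exact_mod_cast (by omega : n ≠ 0)
    exact continuous_const.mul
      ((continuous_const.mul continuous_ofReal).neg.const_cpow (Or.inl hn0))
  have e1 : ∀ u : ℝ, ‖∑ n ∈ Finset.Icc 1 X, b n * (n : ℂ) ^ (I * (u : ℂ))‖ =
      ‖∑ j ∈ Finset.range J, S j u‖ := by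
    intro u
    rw [← norm_conj (∑ n ∈ Finset.Icc 1 X, b n * (n : ℂ) ^ (I * (u : ℂ))), map_sum, split]
    congr 1
    refine Finset.sum_congr rfl fun j _ => Finset.sum_congr rfl fun n _ => ?_
    by_cases hjn : Nat.log 2 n = j ∧ n ≤ X
    · rw [if_pos hjn, hc]
      simp only [if_pos hjn]
      rw [map_mul, conj_pow]
    · rw [if_neg hjn, hc]
      simp only [if_neg hjn, zero_mul]
  have e2 : ∀ u : ℝ, ‖∑ j ∈ Finset.range J, S j u‖ ^ 2 ≤
      J * ∑ j ∈ Finset.range J, ‖S j u‖ ^ 2 := by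
    intro u
    calc ‖∑ j ∈ Finset.range J, S j u‖ ^ 2 ≤ (∑ j ∈ Finset.range J, ‖S j u‖) ^ 2 := by
          gcongr; exact norm_sum_le _ _
      _ ≤ (Finset.range J).card * ∑ j ∈ Finset.range J, ‖S j u‖ ^ 2 := sq_sum_le_card_mul_sum_sq
      _ = _ := by rw [Finset.card_range]
  have hcont2 : Continuous fun u : ℝ => (J : ℝ) * ∑ j ∈ Finset.range J, ‖S j u‖ ^ 2 :=
    continuous_const.mul (continuous_finsetSum _ fun j _ => (hScont j).norm.pow 2)
  have hint : IntegrableOn (fun u : ℝ => (J : ℝ) * ∑ j ∈ Finset.range J, ‖S j u‖ ^ 2)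
      (Icc 0 T) := hcont2.continuousOn.integrableOn_Icc
  have e3 : ∫ u in Icc 0 T, (J : ℝ) * ∑ j ∈ Finset.range J, ‖S j u‖ ^ 2 ≤
      J * (C * ∑ n ∈ Finset.Icc 1 X, (T + n) * ‖b n‖ ^ 2) := by
    have hii : ∀ j ∈ Finset.range J,
        IntervalIntegrable (fun u : ℝ => ‖S j u‖ ^ 2) volume 0 T := fun j _ =>
      ((hScont j).norm.pow 2).intervalIntegrable _ _
    rw [integral_Icc_eq_integral_Ioc, ← intervalIntegral.integral_of_le hT0,
      intervalIntegral.integral_const_mul, intervalIntegral.integral_finsetSum hii]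
    refine mul_le_mul_of_nonneg_left ?_ (Nat.cast_nonneg _)
    rw [split X (fun n => (T + n) * ‖b n‖ ^ 2), Finset.mul_sum]
    refine Finset.sum_le_sum fun j _ => ?_
    refine (h (2 ^ j) 0 T (c j) Nat.one_le_two_pow hT0).trans ?_
    rw [mul_assoc]
    refine mul_le_mul_of_nonneg_left ?_ hC.le
    rw [Finset.mul_sum]
    refine Finset.sum_le_sum fun n hn => ?_
    have hn1 : ((2 ^ j : ℕ) : ℝ) ≤ n := by exact_mod_cast (Finset.mem_Icc.1 hn).1
    by_cases hjn : Nat.log 2 n = j ∧ n ≤ X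
    · rw [if_pos hjn, hc]
      simp only [if_pos hjn, norm_conj]
      refine mul_le_mul_of_nonneg_right ?_ (by positivity)
      linarith
    · rw [if_neg hjn, hc]
      simp [hjn]
  calc ∫⁻ y in Icc 0 T,
        ENNReal.ofReal (‖∑ n ∈ Finset.Icc 1 X, b n * (n : ℂ) ^ (I * (y : ℂ))‖ ^ 2)
      ≤ ∫⁻ y in Icc 0 T, ENNReal.ofReal ((J : ℝ) * ∑ j ∈ Finset.range J, ‖S j y‖ ^ 2) := by
        refine lintegral_mono fun u => ENNReal.ofReal_le_ofReal ?_
        rw [e1 u]
        exact e2 u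
    _ = ENNReal.ofReal (∫ u in Icc 0 T, (J : ℝ) * ∑ j ∈ Finset.range J, ‖S j u‖ ^ 2) := by
        rw [ofReal_integral_eq_lintegral_ofReal hint (Eventually.of_forall fun y =>
          mul_nonneg (Nat.cast_nonneg _) (Finset.sum_nonneg fun _ _ => sq_nonneg _))]
    _ ≤ _ := by
        apply ENNReal.ofReal_le_ofReal
        refine e3.trans ?_
        have hl2 : 0 < Real.log 2 := Real.log_pos one_lt_two
        have hX0 : (2 : ℝ) ≤ X := by exact_mod_cast hX
        have hlX : Real.log 2 ≤ Real.log X := Real.log_le_log two_pos hX0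
        have hJ1 : (J : ℝ) ≤ 2 / Real.log 2 * Real.log X := nblk hX
        have hsum : 0 ≤ ∑ n ∈ Finset.Icc 1 X, (T + n) * ‖b n‖ ^ 2 :=
          Finset.sum_nonneg fun n _ => mul_nonneg (by positivity) (sq_nonneg _)
        have h5 : 2 / Real.log 2 * Real.log X ≤ 2 / Real.log 2 ^ 2 * Real.log X ^ 2 := by
          have : 2 / Real.log 2 ^ 2 * Real.log X ^ 2 =
              (2 / Real.log 2 * Real.log X) * (Real.log X / Real.log 2) := by
            field_simp
          rw [this]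
          refine le_mul_of_one_le_right (by positivity) ?_
          rwa [one_le_div hl2]
        calc (J : ℝ) * (C * ∑ n ∈ Finset.Icc 1 X, (T + n) * ‖b n‖ ^ 2)
            ≤ (2 / Real.log 2 ^ 2 * Real.log X ^ 2) *
              (C * ∑ n ∈ Finset.Icc 1 X, (T + n) * ‖b n‖ ^ 2) :=
              mul_le_mul_of_nonneg_right (hJ1.trans h5) (mul_nonneg hC.le hsum)
          _ = _ := by ring

/-- `k` variables -/
theorem ind {D T : ℝ} {X : ℕ} (hD : 0 ≤ D) (hT : 4 ≤ T)
    (h1 : ∀ b : ℕ → ℂ, ∫⁻ y in Icc 0 T,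
      ENNReal.ofReal (‖∑ n ∈ Finset.Icc 1 X, b n * (n : ℂ) ^ (I * (y : ℂ))‖ ^ 2) ≤
      ENNReal.ofReal (D * ∑ n ∈ Finset.Icc 1 X, (T + n) * ‖b n‖ ^ 2)) :
    ∀ (k : ℕ) (a : (Fin k → ℕ) → ℂ),
    ∫⁻ β, ENNReal.ofReal (‖SC X a β‖ ^ 2) ∂(mP (Fin k) T) ≤
      ENNReal.ofReal (D ^ k *
        ∑ n ∈ Fintype.piFinset (fun _ : Fin k => Finset.Icc 1 X),
          (∏ l, (T + n l)) * ‖a n‖ ^ 2) := by
  intro k
  induction k with
  | zero =>
    intro a
    have e : ∀ β : Fin 0 → ℝ, SC X a β = a default := by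
      intro β
      unfold SC
      simp
      exact congrArg a (Subsingleton.elim _ _)
    simp only [e]
    rw [lintegral_const]
    have hm : mP (Fin 0) T univ = 1 := by
      unfold mP
      rw [Measure.pi_univ]
      simp
    rw [hm, mul_one]
    apply ENNReal.ofReal_le_ofReal
    simp
    exact (congrArg (fun n => ‖a n‖ ^ 2) (Subsingleton.elim _ _)).le
  | succ k ih =>
    intro a
    have hT0 : 0 ≤ T := by linarith
    have hmp := measurePreserving_piFinSuccAbove
      (fun _ : Fin (k + 1) => (volume : Measure ℝ).restrict (Icc 0 T)) 0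
    have hmeas : Measurable fun p : ℝ × (Fin k → ℝ) =>
        ENNReal.ofReal (‖SC X a (Fin.cons p.1 p.2)‖ ^ 2) := by
      apply Measurable.ennreal_ofReal
      apply Continuous.measurable
      refine ((cont_SC X a).comp ?_).norm.pow 2
      refine continuous_pi fun i => ?_
      refine Fin.cases ?_ (fun j => ?_) i
      · simpa using continuous_fst
      · simp only [Fin.cons_succ]
        exact (continuous_apply j).comp continuous_snd
    have e1 : ∫⁻ β, ENNReal.ofReal (‖SC X a β‖ ^ 2) ∂(mP (Fin (k + 1)) T) =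
        ∫⁻ p, ENNReal.ofReal (‖SC X a (Fin.cons p.1 p.2)‖ ^ 2)
          ∂(((volume : Measure ℝ).restrict (Icc 0 T)).prod (mP (Fin k) T)) := by
      unfold mP
      rw [← hmp.lintegral_comp_emb (MeasurableEquiv.measurableEmbedding _)]
      apply lintegral_congr
      intro β
      congr 4
      funext i
      refine Fin.cases ?_ (fun j => ?_) i
      · simp [MeasurableEquiv.piFinSuccAbove]
      · simp [MeasurableEquiv.piFinSuccAbove]
        rfl
    have : SigmaFinite (mP (Fin k) T) := by unfold mP; infer_instance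
    rw [e1, lintegral_prod_symm _ hmeas.aemeasurable]
    have hb : ∀ m : ℕ, Measurable fun β : Fin k → ℝ =>
        ENNReal.ofReal ((T + m) * ‖SC X (fun n => a (Fin.cons m n)) β‖ ^ 2) := fun m =>
      ((((cont_SC X _).norm.pow 2).measurable).const_mul _).ennreal_ofReal
    have hTm : ∀ m : ℕ, 0 ≤ T + (m : ℝ) := fun m => by positivity
    calc ∫⁻ β, (∫⁻ y in Icc 0 T, ENNReal.ofReal (‖SC X a (Fin.cons y β)‖ ^ 2)) ∂(mP (Fin k) T)
        ≤ ∫⁻ β, ENNReal.ofReal (D *
            ∑ m ∈ Finset.Icc 1 X, (T + m) * ‖SC X (fun n => a (Fin.cons m n)) β‖ ^ 2)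
            ∂(mP (Fin k) T) := by
          apply lintegral_mono
          intro β
          have := h1 (fun m => SC X (fun n => a (Fin.cons m n)) β)
          simpa only [SC_cons] using this
      _ = ENNReal.ofReal D * ∑ m ∈ Finset.Icc 1 X,
            ∫⁻ β, ENNReal.ofReal ((T + m) * ‖SC X (fun n => a (Fin.cons m n)) β‖ ^ 2)
              ∂(mP (Fin k) T) := by
          rw [← lintegral_finsetSum _ (fun m _ => hb m), ← lintegral_const_mul _
            (Finset.measurable_fun_sum _ fun m _ => hb m)]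
          apply lintegral_congr
          intro β
          rw [ENNReal.ofReal_mul hD, ENNReal.ofReal_sum_of_nonneg
            (fun m _ => mul_nonneg (hTm m) (sq_nonneg _))]
      _ ≤ ENNReal.ofReal D * ∑ m ∈ Finset.Icc 1 X,
            ENNReal.ofReal ((T + m) * (D ^ k *
              ∑ n ∈ Fintype.piFinset (fun _ : Fin k => Finset.Icc 1 X),
                (∏ l, (T + n l)) * ‖a (Fin.cons m n)‖ ^ 2)) := by
          gcongr with m _
          simp only [ENNReal.ofReal_mul (hTm m)]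
          have hm2 : Measurable fun β : Fin k → ℝ =>
              ENNReal.ofReal (‖SC X (fun n => a (Fin.cons m n)) β‖ ^ 2) :=
            (((cont_SC X _).norm.pow 2).measurable).ennreal_ofReal
          rw [lintegral_const_mul _ hm2]
          gcongr
          exact ih _
      _ = _ := by
          have hpos : ∀ n : Fin k → ℕ, 0 ≤ ∏ l, (T + (n l : ℝ)) := fun n =>
            Finset.prod_nonneg fun l _ => hTm _
          rw [← ENNReal.ofReal_sum_of_nonneg (fun m _ => mul_nonneg (hTm m)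
            (mul_nonneg (pow_nonneg hD _) (Finset.sum_nonneg fun n _ => mul_nonneg (hpos n)
              (sq_nonneg _)))),
            ← ENNReal.ofReal_mul hD, sum_cons]
          congr 1
          rw [pow_succ', mul_assoc, Finset.mul_sum (a := D ^ k)]
          congr 1
          refine Finset.sum_congr rfl fun m _ => ?_
          rw [Finset.mul_sum, Finset.mul_sum, Finset.mul_sum]
          refine Finset.sum_congr rfl fun n _ => ?_
          rw [Fin.prod_univ_succ]
          simp only [Fin.cons_zero, Fin.cons_succ]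
          ring

end Tmwaux

open Tmwaux Pool.Agent.TH738.GF in
/-- **weighted mean value theorem in `k` variables** -/
theorem t_TMW : S_TMW := by
  obtain ⟨C, hC, h⟩ := Pool.Agent.N879.PU.t_MVS
  intro k
  have hl2 : 0 < Real.log 2 := Real.log_pos one_lt_two
  refine ⟨(2 / Real.log 2 ^ 2 * C) ^ k, by positivity, fun T X a hT hX => ?_⟩
  have key := Tmwaux.ind (D := 2 / Real.log 2 ^ 2 * C * Real.log X ^ 2) (T := T) (X := X)
    (by positivity) hT (fun b => Tmwaux.one hC h T X b hT hX) k a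
  unfold SC at key
  refine key.trans (le_of_eq ?_)
  congr 2
  rw [mul_pow _ (Real.log X ^ 2), ← pow_mul]

end

end Pool.Agent.N879.SQ
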