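import Pool.Agent.N879.SQ.Stm
import Pool.Agent.TH612.GS.Z
import Pool.Agent.TH521.GS.Rep
import Pool.Agent.TH236.GF.OQ
import Pool.Agent.TH321.GF.AQ
import Pool.Agent.TH740.GF.VQ
import Pool.Agent.TH928.GS.MV
import Pool.Agent.TH570.GS.SM

set_option autoImplicit false

/-! SQ/Z1Q: the product of zeta values against the product of the partial sums (helper344). -/

namespace Pool.Agent.N879.SQ

open Complex Filter Topology MeasureTheory Set
open Pool.Agent.TH612.CF Pool.Agent.TH612.GS

noncomputable section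

theorem Z1qaux.main (hREP : S_REP) (hOP : S_OQ) (hSM : S_SM) (hSP : S_VQ) : S_Z1Q := by
  intro k
  obtain ⟨C1, T1, hC1, hT1, h1⟩ := hOP
  obtain ⟨C2, T2, hC2, hT2, h2⟩ := hSM
  obtain ⟨C3, T3, hC3, hT3, h3⟩ := hSP
  rcases Nat.eq_zero_or_pos k with hk | hk
  · subst hk
    refine ⟨1, 3, by norm_num, le_rfl, fun T S N hT hS0 hST hN _ => ?_⟩
    simp [A1]
  refine ⟨4 ^ (2 * k) * C1 * (C2 + C3) ^ (2 * k - 1), max 3 (max T1 (max T2 T3)), by positivity,
    le_max_left _ _, fun T S N hT hS0 hST hN hNT => ?_⟩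
  have hT3' : 3 ≤ T := (le_max_left _ _).trans hT
  have hTT1 : T1 ≤ T := ((le_max_left _ _).trans (le_max_right _ _)).trans hT
  have hTT2 : T2 ≤ T := (((le_max_left _ _).trans (le_max_right _ _)).trans (le_max_right _ _)).trans hT
  have hTT3 : T3 ≤ T := (((le_max_right _ _).trans (le_max_right _ _)).trans (le_max_right _ _)).trans hT
  have hT0 : 0 < T := by linarith
  have hNr : (1:ℝ) ≤ N := by linarith
  have hN1 : 1 ≤ N := by exact_mod_cast hNr
  have hlog : 1 ≤ Real.log T := by
    rw [Real.le_log_iff_exp_le hT0]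
    exact (Real.exp_one_lt_d9.le.trans (by norm_num)).trans hT3'
  set K : ℝ := C1 * (T * Real.log T ^ 2) with hK
  set V : ℝ := (C2 + C3) * T * Real.log T with hV
  have hK0 : 0 ≤ K := by positivity
  have hV0 : 0 ≤ V := by positivity
  have key := hREP (Fin k ⊕ Fin k) (fz k z) (fz k (PN N)) T S K V hS0 hST hK0 hV0
    (fun i => fz_cont z_cont i) (fun i => fz_cont (PN_cont N) i) ?_ ?_ ?_
  · have e1 : ∀ γ : Fin k ⊕ Fin k → ℝ,
        (∫ t in (0:ℝ)..S, (∏ i, fz k z i (t + γ i) - ∏ i, fz k (PN N) i (t + γ i))) =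
        A1 N S γ := by
      intro γ
      unfold A1
      rw [intervalIntegral.integral_sub]
      · simp only [fz_prod]
      · refine Continuous.intervalIntegrable ?_ _ _
        exact continuous_finsetProd _ fun i _ => (fz_cont z_cont i).comp (by fun_prop)
      · refine Continuous.intervalIntegrable ?_ _ _
        exact continuous_finsetProd _ fun i _ => (fz_cont (PN_cont N) i).comp (by fun_prop)
    simp only [e1] at key
    refine key.trans (ENNReal.ofReal_le_ofReal (le_of_eq ?_))
    have hc : Fintype.card (Fin k ⊕ Fin k) = 2 * k := by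
      rw [Fintype.card_sum, Fintype.card_fin]; ring
    rw [hc]
    obtain ⟨m, hm⟩ : ∃ m, 2 * k = m + 1 := ⟨2 * k - 1, by omega⟩
    rw [hm, Nat.add_sub_cancel, hV, hK, mul_pow, mul_pow]
    ring
  · intro i R hR
    cases i with
    | inl j =>
      have := h1 T S N R hTT1 hS0 hST hN hNT hR
      simpa [fz] using this
    | inr j =>
      have := h1 T S N (fun t => (starRingEnd ℂ) (R t)) hTT1 hS0 hST hN hNT
        (Complex.continuous_conj.comp hR)
      simp only [Complex.norm_conj] at this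
      refine le_trans (le_of_eq ?_) this
      refine intervalIntegral.integral_congr fun y _ => ?_
      have e3 : (∫ t in (0:ℝ)..S, (fz k z (Sum.inr j) (t + y) - fz k (PN N) (Sum.inr j) (t + y)) * R t) =
          (starRingEnd ℂ) (∫ t in (0:ℝ)..S, (z (t + y) - PN N (t + y)) * (starRingEnd ℂ) (R t)) := by
        rw [← int_conj]
        refine intervalIntegral.integral_congr fun t _ => ?_
        simp only [fz, Sum.elim_inr, map_mul, map_sub, Complex.conj_conj]
      change ‖_‖ ^ 2 = ‖_‖ ^ 2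
      rw [e3, Complex.norm_conj]
  · intro i t ht
    simp only [fz_norm]
    refine (shift_le z_cont ht.1 (ht.2.trans hST)).trans ((h2 T hTT2).trans ?_)
    rw [hV]
    gcongr
    linarith
  · intro i t ht
    simp only [fz_norm]
    refine (shift_le (PN_cont N) ht.1 (ht.2.trans hST)).trans ((h3 T N hTT3 hN1 hNT).trans ?_)
    rw [hV]
    gcongr
    linarith

theorem t_Z1Q : S_Z1Q :=
  Z1qaux.main Pool.Agent.TH521.GS.t_REP (Pool.Agent.TH236.GF.t_OQ Pool.Agent.TH321.GF.t_AQ)
    Pool.Agent.TH570.GS.t_SM (Pool.Agent.TH740.GF.t_VQ Pool.Agent.TH928.GS.t_MV)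

end

end Pool.Agent.N879.SQ
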