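import Pool.Agent.N879.SQ.Asm1
import Pool.Agent.N879.SQ.Asm2
import Pool.Agent.N879.SQ.Asm3
import Pool.Agent.N879.SQ.Asm4
import Pool.Agent.N879.SQ.Asm5
import Pool.Agent.N879.SQ.Chi2
import Pool.Agent.N879.SQ.Cnt
import Pool.Agent.N879.SQ.Cut
import Pool.Agent.N879.SQ.Dtp
import Pool.Agent.N879.SQ.Emd
import Pool.Agent.N879.SQ.Shp
import Pool.Agent.N879.SQ.Tm2
import Pool.Agent.N879.SQ.Trn
import Pool.Agent.N879.SQ.Zt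
import Pool.Agent.N879.SQ.Z1q
import Pool.Agent.N879.SQ.Tmw
import Pool.Agent.N879.SQ.Cz
import Pool.Agent.N879.SQ.Rm
import Pool.Agent.N879.SQ.Off
import Pool.Agent.N879.SQ.Msi
import Pool.Agent.N879.SQ.Mid
import Pool.Agent.N879.SQ.Ak
import Pool.Agent.TH811.GS.One
import Pool.Agent.TH928.GS.MV

set_option autoImplicit false

/-! Project SQ: all parts together. -/

namespace Pool.Agent.N879.SQ

open Pool.Agent.TH612.GS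

theorem cz : S_CZ := t_CZ t_SHP t_EMD (t_DTP t_ZT)

theorem off : S_OFF := t_OFF t_TM2 t_CNT

theorem cut : S_CUT := t_CUT t_TMW

theorem one : S_ONE := Pool.Agent.TH811.GS.t_ONE Pool.Agent.TH928.GS.t_MV

theorem msq : S_MSQ := t_MSQ t_INV one t_Z1Q off cut cz (t_SW2 t_CHI2)

theorem msi : S_MSI := t_MSI msq t_TRN

theorem fin : S_FIN := t_FIN t_RM msi t_NS2

theorem msd : S_MSD := t_MSD t_Z1Q off cut cz

theorem mid : S_MID := t_MID msd t_TRD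

theorem fid : S_FID := t_FID t_RM mid t_NS2

theorem win (k : ℕ) (ε : ℝ) (hε : 0 < ε) :
    ∃ δ T₁ : ℝ, 0 < δ ∧ ∀ T : ℝ, T₁ ≤ T → ∀ a b : ℝ, 0 ≤ a → a ≤ b → b ≤ T →
      mP (Fin k ⊕ Fin k) T {γ | (∀ i, 0 ≤ γ i ∧ γ i ≤ T) ∧
        (b - a) ^ (1 / 2 : ℝ) * T ^ ε < ‖∫ t in a..b, ff γ t‖} ≤
      ENNReal.ofReal (T ^ (2 * k - δ : ℝ)) := t_WIN msi t_NS2 k ε hε

theorem wid (k : ℕ) (ε : ℝ) (hε : 0 < ε) :
    ∃ δ T₁ : ℝ, 0 < δ ∧ ∀ T : ℝ, T₁ ≤ T → ∀ a b : ℝ, 0 ≤ a → a ≤ b → b ≤ T →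
      mP (Fin k ⊕ Fin k) T {γ | (∀ i, 0 ≤ γ i ∧ γ i ≤ T) ∧
        (b - a) ^ (1 / 2 : ℝ) * T ^ ε < ‖∫ t in a..b, fd γ t‖} ≤
      ENNReal.ofReal (T ^ (2 * k - δ : ℝ)) := t_WID mid t_NS2 k ε hε

end Pool.Agent.N879.SQ
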