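import Pool.Agent.TH612.GS.Asm6
import Pool.Agent.TH612.GS.Stm3
import Pool.Agent.TH757.GS.CONT

set_option autoImplicit false

/-!
Project SQ: for almost all shift vectors in `[0,T]^{2k}` the shifted moments of zeta of order `2k`
follow the recipe with remainder `T^(1/2+ε)`. Statements of the parts.
-/

namespace Pool.Agent.N879.SQ

open Complex Filter Topology MeasureTheory Set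
open Pool.Agent.TH612.CF Pool.Agent.TH612.GS Pool.Agent.TH757.GS
open scoped ContDiff

noncomputable section

variable {k : ℕ}

/-- CHI2: the factor of the functional equation, with the length of the interval -/
def S_CHI2 : Prop := ∃ C T₀ : ℝ, 0 < C ∧ 3 ≤ T₀ ∧ ∀ (T S : ℝ) (R : ℝ → ℂ), T₀ ≤ T →
  0 ≤ S → S ≤ T → Continuous R → (∀ t, ‖R t‖ ≤ 1) →
  ∫ y in (0:ℝ)..T, ‖∫ t in (0:ℝ)..S, chi (1 / 2 + I * (t + y)) * R t‖ ^ 2 ≤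
    C * S * T * Real.log T ^ 2

/-- SW2: the terms with at least one swap are small on average -/
def S_SW2 : Prop := ∀ k : ℕ, ∃ C T₀ : ℝ, 0 < C ∧ 3 ≤ T₀ ∧ ∀ (T S : ℝ)
  (π : Equiv.Perm (Fin k ⊕ Fin k)), T₀ ≤ T → 0 ≤ S → S ≤ T → (∃ j, (π (Sum.inr j)).isLeft = true) →
  ∫⁻ γ, ENNReal.ofReal (‖IG S γ π‖ ^ 2) ∂(mP (Fin k ⊕ Fin k) T) ≤
    ENNReal.ofReal (C * S * T ^ (2 * k) * Real.log T ^ 2)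

/-- Z1Q: the product of zeta values against the product of the partial sums of length `X` -/
def S_Z1Q : Prop := ∀ k : ℕ, ∃ C T₀ : ℝ, 0 < C ∧ 3 ≤ T₀ ∧ ∀ (T S : ℝ) (X : ℕ), T₀ ≤ T → 0 ≤ S →
  S ≤ T → 2 * T ≤ X → (X : ℝ) ≤ 4 * T →
  ∫⁻ γ, ENNReal.ofReal (‖A1 X S γ‖ ^ 2) ∂(mP (Fin k ⊕ Fin k) T) ≤
    ENNReal.ofReal (C * Real.log T ^ (2 * k + 1) * T ^ (2 * k) * S)

/-- TM2: mean square of a sum of characters, length at most `4 T` -/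
def S_TM2 : Prop := ∀ k : ℕ, ∃ C : ℝ, 0 < C ∧ ∀ (T : ℝ) (X : ℕ) (a : (Fin k ⊕ Fin k → ℕ) → ℂ),
  4 ≤ T → (X : ℝ) ≤ 4 * T →
  ∫⁻ γ, ENNReal.ofReal (‖∑ ν ∈ tup k X, a ν * ch ν γ‖ ^ 2) ∂(mP (Fin k ⊕ Fin k) T) ≤
    ENNReal.ofReal (C * T ^ (2 * k) * ∑ ν ∈ tup k X, ‖a ν‖ ^ 2)

/-- TMW: mean square of a sum of characters in `k` variables, any length -/
def S_TMW : Prop := ∀ k : ℕ, ∃ C : ℝ, 0 < C ∧ ∀ (T : ℝ) (X : ℕ) (a : (Fin k → ℕ) → ℂ), 4 ≤ T →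
  2 ≤ X →
  ∫⁻ β, ENNReal.ofReal (‖∑ n ∈ Fintype.piFinset (fun _ : Fin k => Finset.Icc 1 X),
      a n * ∏ l, (n l : ℂ) ^ (I * (β l : ℂ))‖ ^ 2) ∂(mP (Fin k) T) ≤
    ENNReal.ofReal (C * Real.log X ^ (2 * k) *
      ∑ n ∈ Fintype.piFinset (fun _ : Fin k => Finset.Icc 1 X), (∏ l, (T + n l)) * ‖a n‖ ^ 2)

open Classical in
/-- CNT: the count of the off-diagonal terms -/
def S_CNT : Prop := ∀ (k : ℕ) (ε : ℝ), 0 < ε → ∃ C : ℝ, 0 < C ∧ ∀ X : ℕ, 1 ≤ X →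
  ∑ ν ∈ (tup k X).filter (fun ν => ∏ j, ν (Sum.inl j) ≠ ∏ j, ν (Sum.inr j)),
    (∏ i, (ν i : ℝ))⁻¹ / |Real.log ((∏ j, ν (Sum.inl j) : ℕ) : ℝ) -
      Real.log ((∏ j, ν (Sum.inr j) : ℕ) : ℝ)| ≤ C * (X : ℝ) ^ ε

/-- the off-diagonal terms -/
def OD (X : ℕ) (S : ℝ) (γ : Fin k ⊕ Fin k → ℝ) : ℂ :=
  (∫ t in (0:ℝ)..S, ∏ j : Fin k, PN X (t + γ (Sum.inl j)) *
    (starRingEnd ℂ) (PN X (t + γ (Sum.inr j)))) - S * SN X γ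

/-- OFF: mean square of the off-diagonal terms -/
def S_OFF : Prop := ∀ (k : ℕ) (ε : ℝ), 0 < ε → ∃ C : ℝ, 0 < C ∧ ∀ (T S : ℝ) (X : ℕ), 4 ≤ T →
  0 ≤ S → S ≤ T → 1 ≤ X → (X : ℝ) ≤ 4 * T →
  ∫⁻ γ, ENNReal.ofReal (‖OD X S γ‖ ^ 2) ∂(mP (Fin k ⊕ Fin k) T) ≤
    ENNReal.ofReal (C * S * T ^ (2 * k) * T ^ ε)

/-- CUT: from the sharp to the long smooth sum -/
def S_CUT : Prop := ∀ (k A : ℕ) (ψ : ℝ → ℝ) (ε : ℝ), Cut ψ → 0 < ε → ∃ C : ℝ, 0 < C ∧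
  ∀ (T : ℝ) (X M : ℕ), 4 ≤ T → 2 * T ≤ X → (X : ℝ) ≤ 4 * T → X ^ 4 ≤ M → (M : ℝ) ≤ 2 * T ^ A →
  ∫⁻ γ, ENNReal.ofReal (‖SN X γ - SP ψ M γ‖ ^ 2) ∂(mP (Fin k ⊕ Fin k) T) ≤
    ENNReal.ofReal (C * T ^ (2 * k) * T ^ (ε - 1))

/-- ZT: zeta without its pole -/
def S_ZT : Prop := ∃ Zt : ℂ → ℂ, Differentiable ℂ Zt ∧
  (∀ w : ℂ, w ≠ 1 → riemannZeta w = Zt w + 1 / (w - 1)) ∧
  ∃ C : ℝ, 0 < C ∧ ∀ w : ℂ, 1 / 2 ≤ w.re → w.re ≤ 2 → ‖Zt w‖ ≤ C * (1 + ‖w‖) ^ 2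

/-- SHP: the kernel, and shift of the line for functions of polynomial growth -/
def S_SHP : Prop := ∀ (ψ : ℝ → ℝ) (N : ℕ), Cut ψ → ∃ C : ℝ, 0 < C ∧
  (∀ c y : ℝ, 1 ≤ c → ‖Qk ψ (c + y * I)‖ * (1 + |y|) ^ N ≤ C * Real.exp c ∧
    ‖Qk ψ (((-c : ℝ) : ℂ) + y * I)‖ * (1 + |y|) ^ N ≤ C * Real.exp (-c / 2)) ∧
  ∀ (c c' B : ℝ) (F : ℂ → ℂ), 1 ≤ c → c < c' → DifferentiableOn ℂ F {s : ℂ | |s.re| < c'} →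
    (∀ s : ℂ, |s.re| ≤ c → ‖F s‖ ≤ B * (1 + ‖s‖) ^ N) →
    Integrable (fun y : ℝ => Qk ψ (c + y * I) * F (c + y * I)) ∧
    Integrable (fun y : ℝ => Qk ψ (((-c : ℝ) : ℂ) + y * I) * F (((-c : ℝ) : ℂ) + y * I)) ∧
    (∫ y : ℝ, Qk ψ (c + y * I) * F (c + y * I)) - 2 * Real.pi * F 0 =
      ∫ y : ℝ, Qk ψ (((-c : ℝ) : ℂ) + y * I) * F (((-c : ℝ) : ℂ) + y * I)

/-- the Dirichlet series with coefficients `dr γ n` -/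
def Dz (γ : Fin k ⊕ Fin k → ℝ) (s : ℂ) : ℂ :=
  FH (as γ s) (bs γ s) *
    ∏ j : Fin k, ∏ l : Fin k, riemannZeta (1 + s + I * (γ (Sum.inl j) - γ (Sum.inr l)))

/-- EMD: the finite against the infinite series -/
def S_EMD : Prop := ∀ k : ℕ, ∃ K : ℝ, 0 ≤ K ∧ ∀ (γ : Fin k ⊕ Fin k → ℝ) (M : ℕ) (s : ℂ), 1 ≤ M →
  s.re = 1 / 4 → ‖EM M γ s - Dz γ s‖ ≤ K * (M : ℝ) ^ (-(3 / 16) : ℝ)

/-- DTP: replacement of the series, near zero, by functions without poles in the strip -/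
def S_DTP : Prop := ∀ k : ℕ, ∃ P : ℕ, ∀ B : ℕ, ∃ (C : ℝ) (Q : ℕ), 0 < C ∧
  ∀ (T : ℝ) (γ : Fin k ⊕ Fin k → ℝ), 4 ≤ T → γ ∈ Sep k T → ∃ F : ℂ → ℂ,
  DifferentiableOn ℂ F {s : ℂ | |s.re| < 3 / 8} ∧
  (∀ s : ℂ, |s.re| ≤ 1 / 4 → ‖F s‖ ≤ C * T ^ P * (1 + ‖s‖) ^ Q) ∧
  (∀ s : ℂ, s.re = 1 / 4 → ‖Dz γ s - F s‖ ≤ C * T ^ P * (1 + ‖s‖) ^ Q / T ^ B) ∧
  F 0 = zr γ

/-- CZ: the long smooth sum against `zr γ`, for separated shifts -/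
def S_CZ : Prop := ∀ (k : ℕ) (ψ : ℝ → ℝ), Cut ψ → ∃ A : ℕ, 5 ≤ A ∧ ∃ C T₀ : ℝ, 0 < C ∧ 4 ≤ T₀ ∧
  ∀ (T : ℝ) (M : ℕ) (γ : Fin k ⊕ Fin k → ℝ), T₀ ≤ T → T ^ A ≤ M → (M : ℝ) ≤ 2 * T ^ A →
  γ ∈ Sep k T → ‖SP ψ M γ - zr γ‖ ≤ C * T ^ (-(1 / 2) : ℝ)

/-- RM: from mean squares over intervals to the maximum (dyadic decomposition) -/
def S_RM : Prop := ∃ C : ℝ, 0 < C ∧ ∀ (Ω : Type) [MeasurableSpace Ω] (μ : Measure Ω) (E : Set Ω)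
  (f : Ω → ℝ → ℂ) (T K K' : ℝ), 1 ≤ T → 0 ≤ K → 0 ≤ K' → (∀ x, Continuous (f x)) →
  (∀ a b : ℝ, 0 ≤ a → a ≤ b → b ≤ T → ∃ G : Ω → ENNReal, Measurable G ∧
    (∀ x ∈ E, ENNReal.ofReal (‖∫ t in a..b, f x t‖ ^ 2) ≤ G x) ∧
    ∫⁻ x, G x ∂μ ≤ ENNReal.ofReal (K * (b - a))) →
  (∀ a b : ℝ, 0 ≤ a → a ≤ b → b ≤ T → b ≤ a + 1 → ∃ G : Ω → ENNReal, Measurable G ∧
    (∀ x ∈ E, ENNReal.ofReal ((∫ t in a..b, ‖f x t‖) ^ 2) ≤ G x) ∧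
    ∫⁻ x, G x ∂μ ≤ ENNReal.ofReal K') →
  ∀ lam : ℝ, 0 < lam →
    μ (E ∩ {x | ∃ S : ℝ, 0 ≤ S ∧ S ≤ T ∧ lam < ‖∫ t in (0:ℝ)..S, f x t‖}) ≤
      ENNReal.ofReal (C * Real.log (T + 2) ^ 2 * (K + K') * T / lam ^ 2)

/-- the difference of the product of zeta values and the recipe -/
def ff (γ : Fin k ⊕ Fin k → ℝ) (t : ℝ) : ℂ :=
  Zg γ t - ((Nat.factorial k : ℂ) ^ 2)⁻¹ * Qs t (fun i => (γ i : ℂ))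

/-- the shifted vector -/
def sh (γ : Fin k ⊕ Fin k → ℝ) (a : ℝ) : Fin k ⊕ Fin k → ℝ := fun i => γ i + a

/-- TRN: translation -/
def S_TRN : Prop := ∀ (k : ℕ) (γ : Fin k ⊕ Fin k → ℝ) (a t : ℝ), ff (sh γ a) t = ff γ (t + a)

/-- MSQ: the mean square of the difference, with the length of the interval -/
def S_MSQ : Prop := ∀ (k : ℕ) (ε : ℝ), 0 < ε → ∃ C T₀ : ℝ, 0 < C ∧ 4 ≤ T₀ ∧ ∀ (T S : ℝ), T₀ ≤ T →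
  0 ≤ S → S ≤ T → ∃ G : (Fin k ⊕ Fin k → ℝ) → ENNReal, Measurable G ∧
    (∀ γ ∈ Sep k T, ENNReal.ofReal (‖DD S γ‖ ^ 2) ≤ G γ) ∧
    ∫⁻ γ, G γ ∂(mP (Fin k ⊕ Fin k) T) ≤ ENNReal.ofReal (C * S * T ^ (2 * k) * T ^ ε)

/-- the separated shift vectors, with `2 T` in place of `T` for the distances -/
def Sep2 (k : ℕ) (T : ℝ) : Set (Fin k ⊕ Fin k → ℝ) :=
  {γ | (∀ i, 0 ≤ γ i ∧ γ i ≤ T) ∧ ∀ p q, p ≠ q → (2 * T) ^ (1 / 2 : ℝ) ≤ |γ p - γ q|}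

/-- NS2: almost all shift vectors are separated -/
def S_NS2 : Prop := ∀ (k : ℕ) (T : ℝ), 1 ≤ T →
  mP (Fin k ⊕ Fin k) T (Sep2 k T)ᶜ ≤ ENNReal.ofReal (16 * k ^ 2 * T ^ (2 * k - 1 / 2 : ℝ))

/-- MSI: mean squares over all intervals -/
def S_MSI : Prop := ∀ (k : ℕ) (ε : ℝ), 0 < ε → ∃ C T₀ : ℝ, 0 < C ∧ 4 ≤ T₀ ∧ ∀ (T : ℝ), T₀ ≤ T →
  (∀ a b : ℝ, 0 ≤ a → a ≤ b → b ≤ T → ∃ G : (Fin k ⊕ Fin k → ℝ) → ENNReal, Measurable G ∧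
    (∀ γ ∈ Sep2 k T, ENNReal.ofReal (‖∫ t in a..b, ff γ t‖ ^ 2) ≤ G γ) ∧
    ∫⁻ γ, G γ ∂(mP (Fin k ⊕ Fin k) T) ≤ ENNReal.ofReal (C * T ^ (2 * k) * T ^ ε * (b - a))) ∧
  ∀ a b : ℝ, 0 ≤ a → a ≤ b → b ≤ T → b ≤ a + 1 →
    ∃ G : (Fin k ⊕ Fin k → ℝ) → ENNReal, Measurable G ∧
    (∀ γ ∈ Sep2 k T, ENNReal.ofReal ((∫ t in a..b, ‖ff γ t‖) ^ 2) ≤ G γ) ∧
    ∫⁻ γ, G γ ∂(mP (Fin k ⊕ Fin k) T) ≤ ENNReal.ofReal (C * T ^ (2 * k) * T ^ ε)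

/-- FIN: the exceptional set -/
def S_FIN : Prop := ∀ (k : ℕ) (ε : ℝ), 0 < ε → ∃ δ T₀ : ℝ, 0 < δ ∧ ∀ T : ℝ, T₀ ≤ T →
  mP (Fin k ⊕ Fin k) T (Bad k T (T ^ (1 / 2 + ε))) ≤ ENNReal.ofReal (T ^ (2 * k - δ : ℝ))

end

end Pool.Agent.N879.SQ
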