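import Pool.Agent.N879.SQ.Stm

set_option autoImplicit false

/-! Project SQ: the version with the diagonal term only. -/

namespace Pool.Agent.N879.SQ

open Complex Filter Topology MeasureTheory Set
open Pool.Agent.TH612.CF Pool.Agent.TH612.GS Pool.Agent.TH757.GS
open scoped ContDiff

noncomputable section

variable {k : ℕ}

/-- the difference of the product of zeta values and the diagonal term -/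
def fd (γ : Fin k ⊕ Fin k → ℝ) (t : ℝ) : ℂ := Zg γ t - zr γ

/-- TRD: translation -/
def S_TRD : Prop := ∀ (k : ℕ) (γ : Fin k ⊕ Fin k → ℝ) (a t : ℝ), fd (sh γ a) t = fd γ (t + a)

/-- MSD: the mean square of the difference, with the length of the interval -/
def S_MSD : Prop := ∀ (k : ℕ) (ε : ℝ), 0 < ε → ∃ C T₀ : ℝ, 0 < C ∧ 4 ≤ T₀ ∧ ∀ (T S : ℝ), T₀ ≤ T →
  0 ≤ S → S ≤ T → ∃ G : (Fin k ⊕ Fin k → ℝ) → ENNReal, Measurable G ∧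
    (∀ γ ∈ Sep k T, ENNReal.ofReal (‖∫ t in (0:ℝ)..S, fd γ t‖ ^ 2) ≤ G γ) ∧
    ∫⁻ γ, G γ ∂(mP (Fin k ⊕ Fin k) T) ≤ ENNReal.ofReal (C * S * T ^ (2 * k) * T ^ ε)

/-- MID: mean squares over all intervals -/
def S_MID : Prop := ∀ (k : ℕ) (ε : ℝ), 0 < ε → ∃ C T₀ : ℝ, 0 < C ∧ 4 ≤ T₀ ∧ ∀ (T : ℝ), T₀ ≤ T →
  (∀ a b : ℝ, 0 ≤ a → a ≤ b → b ≤ T → ∃ G : (Fin k ⊕ Fin k → ℝ) → ENNReal, Measurable G ∧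
    (∀ γ ∈ Sep2 k T, ENNReal.ofReal (‖∫ t in a..b, fd γ t‖ ^ 2) ≤ G γ) ∧
    ∫⁻ γ, G γ ∂(mP (Fin k ⊕ Fin k) T) ≤ ENNReal.ofReal (C * T ^ (2 * k) * T ^ ε * (b - a))) ∧
  ∀ a b : ℝ, 0 ≤ a → a ≤ b → b ≤ T → b ≤ a + 1 →
    ∃ G : (Fin k ⊕ Fin k → ℝ) → ENNReal, Measurable G ∧
    (∀ γ ∈ Sep2 k T, ENNReal.ofReal ((∫ t in a..b, ‖fd γ t‖) ^ 2) ≤ G γ) ∧
    ∫⁻ γ, G γ ∂(mP (Fin k ⊕ Fin k) T) ≤ ENNReal.ofReal (C * T ^ (2 * k) * T ^ ε)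

/-- the exceptional set -/
def BadD (k : ℕ) (T lam : ℝ) : Set (Fin k ⊕ Fin k → ℝ) :=
  {γ | (∀ i, 0 ≤ γ i ∧ γ i ≤ T) ∧ ∃ S : ℝ, 0 ≤ S ∧ S ≤ T ∧ lam < ‖∫ t in (0:ℝ)..S, fd γ t‖}

/-- FID: the exceptional set -/
def S_FID : Prop := ∀ (k : ℕ) (ε : ℝ), 0 < ε → ∃ δ T₀ : ℝ, 0 < δ ∧ ∀ T : ℝ, T₀ ≤ T →
  mP (Fin k ⊕ Fin k) T (BadD k T (T ^ (1 / 2 + ε))) ≤ ENNReal.ofReal (T ^ (2 * k - δ : ℝ))

end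

end Pool.Agent.N879.SQ
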