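import Pool.Agent.N879.SQ.Stm

set_option autoImplicit false

/-! Project SQ: the local factor as an integral. -/

namespace Pool.Agent.N879.SQ

open Complex MeasureTheory

noncomputable section

/-- AK: the local series as an integral over the circle -/
def S_AK : Prop := ∀ (k : ℕ) (a b : Fin k → ℝ) (p : ℕ), p.Prime →
  ∑' m : ℕ, Pool.Agent.TH612.CF.lt (fun j => (a j : ℂ)) (fun j => (b j : ℂ)) p m =
    ∫ θ in (0:ℝ)..1, ∏ j : Fin k,
      ((1 - exp (2 * Real.pi * I * θ) / (p : ℂ) ^ (1 / 2 + I * (a j : ℂ)))⁻¹ *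
        (1 - exp (-(2 * Real.pi * I * θ)) / (p : ℂ) ^ (1 / 2 - I * (b j : ℂ)))⁻¹)

end

end Pool.Agent.N879.SQ
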