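import Mathlib
import Pool.Agent.N879.SQ.Stm
import Pool.Agent.H306R2.ZetaGrowth

set_option autoImplicit false

/-!
Project SQ (helper879), part ZT (helper572): zeta without its pole.
-/

namespace Pool.Agent.N879.SQ

theorem t_ZT : S_ZT := by
  refine ⟨riemannZeta₀, differentiable_riemannZeta₀, fun w hw => ?_, ?_⟩
  · rw [riemannZeta_eq_inv_sub_add hw, one_div, add_comm]
  · obtain ⟨M, hM⟩ := (isCompact_closedBall (1 : ℂ) (1 / 2)).exists_bound_of_continuousOn
      (differentiable_riemannZeta₀.continuous.continuousOn)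
    refine ⟨8 + |M|, by positivity, fun w h1 _ => ?_⟩
    have hw0 : 0 ≤ ‖w‖ := norm_nonneg w
    have hsq : 1 ≤ (1 + ‖w‖) ^ 2 := by nlinarith
    rcases le_total ‖w - 1‖ (1 / 2) with h | h
    · have h2 := hM w (by rwa [Metric.mem_closedBall, dist_eq_norm])
      have h3 : M ≤ |M| := le_abs_self M
      have h4 : 0 ≤ |M| := abs_nonneg M
      nlinarith
    · have hw : w ≠ 1 := by
        rintro rfl
        rw [sub_self, norm_zero] at h
        norm_num at h
      have h2 := Pool.Agent.H306R2.zeta_norm_le h1 h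
      have h3 : ‖(w - 1)⁻¹‖ ≤ 2 := by
        rw [norm_inv]
        calc ‖w - 1‖⁻¹ ≤ (1 / 2 : ℝ)⁻¹ := inv_anti₀ (by norm_num) h
          _ = 2 := by norm_num
      have h4 : riemannZeta₀ w = riemannZeta w - (w - 1)⁻¹ := by
        rw [riemannZeta_eq_inv_sub_add hw]
        ring
      have h5 : ‖riemannZeta₀ w‖ ≤ ‖riemannZeta w‖ + ‖(w - 1)⁻¹‖ := by
        rw [h4]
        exact norm_sub_le _ _
      have h6 : 0 ≤ |M| * (1 + ‖w‖) ^ 2 := by positivity
      have h7 : 6 * (‖w‖ + 1) ^ 2 = 6 * (1 + ‖w‖) ^ 2 := by ring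
      nlinarith

end Pool.Agent.N879.SQ
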